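import Mathlib

open scoped LinearAlgebra.Projectivization

namespace Pool.Agent.ProjMetric

/-- The coordinate space `ℝ³`. -/
abbrev V3 := Fin 3 → ℝ

/-- The real projective plane. -/
abbrev P2 := ℙ ℝ V3

/-- A set of points of the projective plane is a projective line if it consists of all points
contained in some two-dimensional linear subspace of `ℝ³`. -/
def IsLine (l : Set P2) : Prop :=
  ∃ W : Submodule ℝ V3, Module.finrank ℝ W = 2 ∧ l = {X : P2 | X.submodule ≤ W}

/-- The standard embedding `(x, y) ↦ [x : y : 1]` of the affine plane in the projective plane. -/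
noncomputable def aff (x : ℝ × ℝ) : P2 :=
  Projectivization.mk ℝ ![x.1, x.2, 1] (fun h => by simpa using congrFun h 2)

/-- The three types of projective-metric planes. -/
inductive Kind
  | elliptic
  | parabolic
  | hyperbolic

/-- The sets `M` which underlie the projective-metric planes of the given type: the whole projective
plane (elliptic), the affine plane (parabolic), a nonempty proper open convex subset of the affine
plane (hyperbolic). -/
def Kind.IsCarrier (k : Kind) (M : Set P2) : Prop :=
  match k with
  | .elliptic => M = Set.univ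
  | .parabolic => M = Set.range aff
  | .hyperbolic => ∃ D : Set (ℝ × ℝ), IsOpen D ∧ Convex ℝ D ∧ D.Nonempty ∧ D ≠ Set.univ ∧
      M = aff '' D

/-- Geodesic lines of the metric space `M`: isometric images of the circle of length `π`
(elliptic type) or of the real line (parabolic and hyperbolic types). -/
def IsGeodesicLine (k : Kind) {M : Set P2} [MetricSpace M] (L : Set M) : Prop :=
  match k with
  | .elliptic => ∃ g : AddCircle Real.pi → M, Isometry g ∧ Set.range g = L
  | .parabolic => ∃ g : ℝ → M, Isometry g ∧ Set.range g = L
  | .hyperbolic => ∃ g : ℝ → M, Isometry g ∧ Set.range g = L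

/-- Three points of `M` are collinear if a projective line contains them. -/
def Coll {M : Set P2} (X Y Z : M) : Prop :=
  ∃ l : Set P2, IsLine l ∧ X.1 ∈ l ∧ Y.1 ∈ l ∧ Z.1 ∈ l

/-- The admissible radii of circles: `0 < r < ι`, where `ι = π/2` in elliptic type and `ι = ∞` in the
other two types. -/
def Kind.IsRadius (k : Kind) (r : ℝ) : Prop :=
  match k with
  | .elliptic => 0 < r ∧ r < Real.pi / 2
  | .parabolic => 0 < r
  | .hyperbolic => 0 < r

/-- A projective-metric plane of the given type: the metric of `M` is complete and continuous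
(in homogeneous coordinates, that is, for the standard topology), its geodesic lines are exactly the
nonempty intersections of `M` with projective lines, and all circles are strictly convex, in the weak
sense that no three distinct points of a circle are collinear. -/
structure IsProjectiveMetricPlane (k : Kind) (M : Set P2) [MetricSpace M] : Prop where
  carrier : k.IsCarrier M
  complete : CompleteSpace M
  continuous_dist : Continuous fun p :
      {v : {v : V3 // v ≠ 0} // Projectivization.mk' ℝ v ∈ M} ×
      {v : {v : V3 // v ≠ 0} // Projectivization.mk' ℝ v ∈ M} =>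
    dist (⟨Projectivization.mk' ℝ p.1.1, p.1.2⟩ : M) ⟨Projectivization.mk' ℝ p.2.1, p.2.2⟩
  geodesic_iff : ∀ L : Set M,
    IsGeodesicLine k L ↔ L.Nonempty ∧ ∃ l : Set P2, IsLine l ∧ L = {X : M | X.1 ∈ l}
  strictly_convex_circles : ∀ (O X Y Z : M) (r : ℝ), k.IsRadius r →
    dist O X = r → dist O Y = r → dist O Z = r → X ≠ Y → Y ≠ Z → X ≠ Z → ¬ Coll X Y Z

/-- The size function: `sin`, the identity, or `sinh`. -/
noncomputable def Kind.size (k : Kind) (r : ℝ) : ℝ :=
  match k with
  | .elliptic => Real.sin r
  | .parabolic => r
  | .hyperbolic => Real.sinh r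

/-- The radii for which the circle identity is required.  In elliptic type we only ask for
`0 < r < π/4` (for `r > π/4` the identity, read literally, fails even in the elliptic plane, as the
diameter `A B` of the circle would have length `2 r > π/2`). -/
def Kind.IsIdentityRadius (k : Kind) (r : ℝ) : Prop :=
  match k with
  | .elliptic => 0 < r ∧ r < Real.pi / 4
  | .parabolic => 0 < r
  | .hyperbolic => 0 < r

/-- The circle identity `σ²(x/2) + σ²(y/2) = σ²(r)` for every circle: `O` is the centre, `A`, `B`
are the two intersection points of the circle of radius `r` with a line through `O`, and `P` is a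
point of the circle off the line `A B`. -/
def SatisfiesCircleIdentity (k : Kind) (M : Set P2) [MetricSpace M] : Prop :=
  ∀ (O A B P : M) (r : ℝ), k.IsIdentityRadius r → dist O A = r → dist O B = r → dist O P = r →
    A ≠ B → Coll O A B → ¬ Coll A B P →
    k.size (dist A P / 2) ^ 2 + k.size (dist B P / 2) ^ 2 = k.size r ^ 2

/-- The underlying set of the standard model of the classical geometry of the given type, in
homogeneous coordinates. -/
def Kind.modelCarrier (k : Kind) (v : V3) : Prop :=
  match k with
  | .elliptic => v ≠ 0
  | .parabolic => v 2 ≠ 0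
  | .hyperbolic => v 0 ^ 2 + v 1 ^ 2 < v 2 ^ 2

/-- The distance function of the standard model, in homogeneous coordinates: the metric of
curvature `1` of the elliptic plane, the Euclidean metric in the affine coordinates
`(v₀/v₂, v₁/v₂)`, and the metric of curvature `-1` of the Beltrami-Cayley-Klein disc. -/
noncomputable def Kind.modelDist (k : Kind) (u v : V3) : ℝ :=
  match k with
  | .elliptic =>
      Real.arccos (|u 0 * v 0 + u 1 * v 1 + u 2 * v 2| /
        (Real.sqrt (u 0 ^ 2 + u 1 ^ 2 + u 2 ^ 2) * Real.sqrt (v 0 ^ 2 + v 1 ^ 2 + v 2 ^ 2)))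
  | .parabolic =>
      Real.sqrt ((u 0 / u 2 - v 0 / v 2) ^ 2 + (u 1 / u 2 - v 1 / v 2) ^ 2)
  | .hyperbolic =>
      Real.arcosh (|u 2 * v 2 - u 0 * v 0 - u 1 * v 1| /
        (Real.sqrt (u 2 ^ 2 - u 0 ^ 2 - u 1 ^ 2) * Real.sqrt (v 2 ^ 2 - v 0 ^ 2 - v 1 ^ 2)))

/-- `M` is a model of the classical geometry of the given type: some invertible linear map of `ℝ³`
(that is, some projective map) carries `M` onto the standard model, isometrically. -/
def IsClassicalModel (k : Kind) (M : Set P2) [MetricSpace M] : Prop :=
  ∃ F : V3 ≃ₗ[ℝ] V3,
    (∀ (v : V3) (hv : v ≠ 0), Projectivization.mk ℝ v hv ∈ M ↔ k.modelCarrier (F v)) ∧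
    ∀ (u v : V3) (hu : u ≠ 0) (hv : v ≠ 0) (hu' : Projectivization.mk ℝ u hu ∈ M)
      (hv' : Projectivization.mk ℝ v hv ∈ M),
      dist (⟨Projectivization.mk ℝ u hu, hu'⟩ : M) ⟨Projectivization.mk ℝ v hv, hv'⟩ =
        k.modelDist (F u) (F v)

end Pool.Agent.ProjMetric
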