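import Mathlib
import Pool.Agent.ProjMetric93.Defs

open Set

namespace Pool.Agent.ProjMetric

/-! ### Vector algebra in `ℝ³` -/

/-- dot product -/
def dt (u v : V3) : ℝ := u 0 * v 0 + u 1 * v 1 + u 2 * v 2

/-- cross product -/
def cr (u v : V3) : V3 :=
  ![u 1 * v 2 - u 2 * v 1, u 2 * v 0 - u 0 * v 2, u 0 * v 1 - u 1 * v 0]

/-- determinant of three vectors -/
def det3 (u v w : V3) : ℝ := dt u (cr v w)

@[simp] lemma cr_apply0 (u v : V3) : cr u v 0 = u 1 * v 2 - u 2 * v 1 := rfl
@[simp] lemma cr_apply1 (u v : V3) : cr u v 1 = u 2 * v 0 - u 0 * v 2 := rfl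
@[simp] lemma cr_apply2 (u v : V3) : cr u v 2 = u 0 * v 1 - u 1 * v 0 := rfl

lemma det3_def (u v w : V3) : det3 u v w =
    u 0 * (v 1 * w 2 - v 2 * w 1) + u 1 * (v 2 * w 0 - v 0 * w 2) + u 2 * (v 0 * w 1 - v 1 * w 0) :=
  rfl

lemma dt_def (u v : V3) : dt u v = u 0 * v 0 + u 1 * v 1 + u 2 * v 2 := rfl

lemma v3_ext {u v : V3} (h0 : u 0 = v 0) (h1 : u 1 = v 1) (h2 : u 2 = v 2) : u = v := by
  funext i; fin_cases i <;> assumption

lemma v3_eq_zero {u : V3} : u = 0 ↔ u 0 = 0 ∧ u 1 = 0 ∧ u 2 = 0 := by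
  constructor
  · rintro rfl; simp
  · rintro ⟨a, b, c⟩; exact v3_ext a b c

lemma dt_self_eq_zero {u : V3} : dt u u = 0 ↔ u = 0 := by
  rw [v3_eq_zero, dt_def]
  constructor
  · intro h
    refine ⟨?_, ?_, ?_⟩ <;> nlinarith [sq_nonneg (u 0), sq_nonneg (u 1), sq_nonneg (u 2)]
  · rintro ⟨a, b, c⟩; simp [a, b, c]

lemma dt_self_pos {u : V3} (h : u ≠ 0) : 0 < dt u u := by
  have h1 : dt u u ≠ 0 := fun hc => h (dt_self_eq_zero.1 hc)
  have h2 : 0 ≤ dt u u := by rw [dt_def]; nlinarith [sq_nonneg (u 0), sq_nonneg (u 1), sq_nonneg (u 2)]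
  exact lt_of_le_of_ne h2 h1.symm

lemma dt_comm (u v : V3) : dt u v = dt v u := by simp only [dt_def]; ring

/-- parallel vectors -/
lemma cr_eq_zero {u v : V3} (hu : u ≠ 0) (h : cr u v = 0) : ∃ c : ℝ, v = c • u := by
  have hp := dt_self_pos hu
  have h0 := congrFun h 0
  have h1 := congrFun h 1
  have h2 := congrFun h 2
  simp only [cr_apply0, cr_apply1, cr_apply2, Pi.zero_apply] at h0 h1 h2
  refine ⟨dt u v / dt u u, ?_⟩
  apply v3_ext <;> simp only [Pi.smul_apply, smul_eq_mul] <;> rw [div_mul_eq_mul_div, eq_div_iff hp.ne']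
    <;> simp only [dt_def]
  · linear_combination (u 1) * h2 * (-1) + (u 2) * h1
  · linear_combination (u 0) * h2 + (u 2) * h0 * (-1)
  · linear_combination (u 0) * h1 * (-1) + (u 1) * h0

lemma cr_smul_self (u : V3) (c : ℝ) : cr u (c • u) = 0 := by
  apply v3_ext <;> simp <;> ring

/-- a vector in the plane spanned by two independent vectors -/
lemma mem_plane {u v w : V3} (h : cr u v ≠ 0) (hw : det3 u v w = 0) :
    ∃ a b : ℝ, w = a • u + b • v := by
  set n := cr u v with hn
  have hp := dt_self_pos h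
  refine ⟨dt (cr w v) n / dt n n, dt (cr u w) n / dt n n, ?_⟩
  have hwn : dt w n = 0 := by
    rw [← hw]; simp only [hn, dt_def, det3_def, cr_apply0, cr_apply1, cr_apply2]; ring
  apply v3_ext <;> simp only [Pi.add_apply, Pi.smul_apply, smul_eq_mul] <;>
    rw [div_mul_eq_mul_div, div_mul_eq_mul_div, ← add_div, eq_div_iff hp.ne']
  · have e : w 0 * dt n n = dt (cr w v) n * u 0 + dt (cr u w) n * v 0 + dt w n * n 0 := by
      simp only [hn, dt_def, cr_apply0, cr_apply1, cr_apply2]; ring
    rw [e, hwn]; ring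
  · have e : w 1 * dt n n = dt (cr w v) n * u 1 + dt (cr u w) n * v 1 + dt w n * n 1 := by
      simp only [hn, dt_def, cr_apply0, cr_apply1, cr_apply2]; ring
    rw [e, hwn]; ring
  · have e : w 2 * dt n n = dt (cr w v) n * u 2 + dt (cr u w) n * v 2 + dt w n * n 2 := by
      simp only [hn, dt_def, cr_apply0, cr_apply1, cr_apply2]; ring
    rw [e, hwn]; ring

/-- The linear equivalence attached to a triple of independent vectors. -/
noncomputable def linOf (a b c : V3) (h : det3 a b c ≠ 0) : V3 ≃ₗ[ℝ] V3 where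
  toFun x := x 0 • a + x 1 • b + x 2 • c
  map_add' x y := by
    apply v3_ext <;> simp <;> ring
  map_smul' r x := by
    apply v3_ext <;> simp <;> ring
  invFun y := ![det3 y b c / det3 a b c, det3 a y c / det3 a b c, det3 a b y / det3 a b c]
  left_inv x := by
    apply v3_ext
    · simp only [Matrix.cons_val_zero]
      rw [div_eq_iff h]
      simp only [det3_def, Pi.add_apply, Pi.smul_apply, smul_eq_mul]; ring
    · simp only [Matrix.cons_val]
      rw [div_eq_iff h]
      simp only [det3_def, Pi.add_apply, Pi.smul_apply, smul_eq_mul]; ring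
    · simp only [Matrix.cons_val]
      rw [div_eq_iff h]
      simp only [det3_def, Pi.add_apply, Pi.smul_apply, smul_eq_mul]; ring
  right_inv y := by
    apply v3_ext <;>
      simp only [Pi.add_apply, Pi.smul_apply, smul_eq_mul, Matrix.cons_val_zero, Matrix.cons_val_one,
        Matrix.cons_val] <;>
      rw [div_mul_eq_mul_div, div_mul_eq_mul_div, div_mul_eq_mul_div, ← add_div, ← add_div,
        div_eq_iff h] <;>
      simp only [det3_def] <;> ring

lemma linOf_apply (a b c : V3) (h : det3 a b c ≠ 0) (x : V3) :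
    linOf a b c h x = x 0 • a + x 1 • b + x 2 • c := rfl

lemma det3_linOf (a b c : V3) (h : det3 a b c ≠ 0) (x y z : V3) :
    det3 (linOf a b c h x) (linOf a b c h y) (linOf a b c h z) = det3 a b c * det3 x y z := by
  simp only [linOf_apply, det3_def, Pi.add_apply, Pi.smul_apply, smul_eq_mul]; ring

lemma det3_linOf_symm (a b c : V3) (h : det3 a b c ≠ 0) (x y z : V3) :
    det3 a b c * det3 ((linOf a b c h).symm x) ((linOf a b c h).symm y) ((linOf a b c h).symm z) =
      det3 x y z := by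
  rw [← det3_linOf a b c h]
  simp

/-- additive and multiplicative functions on the positive reals -/
lemma add_mul_id {φ : ℝ → ℝ} (hadd : ∀ r s, 0 < r → 0 < s → φ (r + s) = φ r + φ s)
    (hmul : ∀ r s, 0 < r → 0 < s → φ (r * s) = φ r * φ s) (hne : ∀ r, 0 < r → φ r ≠ 0) :
    ∀ r, 0 < r → φ r = r := by
  have h1 : φ 1 = 1 := by
    have := hmul 1 1 one_pos one_pos
    rw [mul_one] at this
    have h0 := hne 1 one_pos
    field_simp at this
    exact this.symm
  have hpos : ∀ r, 0 < r → 0 < φ r := fun r hr => by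
    have hs : 0 < Real.sqrt r := Real.sqrt_pos.2 hr
    have := hmul _ _ hs hs
    rw [Real.mul_self_sqrt hr.le] at this
    rw [this]
    exact mul_self_pos.2 (hne _ hs)
  have hmono : ∀ r s, 0 < r → r < s → φ r < φ s := fun r s hr hrs => by
    have := hadd r (s - r) hr (by linarith)
    rw [show r + (s - r) = s by ring] at this
    rw [this]
    linarith [hpos (s - r) (by linarith)]
  have hnat : ∀ (n : ℕ), 0 < n → φ n = n := by
    intro n hn
    induction n with
    | zero => omega
    | succ n ih =>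
      rcases Nat.eq_zero_or_pos n with h | h
      · subst h; simpa using h1
      · push_cast
        rw [hadd _ _ (by exact_mod_cast h) one_pos, ih h, h1]
  intro r hr
  -- squeeze
  by_contra hne'
  have habs : 0 < |φ r - r| := abs_pos.2 (sub_ne_zero.2 hne')
  obtain ⟨n, hn⟩ := exists_nat_gt (max (1 / r) (1 / |φ r - r|))
  have hn1 : 1 / r < n := (le_max_left _ _).trans_lt hn
  have hn2 : 1 / |φ r - r| < n := (le_max_right _ _).trans_lt hn
  have hn0 : (0 : ℝ) < n := lt_trans (by positivity) hn1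
  have hn0' : 0 < n := by exact_mod_cast hn0
  rw [div_lt_iff₀ hr] at hn1
  rw [div_lt_iff₀ habs] at hn2
  set m := ⌊(n : ℝ) * r⌋₊ with hm
  have hnr : 0 < (n : ℝ) * r := by positivity
  have hm1 : (m : ℝ) ≤ n * r := Nat.floor_le hnr.le
  have hm2 : (n : ℝ) * r < m + 1 := Nat.lt_floor_add_one _
  have hm0 : 0 < m := Nat.floor_pos.2 hn1.le
  have hm0' : (0 : ℝ) < m := by exact_mod_cast hm0
  have e1 : φ (n * r) = n * φ r := by rw [hmul _ _ hn0 hr, hnat n hn0']
  have e2 : (m : ℝ) ≤ n * φ r := by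
    rw [← e1]
    rcases hm1.lt_or_eq with h | h
    · have := hmono _ _ hm0' h
      rw [hnat m hm0] at this
      exact this.le
    · rw [← h, hnat m hm0]
  have e3 : n * φ r ≤ m + 1 := by
    rw [← e1]
    have := hmono _ _ hnr hm2
    have e := hnat (m + 1) (by omega)
    push_cast at e
    rw [e] at this
    exact this.le
  have : |(n : ℝ) * φ r - n * r| ≤ 1 := by
    rw [abs_le]; constructor <;> linarith
  rw [← mul_sub, abs_mul, abs_of_pos hn0] at this
  linarith

/-- basis vectors -/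
def E1 : V3 := ![1, 0, 0]
def E2 : V3 := ![0, 1, 0]
def E3 : V3 := ![0, 0, 1]

/-- cone-like sets -/
structure Cone (K : Set V3) : Prop where
  zero : (0 : V3) ∉ K
  smul : ∀ c : ℝ, 0 < c → ∀ u ∈ K, c • u ∈ K
  add : ∀ u ∈ K, ∀ v ∈ K, cr u v ≠ 0 → u + v ∈ K

/-- Coordinate version of the fundamental theorem. -/
lemma FT0 {K : Set V3} (hK : Cone K) (h1 : E1 ∈ K) (h2 : E2 ∈ K) (h3 : E3 ∈ K) {T : V3 → V3}
    (H : ∀ u ∈ K, ∀ v ∈ K, ∀ w ∈ K, det3 u v w = 0 ↔ det3 (T u) (T v) (T w) = 0)
    {a1 a2 a3 a4 : ℝ} (ha1 : a1 ≠ 0) (ha2 : a2 ≠ 0) (ha3 : a3 ≠ 0) (ha4 : a4 ≠ 0)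
    (t1 : T E1 = a1 • E1) (t2 : T E2 = a2 • E2) (t3 : T E3 = a3 • E3)
    (t4 : T ![1, 1, 1] = a4 • ![1, 1, 1]) :
    ∀ x ∈ K, ∃ c : ℝ, c ≠ 0 ∧ T x = c • x := by
  -- the coordinate faces and the open octant lie in `K`
  have k12 : ∀ r s : ℝ, 0 < r → 0 < s → (![r, s, 0] : V3) ∈ K := fun r s hr hs => by
    have := hK.add _ (hK.smul r hr _ h1) _ (hK.smul s hs _ h2) (by
      intro h
      have := congrFun h 2
      simp [E1, E2] at this
      rcases this with h | h <;> linarith)
    convert this using 1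
    apply v3_ext <;> simp [E1, E2]
  have k13 : ∀ r s : ℝ, 0 < r → 0 < s → (![r, 0, s] : V3) ∈ K := fun r s hr hs => by
    have := hK.add _ (hK.smul r hr _ h1) _ (hK.smul s hs _ h3) (by
      intro h
      have := congrFun h 1
      simp [E1, E3] at this
      rcases this with h | h <;> linarith)
    convert this using 1
    apply v3_ext <;> simp [E1, E3]
  have k123 : ∀ r s t : ℝ, 0 < r → 0 < s → 0 < t → (![r, s, t] : V3) ∈ K := fun r s t hr hs ht => by
    have := hK.add _ (k12 r s hr hs) _ (hK.smul t ht _ h3) (by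
      intro h
      have := congrFun h 0
      simp [E3] at this
      rcases this with h | h <;> linarith)
    convert this using 1
    apply v3_ext <;> simp [E3]
  -- relations
  have R12 : ∀ x ∈ K, ∀ y ∈ K, x 0 * y 1 = x 1 * y 0 → T x 0 * T y 1 = T x 1 * T y 0 := by
    intro x hx y hy hxy
    have := (H x hx y hy E3 h3).1 (by simp only [det3_def, E3]; simp; linarith)
    rw [t3] at this
    simp only [det3_def, E3, Pi.smul_apply, smul_eq_mul] at this
    simp at this
    have h' : a3 * (T x 0 * T y 1 - T x 1 * T y 0) = 0 := by linear_combination this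
    rcases mul_eq_zero.1 h' with h | h
    · exact absurd h ha3
    · linarith
  have R13 : ∀ x ∈ K, ∀ y ∈ K, x 0 * y 2 = x 2 * y 0 → T x 0 * T y 2 = T x 2 * T y 0 := by
    intro x hx y hy hxy
    have := (H x hx y hy E2 h2).1 (by simp only [det3_def, E2]; simp; linarith)
    rw [t2] at this
    simp only [det3_def, E2, Pi.smul_apply, smul_eq_mul] at this
    simp at this
    have h' : a2 * (T x 0 * T y 2 - T x 2 * T y 0) = 0 := by linear_combination -this
    rcases mul_eq_zero.1 h' with h | h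
    · exact absurd h ha2
    · linarith
  have R23 : ∀ x ∈ K, ∀ y ∈ K, x 1 * y 2 = x 2 * y 1 → T x 1 * T y 2 = T x 2 * T y 1 := by
    intro x hx y hy hxy
    have := (H x hx y hy E1 h1).1 (by simp only [det3_def, E1]; simp; linarith)
    rw [t1] at this
    simp only [det3_def, E1, Pi.smul_apply, smul_eq_mul] at this
    simp at this
    have h' : a1 * (T x 1 * T y 2 - T x 2 * T y 1) = 0 := by linear_combination this
    rcases mul_eq_zero.1 h' with h | h
    · exact absurd h ha1
    · linarith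
  -- nonvanishing of coordinates
  have N0 : ∀ x ∈ K, x 0 ≠ 0 → T x 0 ≠ 0 := by
    intro x hx hx0 h
    apply hx0
    have := (H x hx E2 h2 E3 h3).2 (by
      rw [t2, t3]; simp only [det3_def, E2, E3, Pi.smul_apply, smul_eq_mul]; simp [h])
    simpa [det3_def, E2, E3] using this
  have N1 : ∀ x ∈ K, x 1 ≠ 0 → T x 1 ≠ 0 := by
    intro x hx hx0 h
    apply hx0
    have := (H x hx E1 h1 E3 h3).2 (by
      rw [t1, t3]; simp only [det3_def, E1, E3, Pi.smul_apply, smul_eq_mul]; simp [h])
    simpa [det3_def, E1, E3] using this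
  have N2 : ∀ x ∈ K, x 2 ≠ 0 → T x 2 ≠ 0 := by
    intro x hx hx0 h
    apply hx0
    have := (H x hx E1 h1 E2 h2).2 (by
      rw [t1, t2]; simp only [det3_def, E1, E2, Pi.smul_apply, smul_eq_mul]; simp [h])
    simpa [det3_def, E1, E2] using this
  have Z1 : ∀ x ∈ K, x 1 = 0 → T x 1 = 0 := by
    intro x hx hx0
    have := (H x hx E1 h1 E3 h3).1 (by simp [det3_def, E1, E3, hx0])
    rw [t1, t3] at this
    simp only [det3_def, E1, E3, Pi.smul_apply, smul_eq_mul] at this
    simp at this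
    tauto
  have Z2 : ∀ x ∈ K, x 2 = 0 → T x 2 = 0 := by
    intro x hx hx0
    have := (H x hx E1 h1 E2 h2).1 (by simp [det3_def, E1, E2, hx0])
    rw [t1, t2] at this
    simp only [det3_def, E1, E2, Pi.smul_apply, smul_eq_mul] at this
    simp at this
    tauto
  have k1 : (![1, 1, 1] : V3) ∈ K := k123 1 1 1 one_pos one_pos one_pos
  -- the function φ
  set Y : ℝ → V3 := fun r => ![r, 1, 1] with hY
  have hYK : ∀ r, 0 < r → Y r ∈ K := fun r hr => k123 r 1 1 hr one_pos one_pos
  have hY12 : ∀ r, 0 < r → T (Y r) 1 = T (Y r) 2 := fun r hr => by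
    have := R23 (Y r) (hYK r hr) _ k1 (by simp [hY])
    rw [t4] at this
    simp at this
    rcases this with h | h
    · exact h
    · exact absurd h ha4
  set φ : ℝ → ℝ := fun r => T (Y r) 0 / T (Y r) 1 with hφ
  have hY1 : ∀ r, 0 < r → T (Y r) 1 ≠ 0 := fun r hr => N1 _ (hYK r hr) (by simp [hY])
  have hY0 : ∀ r, 0 < r → T (Y r) 0 ≠ 0 := fun r hr => N0 _ (hYK r hr) (by simp [hY]; exact hr.ne')
  have hφe : ∀ r, 0 < r → T (Y r) 0 = φ r * T (Y r) 1 := fun r hr => by
    simp only [hφ]; field_simp [hY1 r hr]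
  have P12 : ∀ x ∈ K, ∀ r, 0 < r → x 0 = r * x 1 → T x 0 = φ r * T x 1 := fun x hx r hr hxr => by
    have := R12 x hx (Y r) (hYK r hr) (by simp [hY]; linarith)
    rw [hφe r hr] at this
    have h1 := hY1 r hr
    have h2 : T (Y r) 1 * (T x 0 - φ r * T x 1) = 0 := by linear_combination this
    rcases mul_eq_zero.1 h2 with h | h
    · exact absurd h h1
    · linarith
  have P13 : ∀ x ∈ K, ∀ r, 0 < r → x 0 = r * x 2 → T x 0 = φ r * T x 2 := fun x hx r hr hxr => by
    have := R13 x hx (Y r) (hYK r hr) (by simp [hY]; linarith)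
    rw [hφe r hr, ← hY12 r hr] at this
    have h1 := hY1 r hr
    have h2 : T (Y r) 1 * (T x 0 - φ r * T x 2) = 0 := by linear_combination this
    rcases mul_eq_zero.1 h2 with h | h
    · exact absurd h h1
    · linarith
  have hφ1 : φ 1 = 1 := by
    have := P12 _ k1 1 one_pos (by simp)
    rw [t4] at this
    simp at this
    have h : a4 * (φ 1 - 1) = 0 := by linarith
    rcases mul_eq_zero.1 h with h | h
    · exact absurd h ha4
    · linarith
  have P23 : ∀ x ∈ K, ∀ r, 0 < r → x 1 = r * x 2 → T x 1 = φ r * T x 2 := fun x hx r hr hxr => by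
    have hy : (![r, r, 1] : V3) ∈ K := k123 r r 1 hr hr one_pos
    have e1 := P12 _ hy 1 one_pos (by simp)
    have e2 := P13 _ hy r hr (by simp)
    rw [hφ1, one_mul] at e1
    have e3 := R23 x hx _ hy (by simp; linarith)
    have e4 := N2 _ hy (by simp)
    rw [← e1, e2] at e3
    have h2 : T ![r, r, 1] 2 * (T x 1 - φ r * T x 2) = 0 := by linear_combination e3
    rcases mul_eq_zero.1 h2 with h | h
    · exact absurd h e4
    · linarith
  have hφne : ∀ r, 0 < r → φ r ≠ 0 := fun r hr => div_ne_zero (hY0 r hr) (hY1 r hr)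
  have hφmul : ∀ r s, 0 < r → 0 < s → φ (r * s) = φ r * φ s := fun r s hr hs => by
    have hx : (![r * s, s, 1] : V3) ∈ K := k123 _ _ _ (by positivity) hs one_pos
    have e1 := P12 _ hx r hr (by simp)
    have e2 := P13 _ hx (r * s) (by positivity) (by simp)
    have e3 := P23 _ hx s hs (by simp)
    have e4 := N2 _ hx (by simp)
    rw [e3, e2] at e1
    have h : T ![r * s, s, 1] 2 * (φ (r * s) - φ r * φ s) = 0 := by linear_combination e1
    rcases mul_eq_zero.1 h with h | h
    · exact absurd h e4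
    · linarith
  have hφadd : ∀ r s, 0 < r → 0 < s → φ (r + s) = φ r + φ s := fun r s hr hs => by
    have hx : Y (r + s) ∈ K := hYK _ (by positivity)
    have hu : (![r, 0, 1] : V3) ∈ K := k13 r 1 hr one_pos
    have hv : (![s, 1, 0] : V3) ∈ K := k12 s 1 hs one_pos
    have e0 := (H _ hx _ hu _ hv).1 (by simp [det3_def, hY])
    have u1 := Z1 _ hu (by simp)
    have u0 := P13 _ hu r hr (by simp)
    have u2 := N2 _ hu (by simp)
    have v2 := Z2 _ hv (by simp)
    have v0 := P12 _ hv s hs (by simp)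
    have v1 := N1 _ hv (by simp)
    have x0 := hφe (r + s) (by positivity)
    have x1 := hY12 (r + s) (by positivity)
    have x1' := hY1 (r + s) (by positivity)
    rw [det3_def, u1, u0, v2, v0, ← x1, x0] at e0
    have h : T (Y (r + s)) 1 * T ![r, 0, 1] 2 * T ![s, 1, 0] 1 * (φ (r + s) - (φ r + φ s)) = 0 := by
      linear_combination -e0
    rcases mul_eq_zero.1 h with h | h
    · exact absurd h (mul_ne_zero (mul_ne_zero x1' u2) v1)
    · linarith
  have hφid := add_mul_id hφadd hφmul hφne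
  -- open octant
  have oct : ∀ x : V3, 0 < x 0 → 0 < x 1 → 0 < x 2 → ∃ c : ℝ, c ≠ 0 ∧ T x = c • x := by
    intro x x0 x1 x2
    have hx : x ∈ K := by
      have := k123 (x 0) (x 1) (x 2) x0 x1 x2
      convert this using 1
      apply v3_ext <;> simp
    have e1 := P12 x hx (x 0 / x 1) (by positivity) (by field_simp)
    have e2 := P23 x hx (x 1 / x 2) (by positivity) (by field_simp)
    rw [hφid _ (by positivity)] at e1 e2
    refine ⟨T x 2 / x 2, div_ne_zero (N2 x hx x2.ne') x2.ne', ?_⟩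
    apply v3_ext <;> simp only [Pi.smul_apply, smul_eq_mul]
    · rw [e1, e2]; field_simp
    · rw [e2]; field_simp
    · field_simp
  -- general points
  intro x hx
  set N := |x 0| + |x 1| + |x 2| + 1 with hN
  have hN0 : 0 < N := by positivity
  have b0 : |x 0| < N := by rw [hN]; nlinarith [abs_nonneg (x 1), abs_nonneg (x 2)]
  have b1 : |x 1| < N := by rw [hN]; nlinarith [abs_nonneg (x 0), abs_nonneg (x 2)]
  have b2 : |x 2| < N := by rw [hN]; nlinarith [abs_nonneg (x 0), abs_nonneg (x 1)]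
  have key : ∀ p : V3, 1 ≤ p 0 → 1 ≤ p 1 → 1 ≤ p 2 → dt p (cr x (T x)) = 0 := by
    intro p p0 p1 p2
    have q0 : 0 < (p + N⁻¹ • x) 0 := by
      have : N⁻¹ * |x 0| < 1 := by rw [inv_mul_lt_iff₀ hN0]; linarith
      have h2 : -(N⁻¹ * |x 0|) ≤ N⁻¹ * x 0 := by
        have := neg_abs_le (x 0)
        have h3 : 0 < N⁻¹ := by positivity
        nlinarith
      simp only [Pi.add_apply, Pi.smul_apply, smul_eq_mul]
      linarith
    have q1 : 0 < (p + N⁻¹ • x) 1 := by
      have : N⁻¹ * |x 1| < 1 := by rw [inv_mul_lt_iff₀ hN0]; linarith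
      have h2 : -(N⁻¹ * |x 1|) ≤ N⁻¹ * x 1 := by
        have := neg_abs_le (x 1)
        have h3 : 0 < N⁻¹ := by positivity
        nlinarith
      simp only [Pi.add_apply, Pi.smul_apply, smul_eq_mul]
      linarith
    have q2 : 0 < (p + N⁻¹ • x) 2 := by
      have : N⁻¹ * |x 2| < 1 := by rw [inv_mul_lt_iff₀ hN0]; linarith
      have h2 : -(N⁻¹ * |x 2|) ≤ N⁻¹ * x 2 := by
        have := neg_abs_le (x 2)
        have h3 : 0 < N⁻¹ := by positivity
        nlinarith
      simp only [Pi.add_apply, Pi.smul_apply, smul_eq_mul]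
      linarith
    obtain ⟨c, hc, hTp⟩ := oct p (by linarith) (by linarith) (by linarith)
    obtain ⟨d, hd, hTq⟩ := oct _ q0 q1 q2
    have hpK : p ∈ K := by
      have := k123 (p 0) (p 1) (p 2) (by linarith) (by linarith) (by linarith)
      convert this using 1
      apply v3_ext <;> simp
    have hqK : p + N⁻¹ • x ∈ K := by
      have := k123 _ _ _ q0 q1 q2
      convert this using 1
      apply v3_ext <;> simp
    have := (H p hpK _ hqK x hx).1 (by
      simp only [det3_def, Pi.add_apply, Pi.smul_apply, smul_eq_mul]; ring)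
    rw [hTp, hTq] at this
    have e : c * d * N⁻¹ * dt p (cr x (T x)) = 0 := by
      rw [← this]
      simp only [det3_def, dt_def, Pi.add_apply, Pi.smul_apply, smul_eq_mul, cr_apply0, cr_apply1,
        cr_apply2]
      ring
    have h0 : c * d * N⁻¹ ≠ 0 := mul_ne_zero (mul_ne_zero hc hd) (inv_ne_zero hN0.ne')
    exact (mul_eq_zero.1 e).resolve_left h0
  have w1 := key ![1, 1, 1] (by simp) (by simp) (by simp)
  have w2 := key ![2, 1, 1] (by simp) (by simp) (by simp)
  have w3 := key ![1, 2, 1] (by simp) (by simp) (by simp)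
  set w := cr x (T x) with hw
  simp only [dt_def] at w1 w2 w3
  simp at w1 w2 w3
  have hw0 : w = 0 := by
    rw [v3_eq_zero]
    refine ⟨?_, ?_, ?_⟩ <;> linarith
  have hx0 : x ≠ 0 := by
    rintro rfl
    exact hK.zero hx
  obtain ⟨c, hc⟩ := cr_eq_zero hx0 hw0
  refine ⟨c, ?_, hc⟩
  rintro rfl
  rw [zero_smul] at hc
  -- T x = 0 contradicts nonvanishing
  by_cases hx0' : x 0 = 0
  · by_cases hx1' : x 1 = 0
    · have hx2' : x 2 ≠ 0 := fun h => hx0 (v3_eq_zero.2 ⟨hx0', hx1', h⟩)
      exact N2 x hx hx2' (by rw [hc]; rfl)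
    · exact N1 x hx hx1' (by rw [hc]; rfl)
  · exact N0 x hx hx0' (by rw [hc]; rfl)

end Pool.Agent.ProjMetric
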