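import Mathlib
import Pool.Agent.ProjMetric93.FT

open Set

namespace Pool.Agent.ProjMetric

lemma det3_self_left (u v : V3) : det3 u u v = 0 := by simp only [det3_def]; ring

lemma det3_smul (r s t : ℝ) (u v w : V3) :
    det3 (r • u) (s • v) (t • w) = r * s * t * det3 u v w := by
  simp only [det3_def, Pi.smul_apply, smul_eq_mul]; ring

lemma cr_ne_of_det3 {u v w : V3} (h : det3 u v w ≠ 0) : cr u v ≠ 0 := by
  intro hc
  apply h
  have h0 := congrFun hc 0
  have h1 := congrFun hc 1
  have h2 := congrFun hc 2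
  simp only [cr_apply0, cr_apply1, cr_apply2, Pi.zero_apply] at h0 h1 h2
  simp only [det3_def]
  linear_combination (w 0) * h0 + (w 1) * h1 + (w 2) * h2

lemma det3_swap (u v w : V3) : det3 v u w = -det3 u v w := by simp only [det3_def]; ring

lemma det3_rot (u v w : V3) : det3 v w u = det3 u v w := by simp only [det3_def]; ring

/-- a linear equivalence preserves parallelism -/
lemma cr_map_ne (P : V3 ≃ₗ[ℝ] V3) {u v : V3} (h : cr u v ≠ 0) : cr (P u) (P v) ≠ 0 := by
  intro hc
  by_cases hu : u = 0
  · subst hu; apply h; apply v3_ext <;> simp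
  · have hPu : P u ≠ 0 := fun h0 => hu (P.map_eq_zero_iff.1 h0)
    obtain ⟨c, hcv⟩ := cr_eq_zero hPu hc
    rw [← map_smul] at hcv
    have := P.injective hcv
    rw [this] at h
    exact h (cr_smul_self u c)

/-- The fundamental theorem of projective geometry for cone-like subsets of `ℝ³`. -/
theorem FT {K : Set V3} (hK : Cone K) {a b c : V3} (ha : a ∈ K) (hb : b ∈ K) (hc : c ∈ K)
    (habc : det3 a b c ≠ 0) {T : V3 → V3}
    (H : ∀ u ∈ K, ∀ v ∈ K, ∀ w ∈ K, det3 u v w = 0 ↔ det3 (T u) (T v) (T w) = 0) :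
    ∃ F : V3 ≃ₗ[ℝ] V3, ∀ x ∈ K, ∃ k : ℝ, k ≠ 0 ∧ T x = k • F x := by
  have hab : a + b ∈ K := hK.add a ha b hb (cr_ne_of_det3 habc)
  have hcr : cr (a + b) c ≠ 0 := by
    apply cr_ne_of_det3 (w := a)
    intro h; apply habc
    have : det3 (a + b) c a = det3 a b c := by
      simp only [det3_def, Pi.add_apply]; ring
    rw [← this]; exact h
  have he : a + b + c ∈ K := hK.add _ hab c hc hcr
  set e := a + b + c with hedef
  have hT : det3 (T a) (T b) (T c) ≠ 0 := fun h => habc ((H a ha b hb c hc).2 h)
  set Q := linOf (T a) (T b) (T c) hT with hQ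
  set z := Q.symm (T e) with hz
  have hTe : T e = z 0 • T a + z 1 • T b + z 2 • T c := by
    have : Q z = T e := by simp [hz]
    rw [← this, hQ, linOf_apply]
  have z0 : z 0 ≠ 0 := by
    intro h
    have h1 : det3 (T e) (T b) (T c) = 0 := by
      rw [hTe, h]; simp only [det3_def, Pi.add_apply, Pi.smul_apply, smul_eq_mul]; ring
    have h2 := (H e he b hb c hc).2 h1
    apply habc
    rw [← h2, hedef]; simp only [det3_def, Pi.add_apply]; ring
  have z1 : z 1 ≠ 0 := by
    intro h
    have h1 : det3 (T a) (T e) (T c) = 0 := by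
      rw [hTe, h]; simp only [det3_def, Pi.add_apply, Pi.smul_apply, smul_eq_mul]; ring
    have h2 := (H a ha e he c hc).2 h1
    apply habc
    rw [← h2, hedef]; simp only [det3_def, Pi.add_apply]; ring
  have z2 : z 2 ≠ 0 := by
    intro h
    have h1 : det3 (T a) (T b) (T e) = 0 := by
      rw [hTe, h]; simp only [det3_def, Pi.add_apply, Pi.smul_apply, smul_eq_mul]; ring
    have h2 := (H a ha b hb e he).2 h1
    apply habc
    rw [← h2, hedef]; simp only [det3_def, Pi.add_apply]; ring
  have hL : det3 (z 0 • T a) (z 1 • T b) (z 2 • T c) ≠ 0 := by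
    rw [det3_smul]
    exact mul_ne_zero (mul_ne_zero (mul_ne_zero z0 z1) z2) hT
  set L := linOf _ _ _ hL with hLdef
  set P := linOf a b c habc with hP
  set K' : Set V3 := {x | P x ∈ K} with hK'
  have hcone : Cone K' := by
    refine ⟨?_, ?_, ?_⟩
    · simp only [hK', Set.mem_ofPred_eq, map_zero]; exact hK.zero
    · intro r hr u hu
      simp only [hK', Set.mem_ofPred_eq, map_smul] at hu ⊢
      exact hK.smul r hr _ hu
    · intro u hu v hv huv
      simp only [hK', Set.mem_ofPred_eq, map_add] at hu hv ⊢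
      exact hK.add _ hu _ hv (cr_map_ne P huv)
  have pE1 : P E1 = a := by
    rw [hP, linOf_apply]; simp [E1]
  have pE2 : P E2 = b := by
    rw [hP, linOf_apply]; simp [E2]
  have pE3 : P E3 = c := by
    rw [hP, linOf_apply]; simp [E3]
  have pE : P ![1, 1, 1] = e := by
    rw [hP, linOf_apply]; simp [hedef]
  have lE1 : L E1 = z 0 • T a := by
    rw [hLdef, linOf_apply]; simp [E1]
  have lE2 : L E2 = z 1 • T b := by
    rw [hLdef, linOf_apply]; simp [E2]
  have lE3 : L E3 = z 2 • T c := by
    rw [hLdef, linOf_apply]; simp [E3]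
  have lE : L ![1, 1, 1] = T e := by
    rw [hLdef, linOf_apply, hTe]; simp
  have key := FT0 hcone (T := fun x => L.symm (T (P x)))
    (by simp only [hK', Set.mem_ofPred_eq, pE1]; exact ha)
    (by simp only [hK', Set.mem_ofPred_eq, pE2]; exact hb)
    (by simp only [hK', Set.mem_ofPred_eq, pE3]; exact hc)
    (fun u hu v hv w hw => by
      have h1 := H _ hu _ hv _ hw
      rw [hP, det3_linOf, ← det3_linOf_symm _ _ _ hL (T _), mul_eq_zero, mul_eq_zero] at h1
      constructor
      · intro h; exact (h1.1 (Or.inr h)).resolve_left hL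
      · intro h; exact (h1.2 (Or.inr h)).resolve_left habc)
    (a1 := (z 0)⁻¹) (a2 := (z 1)⁻¹) (a3 := (z 2)⁻¹) (a4 := 1)
    (inv_ne_zero z0) (inv_ne_zero z1) (inv_ne_zero z2) one_ne_zero
    (by simp only [pE1]; rw [LinearEquiv.symm_apply_eq, map_smul, lE1, smul_smul,
          inv_mul_cancel₀ z0, one_smul])
    (by simp only [pE2]; rw [LinearEquiv.symm_apply_eq, map_smul, lE2, smul_smul,
          inv_mul_cancel₀ z1, one_smul])
    (by simp only [pE3]; rw [LinearEquiv.symm_apply_eq, map_smul, lE3, smul_smul,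
          inv_mul_cancel₀ z2, one_smul])
    (by simp only [pE]; rw [LinearEquiv.symm_apply_eq, map_smul, lE, one_smul])
  refine ⟨P.symm.trans L, fun x hx => ?_⟩
  obtain ⟨k, hk, hk'⟩ := key (P.symm x) (by simp only [hK', Set.mem_ofPred_eq]; simpa using hx)
  refine ⟨k, hk, ?_⟩
  simp only [LinearEquiv.apply_symm_apply] at hk'
  rw [LinearEquiv.symm_apply_eq, map_smul] at hk'
  simpa using hk'

/-- A function on a cone with the property that its zero set is a linear set (in the projective
sense) vanishes identically as soon as it vanishes at three independent vectors. -/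
theorem zero_of_three {K : Set V3} (hK : Cone K) {a b c : V3} (ha : a ∈ K) (hb : b ∈ K)
    (hc : c ∈ K) (habc : det3 a b c ≠ 0) {Z : V3 → Prop}
    (hsm : ∀ r : ℝ, 0 < r → ∀ u ∈ K, Z u → Z (r • u))
    (hline : ∀ u ∈ K, ∀ v ∈ K, ∀ w ∈ K, cr u v ≠ 0 → det3 u v w = 0 → Z u → Z v → Z w)
    (za : Z a) (zb : Z b) (zc : Z c) : ∀ x ∈ K, Z x := by
  have hab0 : cr a b ≠ 0 := cr_ne_of_det3 habc
  have hab : a + b ∈ K := hK.add a ha b hb hab0
  have zab : Z (a + b) := hline a ha b hb _ hab hab0 (by
    simp only [det3_def, Pi.add_apply]; ring) za zb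
  -- points of the faces
  have face : ∀ (d : V3), d ∈ K → Z d → det3 a b d = 0 → cr c d ≠ 0 → ∀ p q : ℝ, 0 ≤ p → 0 < q →
      p • d + q • c ∈ K ∧ Z (p • d + q • c) := by
    intro d hd zd _ hcd p q hp hq
    rcases hp.eq_or_lt with h | h
    · rw [← h, zero_smul, zero_add]
      exact ⟨hK.smul q hq c hc, hsm q hq c hc zc⟩
    · have h1 : cr (p • d) (q • c) ≠ 0 := by
        intro h0
        apply hcd
        have e : cr c d = (-(1 / (p * q))) • cr (p • d) (q • c) := by
          apply v3_ext <;> simp only [Pi.smul_apply, smul_eq_mul, cr_apply0, cr_apply1, cr_apply2] <;>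
            field_simp <;> ring
        rw [e, h0, smul_zero]
      have h2 := hK.add _ (hK.smul p h d hd) _ (hK.smul q hq c hc) h1
      refine ⟨h2, hline _ (hK.smul p h d hd) _ (hK.smul q hq c hc) _ h2 h1 ?_
        (hsm p h d hd zd) (hsm q hq c hc zc)⟩
      simp only [det3_def, Pi.add_apply, Pi.smul_apply, smul_eq_mul]; ring
  have hca : cr c a ≠ 0 := by
    apply cr_ne_of_det3 (w := b)
    intro h; apply habc
    have : det3 c a b = det3 a b c := by simp only [det3_def]; ring
    rw [← this]; exact h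
  have hcb : cr c b ≠ 0 := by
    apply cr_ne_of_det3 (w := a)
    intro h; apply habc
    have : det3 c b a = -det3 a b c := by simp only [det3_def]; ring
    have h2 : det3 a b c = -det3 c b a := by rw [this]; ring
    rw [h2, h, neg_zero]
  intro x hx
  set y := (linOf a b c habc).symm x with hy
  have hxy : x = y 0 • a + y 1 • b + y 2 • c := by
    have : linOf a b c habc y = x := by simp [hy]
    rw [← this, linOf_apply]
  rcases lt_trichotomy (y 2) 0 with h | h | h
  · -- negative
    rcases le_total (y 0) (y 1) with h01 | h01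
    · -- z = (y 1 - y 0) a + (-y 2) c
      obtain ⟨hz, zz⟩ := face a ha za (by simp only [det3_def]; ring) hca (y 1 - y 0) (-y 2)
        (by linarith) (by linarith)
      refine hline _ hab _ hz _ hx ?_ ?_ zab zz
      · apply cr_ne_of_det3 (w := b)
        have : det3 (a + b) ((y 1 - y 0) • a + -y 2 • c) b = y 2 * det3 a b c := by
          simp only [det3_def, Pi.add_apply, Pi.smul_apply, smul_eq_mul]; ring
        rw [this]; exact mul_ne_zero h.ne habc
      · rw [hxy]; simp only [det3_def, Pi.add_apply, Pi.smul_apply, smul_eq_mul]; ring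
    · obtain ⟨hz, zz⟩ := face b hb zb (by simp only [det3_def]; ring) hcb (y 0 - y 1) (-y 2)
        (by linarith) (by linarith)
      refine hline _ hab _ hz _ hx ?_ ?_ zab zz
      · apply cr_ne_of_det3 (w := a)
        have : det3 (a + b) ((y 0 - y 1) • b + -y 2 • c) a = -y 2 * det3 a b c := by
          simp only [det3_def, Pi.add_apply, Pi.smul_apply, smul_eq_mul]; ring
        rw [this]; exact mul_ne_zero (neg_ne_zero.2 h.ne) habc
      · rw [hxy]; simp only [det3_def, Pi.add_apply, Pi.smul_apply, smul_eq_mul]; ring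
  · refine hline a ha b hb x hx hab0 ?_ za zb
    rw [hxy, h]; simp only [det3_def, Pi.add_apply, Pi.smul_apply, smul_eq_mul]; ring
  · rcases le_total (y 0) (y 1) with h01 | h01
    · obtain ⟨hz, zz⟩ := face b hb zb (by simp only [det3_def]; ring) hcb (y 1 - y 0) (y 2)
        (by linarith) h
      refine hline _ hab _ hz _ hx ?_ ?_ zab zz
      · apply cr_ne_of_det3 (w := a)
        have : det3 (a + b) ((y 1 - y 0) • b + y 2 • c) a = y 2 * det3 a b c := by
          simp only [det3_def, Pi.add_apply, Pi.smul_apply, smul_eq_mul]; ring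
        rw [this]; exact mul_ne_zero h.ne' habc
      · rw [hxy]; simp only [det3_def, Pi.add_apply, Pi.smul_apply, smul_eq_mul]; ring
    · obtain ⟨hz, zz⟩ := face a ha za (by simp only [det3_def]; ring) hca (y 0 - y 1) (y 2)
        (by linarith) h
      refine hline _ hab _ hz _ hx ?_ ?_ zab zz
      · apply cr_ne_of_det3 (w := b)
        have : det3 (a + b) ((y 0 - y 1) • a + y 2 • c) b = -y 2 * det3 a b c := by
          simp only [det3_def, Pi.add_apply, Pi.smul_apply, smul_eq_mul]; ring
        rw [this]; exact mul_ne_zero (neg_ne_zero.2 h.ne') habc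
      · rw [hxy]; simp only [det3_def, Pi.add_apply, Pi.smul_apply, smul_eq_mul]; ring

end Pool.Agent.ProjMetric
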