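import Mathlib
import Pool.Agent.ProjMetric93.FT2

open Set

namespace Pool.Agent.ProjMetric

/-- the linear functional `dt n` -/
def dtL (n : V3) : V3 →ₗ[ℝ] ℝ where
  toFun v := dt n v
  map_add' u v := by simp only [dt_def, Pi.add_apply]; ring
  map_smul' r u := by simp only [dt_def, Pi.smul_apply, smul_eq_mul, RingHom.id_apply]; ring

lemma dtL_apply (n v : V3) : dtL n v = dt n v := rfl

/-- the plane orthogonal to `n` -/
def plane (n : V3) : Submodule ℝ V3 := LinearMap.ker (dtL n)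

lemma mem_plane_iff {n v : V3} : v ∈ plane n ↔ dt n v = 0 := by
  rw [plane, LinearMap.mem_ker, dtL_apply]

lemma finrank_plane {n : V3} (hn : n ≠ 0) : Module.finrank ℝ (plane n) = 2 := by
  have h1 : dtL n ≠ 0 := by
    intro h
    have := congrArg (fun f => f n) h
    simp only [dtL_apply, LinearMap.zero_apply] at this
    exact hn (dt_self_eq_zero.1 this)
  have h2 := Module.Dual.finrank_ker_add_one_of_ne_zero (f := dtL n) h1
  have h3 : Module.finrank ℝ V3 = 3 := by simp
  rw [h3] at h2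
  have h4 : Module.finrank ℝ (plane n) = Module.finrank ℝ (LinearMap.ker (dtL n)) := rfl
  omega

/-- the projective line `n^⊥` -/
def lineOf (n : V3) : Set P2 := {X : P2 | X.submodule ≤ plane n}

lemma isLine_lineOf {n : V3} (hn : n ≠ 0) : IsLine (lineOf n) :=
  ⟨plane n, finrank_plane hn, rfl⟩

lemma mk_mem_lineOf {n v : V3} (hv : v ≠ 0) :
    Projectivization.mk ℝ v hv ∈ lineOf n ↔ dt n v = 0 := by
  simp only [lineOf, Set.mem_ofPred_eq, Projectivization.submodule_mk]
  rw [Submodule.span_singleton_le_iff_mem, mem_plane_iff]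

/-- a vector orthogonal to three dependent vectors -/
lemma exists_normal {u v w : V3} (h : det3 u v w = 0) :
    ∃ n : V3, n ≠ 0 ∧ dt n u = 0 ∧ dt n v = 0 ∧ dt n w = 0 := by
  have hdet : (Matrix.of ![u, v, w]).det = 0 := by
    rw [Matrix.det_fin_three, ← h]
    simp only [Matrix.of_apply, Matrix.cons_val, det3_def]
    ring
  obtain ⟨n, hn, hn2⟩ := Matrix.exists_mulVec_eq_zero_iff.2 hdet
  refine ⟨n, hn, ?_, ?_, ?_⟩
  · have := congrFun hn2 0
    simp only [Matrix.mulVec, dotProduct, Fin.sum_univ_three, Matrix.of_apply, Matrix.cons_val,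
      Pi.zero_apply] at this
    simp only [dt_def]; linarith
  · have := congrFun hn2 1
    simp only [Matrix.mulVec, dotProduct, Fin.sum_univ_three, Matrix.of_apply, Matrix.cons_val,
      Pi.zero_apply] at this
    simp only [dt_def]; linarith
  · have := congrFun hn2 2
    simp only [Matrix.mulVec, dotProduct, Fin.sum_univ_three, Matrix.of_apply, Matrix.cons_val,
      Pi.zero_apply] at this
    simp only [dt_def]; linarith

lemma det3_eq_zero_of_mem {W : Submodule ℝ V3} (hW : Module.finrank ℝ W = 2) {u v w : V3}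
    (hu : u ∈ W) (hv : v ∈ W) (hw : w ∈ W) : det3 u v w = 0 := by
  by_contra h
  have htop : W = ⊤ := by
    rw [eq_top_iff]
    intro x _
    have : x = linOf u v w h ((linOf u v w h).symm x) := by simp
    rw [this, linOf_apply]
    exact W.add_mem (W.add_mem (W.smul_mem _ hu) (W.smul_mem _ hv)) (W.smul_mem _ hw)
  rw [htop, finrank_top] at hW
  simp at hW

/-- vectors representing points of `M` -/
def KM (M : Set P2) : Set V3 := {v | ∃ h : v ≠ 0, Projectivization.mk ℝ v h ∈ M}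

lemma KM_ne {M : Set P2} {v : V3} (hv : v ∈ KM M) : v ≠ 0 := hv.choose

open Classical in
/-- the point represented by `v` (or the base point `o`) -/
noncomputable def pt {M : Set P2} (o : M) (v : V3) : M :=
  if h : v ∈ KM M then ⟨Projectivization.mk ℝ v (KM_ne h), h.choose_spec⟩ else o

lemma pt_eq {M : Set P2} (o : M) {v : V3} (hv : v ∈ KM M) :
    (pt o v).1 = Projectivization.mk ℝ v (KM_ne hv) := by
  simp only [pt, dif_pos hv]

lemma exists_rep {M : Set P2} (o : M) (X : M) : ∃ v ∈ KM M, pt o v = X := by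
  have h1 : Projectivization.mk ℝ X.1.rep X.1.rep_nonzero = X.1 := Projectivization.mk_rep _
  have h : X.1.rep ∈ KM M := ⟨X.1.rep_nonzero, by rw [h1]; exact X.2⟩
  refine ⟨X.1.rep, h, ?_⟩
  apply Subtype.ext
  rw [pt_eq o h, h1]

lemma mk_eq_mk_cr {u v : V3} (hu : u ≠ 0) (hv : v ≠ 0) :
    Projectivization.mk ℝ u hu = Projectivization.mk ℝ v hv ↔ cr u v = 0 := by
  rw [Projectivization.mk_eq_mk_iff']
  constructor
  · rintro ⟨a, rfl⟩
    apply v3_ext <;> simp <;> ring
  · intro h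
    have h' : cr v u = 0 := by
      have e : cr v u = -cr u v := by apply v3_ext <;> simp <;> ring
      rw [e, h, neg_zero]
    obtain ⟨c, hc⟩ := cr_eq_zero hv h'
    exact ⟨c, hc.symm⟩

lemma pt_eq_pt {M : Set P2} (o : M) {u v : V3} (hu : u ∈ KM M) (hv : v ∈ KM M) :
    pt o u = pt o v ↔ cr u v = 0 := by
  rw [← mk_eq_mk_cr (KM_ne hu) (KM_ne hv), ← pt_eq o hu, ← pt_eq o hv]
  exact ⟨fun h => by rw [h], fun h => Subtype.ext h⟩

lemma KM_smul {M : Set P2} {c : ℝ} (hc : c ≠ 0) {v : V3} (hv : v ∈ KM M) : c • v ∈ KM M := by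
  have h0 : c • v ≠ 0 := smul_ne_zero hc (KM_ne hv)
  refine ⟨h0, ?_⟩
  have : Projectivization.mk ℝ (c • v) h0 = Projectivization.mk ℝ v (KM_ne hv) := by
    rw [Projectivization.mk_eq_mk_iff']
    exact ⟨c, rfl⟩
  rw [this]
  exact hv.choose_spec

lemma pt_smul {M : Set P2} (o : M) {c : ℝ} (hc : c ≠ 0) {v : V3} (hv : v ∈ KM M) :
    pt o (c • v) = pt o v := by
  rw [pt_eq_pt o (KM_smul hc hv) hv]
  apply v3_ext <;> simp <;> ring

lemma coll_iff {M : Set P2} (o : M) {u v w : V3} (hu : u ∈ KM M) (hv : v ∈ KM M)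
    (hw : w ∈ KM M) : Coll (pt o u) (pt o v) (pt o w) ↔ det3 u v w = 0 := by
  constructor
  · rintro ⟨l, ⟨W, hW, rfl⟩, h1, h2, h3⟩
    simp only [Set.mem_ofPred_eq] at h1 h2 h3
    rw [pt_eq o hu, Projectivization.submodule_mk, Submodule.span_singleton_le_iff_mem] at h1
    rw [pt_eq o hv, Projectivization.submodule_mk, Submodule.span_singleton_le_iff_mem] at h2
    rw [pt_eq o hw, Projectivization.submodule_mk, Submodule.span_singleton_le_iff_mem] at h3
    exact det3_eq_zero_of_mem hW h1 h2 h3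
  · intro h
    obtain ⟨n, hn, n1, n2, n3⟩ := exists_normal h
    refine ⟨lineOf n, isLine_lineOf hn, ?_, ?_, ?_⟩
    · rw [pt_eq o hu, mk_mem_lineOf]; exact n1
    · rw [pt_eq o hv, mk_mem_lineOf]; exact n2
    · rw [pt_eq o hw, mk_mem_lineOf]; exact n3

/-- the affine carrier -/
lemma carrier_affine {k : Kind} (hk : k ≠ .elliptic) {M : Set P2} (h : k.IsCarrier M) :
    ∃ D : Set (ℝ × ℝ), IsOpen D ∧ Convex ℝ D ∧ D.Nonempty ∧
      ∀ v : V3, v ∈ KM M ↔ v 2 ≠ 0 ∧ (v 0 / v 2, v 1 / v 2) ∈ D := by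
  have key : ∀ D : Set (ℝ × ℝ), ∀ v : V3, v ∈ KM (aff '' D) ↔ v 2 ≠ 0 ∧ (v 0 / v 2, v 1 / v 2) ∈ D := by
    intro D v
    constructor
    · rintro ⟨hv, x, hx, hxv⟩
      rw [aff, Projectivization.mk_eq_mk_iff'] at hxv
      obtain ⟨a, ha⟩ := hxv
      have h0 := congrFun ha 0
      have h1 := congrFun ha 1
      have h2 := congrFun ha 2
      simp only [Pi.smul_apply, smul_eq_mul, Matrix.cons_val] at h0 h1 h2
      have hv2 : v 2 ≠ 0 := by rintro h; rw [h, mul_zero] at h2; exact zero_ne_one h2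
      refine ⟨hv2, ?_⟩
      have ha' : a = 1 / v 2 := by field_simp; exact h2
      have e : (v 0 / v 2, v 1 / v 2) = x := by
        apply Prod.ext
        · simp only; rw [← h0, ha']; ring
        · simp only; rw [← h1, ha']; ring
      rw [e]; exact hx
    · rintro ⟨h2, hD⟩
      have hv : v ≠ 0 := by rintro rfl; exact h2 rfl
      refine ⟨hv, (v 0 / v 2, v 1 / v 2), hD, ?_⟩
      rw [aff, Projectivization.mk_eq_mk_iff']
      refine ⟨1 / v 2, ?_⟩
      apply v3_ext
      · simp only [Pi.smul_apply, smul_eq_mul, Matrix.cons_val]; ring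
      · simp only [Pi.smul_apply, smul_eq_mul, Matrix.cons_val]; ring
      · simp only [Pi.smul_apply, smul_eq_mul, Matrix.cons_val]; field_simp
  cases k with
  | elliptic => exact absurd rfl hk
  | parabolic =>
    simp only [Kind.IsCarrier] at h
    subst h
    refine ⟨univ, isOpen_univ, convex_univ, univ_nonempty, fun v => ?_⟩
    rw [← image_univ]
    exact key univ v
  | hyperbolic =>
    simp only [Kind.IsCarrier] at h
    obtain ⟨D, h1, h2, h3, -, rfl⟩ := h
    exact ⟨D, h1, h2, h3, key D⟩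

/-- the positive cone over an affine carrier -/
def KP (M : Set P2) : Set V3 := {v | v ∈ KM M ∧ 0 < v 2}

lemma cone_KP {k : Kind} (hk : k ≠ .elliptic) {M : Set P2} (h : k.IsCarrier M) :
    Cone (KP M) := by
  obtain ⟨D, -, hconv, -, hD⟩ := carrier_affine hk h
  refine ⟨?_, ?_, ?_⟩
  · rintro ⟨h1, h2⟩
    simp at h2
  · rintro c hc u ⟨hu1, hu2⟩
    exact ⟨KM_smul hc.ne' hu1, by simp only [Pi.smul_apply, smul_eq_mul]; positivity⟩
  · rintro u ⟨hu1, hu2⟩ v ⟨hv1, hv2⟩ -
    have h2 : 0 < u 2 + v 2 := by positivity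
    refine ⟨(hD _).2 ⟨?_, ?_⟩, ?_⟩
    · simp only [Pi.add_apply]; exact h2.ne'
    · have h3 := ((hD u).1 hu1).2
      have h4 := ((hD v).1 hv1).2
      have := hconv h3 h4 (a := u 2 / (u 2 + v 2)) (b := v 2 / (u 2 + v 2)) (by positivity)
        (by positivity) (by rw [← add_div, div_self h2.ne'])
      convert this using 1
      apply Prod.ext
      · simp only [Pi.add_apply, Prod.fst_add, Prod.smul_fst, smul_eq_mul]
        field_simp
      · simp only [Pi.add_apply, Prod.snd_add, Prod.smul_snd, smul_eq_mul]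
        field_simp
    · simp only [Pi.add_apply]; exact h2

lemma exists_basis_KP {k : Kind} (hk : k ≠ .elliptic) {M : Set P2} (h : k.IsCarrier M) :
    ∃ a ∈ KP M, ∃ b ∈ KP M, ∃ c ∈ KP M, det3 a b c ≠ 0 := by
  obtain ⟨D, hopen, -, ⟨x, hx⟩, hD⟩ := carrier_affine hk h
  obtain ⟨ε, hε, hball⟩ := Metric.isOpen_iff.1 hopen x hx
  have mem : ∀ y : ℝ × ℝ, y ∈ D → (![y.1, y.2, 1] : V3) ∈ KP M := by
    intro y hy
    refine ⟨(hD _).2 ⟨by simp, ?_⟩, by simp⟩
    simpa using hy
  have h1 : (x.1 + ε / 2, x.2) ∈ D := by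
    apply hball
    rw [Metric.mem_ball, Prod.dist_eq]
    simp only [Real.dist_eq, add_sub_cancel_left, sub_self, abs_zero]
    rw [abs_of_pos (by positivity), max_eq_left (by positivity)]
    linarith
  have h2 : (x.1, x.2 + ε / 2) ∈ D := by
    apply hball
    rw [Metric.mem_ball, Prod.dist_eq]
    simp only [Real.dist_eq, add_sub_cancel_left, sub_self, abs_zero]
    rw [abs_of_pos (by positivity), max_eq_right (by positivity)]
    linarith
  refine ⟨_, mem _ hx, _, mem _ h1, _, mem _ h2, ?_⟩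
  simp only [det3_def, Matrix.cons_val]
  intro h
  have : (ε / 2) ^ 2 = 0 := by nlinarith
  have h3 : 0 < (ε / 2) ^ 2 := by positivity
  linarith

/-- representatives in the positive cone -/
lemma exists_rep_KP {k : Kind} (hk : k ≠ .elliptic) {M : Set P2} (h : k.IsCarrier M) (o : M)
    (X : M) : ∃ v ∈ KP M, pt o v = X := by
  obtain ⟨D, -, -, -, hD⟩ := carrier_affine hk h
  obtain ⟨v, hv, rfl⟩ := exists_rep o X
  have h2 := ((hD v).1 hv).1
  rcases lt_or_gt_of_ne h2 with h | h
  · refine ⟨(-1 : ℝ) • v, ⟨KM_smul (by norm_num) hv, by simp; exact h⟩, pt_smul o (by norm_num) hv⟩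
  · exact ⟨v, ⟨hv, h⟩, rfl⟩

variable {M : Set P2} [MetricSpace M]

/-- parametrization of lines by arc length -/
lemma exists_geod {k : Kind} (hk : k ≠ .elliptic) (hP : IsProjectiveMetricPlane k M) (o : M)
    {n : V3} (hn : n ≠ 0) {v : V3} (hv : v ∈ KM M) (hnv : dt n v = 0) :
    ∃ g : ℝ → M, Isometry g ∧ ∀ w ∈ KM M, (pt o w ∈ range g ↔ dt n w = 0) := by
  have h1 := (hP.geodesic_iff {X : M | X.1 ∈ lineOf n}).2
    ⟨⟨pt o v, by simp only [Set.mem_ofPred_eq]; rw [pt_eq o hv, mk_mem_lineOf]; exact hnv⟩,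
      lineOf n, isLine_lineOf hn, rfl⟩
  have h2 : ∃ g : ℝ → M, Isometry g ∧ range g = {X : M | X.1 ∈ lineOf n} := by
    cases k with
    | elliptic => exact absurd rfl hk
    | parabolic => exact h1
    | hyperbolic => exact h1
  obtain ⟨g, hg, hr⟩ := h2
  refine ⟨g, hg, fun w hw => ?_⟩
  rw [hr]
  simp only [Set.mem_ofPred_eq]
  rw [pt_eq o hw, mk_mem_lineOf]

end Pool.Agent.ProjMetric
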