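import Mathlib
import Pool.Agent.ProjMetric93.Plane

open Set Real

namespace Pool.Agent.ProjMetric

/-! ### The circle of length `π` -/

instance : Fact (0 < π) := ⟨Real.pi_pos⟩

abbrev CC := AddCircle π

lemma cc_norm {t : ℝ} (ht : |t| ≤ π / 2) : ‖(t : CC)‖ = |t| := by
  rw [AddCircle.norm_coe_eq_abs_iff π Real.pi_pos.ne', abs_of_pos Real.pi_pos]
  exact ht

lemma cc_rep (x : CC) : ∃ t : ℝ, |t| ≤ π / 2 ∧ (t : CC) = x := by
  induction x using QuotientAddGroup.induction_on with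
  | H τ =>
    have h1 := AddCircle.norm_eq π (x := τ)
    have h2 := AddCircle.norm_le_half_period π (x := (τ : CC)) Real.pi_pos.ne'
    rw [abs_of_pos Real.pi_pos] at h2
    refine ⟨τ - round (π⁻¹ * τ) * π, ?_, ?_⟩
    · rw [← h1]; exact h2
    · rw [AddCircle.coe_sub]
      have : ((round (π⁻¹ * τ) * π : ℝ) : CC) = 0 := by
        rw [AddCircle.coe_eq_zero_iff]
        exact ⟨round (π⁻¹ * τ), by simp⟩
      rw [this, sub_zero]

lemma cc_norm_le (x : CC) : ‖x‖ ≤ π / 2 := by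
  have := AddCircle.norm_le_half_period π (x := x) Real.pi_pos.ne'
  rwa [abs_of_pos Real.pi_pos] at this

lemma cc_norm_eq {x y : CC} (h : ‖x‖ = ‖y‖) : x = y ∨ x = -y := by
  obtain ⟨s, hs, rfl⟩ := cc_rep x
  obtain ⟨t, ht, rfl⟩ := cc_rep y
  rw [cc_norm hs, cc_norm ht, abs_eq_abs] at h
  rcases h with h | h
  · left; rw [h]
  · right; rw [h, AddCircle.coe_neg]

lemma cc_pi : ((π : ℝ) : CC) = 0 := AddCircle.coe_period π

lemma cc_half_neg : ((-(π / 2) : ℝ) : CC) = ((π / 2 : ℝ) : CC) := by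
  have : (-(π / 2) : ℝ) = π / 2 - π := by ring
  rw [this, AddCircle.coe_sub, cc_pi, sub_zero]

lemma cc_norm_half : ‖((π / 2 : ℝ) : CC)‖ = π / 2 := by
  rw [cc_norm]
  · exact abs_of_pos (by positivity)
  · rw [abs_of_pos (by positivity)]

lemma cc_eq_half {x : CC} (h : ‖x‖ = π / 2) : x = ((π / 2 : ℝ) : CC) := by
  rw [← cc_norm_half] at h
  rcases cc_norm_eq h with h | h
  · exact h
  · rw [h, ← AddCircle.coe_neg, cc_half_neg]

lemma cc_between {x z : CC} (h : ‖x - z‖ = π / 2) (w : CC) : ‖x - w‖ + ‖w - z‖ = π / 2 := by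
  have h1 := cc_eq_half h
  obtain ⟨t, ht, htw⟩ := cc_rep (x - w)
  have e2 : w - z = ((π / 2 - t : ℝ) : CC) := by
    rw [AddCircle.coe_sub, ← h1, htw]; abel
  rw [e2, ← htw, cc_norm ht]
  rcases le_or_gt 0 t with h0 | h0
  · rw [abs_of_nonneg h0] at ht ⊢
    rw [cc_norm (by rw [abs_of_nonneg] <;> linarith), abs_of_nonneg (by linarith)]
    ring
  · rw [abs_of_neg h0] at ht ⊢
    have : ((π / 2 - t : ℝ) : CC) = ((-(π / 2) - t : ℝ) : CC) := by
      rw [AddCircle.coe_sub, AddCircle.coe_sub, cc_half_neg]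
    rw [this, cc_norm (by rw [abs_of_nonpos] <;> linarith), abs_of_nonpos (by linarith)]
    ring

/-! ### Distance functions of elliptic type on vectors -/

/-- A distance function of elliptic type, in homogeneous coordinates. -/
structure EllD (D : V3 → V3 → ℝ) : Prop where
  symm : ∀ u v, u ≠ 0 → v ≠ 0 → D u v = D v u
  zero : ∀ u v, u ≠ 0 → v ≠ 0 → (D u v = 0 ↔ cr u v = 0)
  tri : ∀ u v w, u ≠ 0 → v ≠ 0 → w ≠ 0 → D u w ≤ D u v + D v w
  smul : ∀ (c : ℝ) u v, c ≠ 0 → u ≠ 0 → v ≠ 0 → D u (c • v) = D u v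
  cont : ∀ u, u ≠ 0 → ContinuousOn (D u) {v | v ≠ 0}
  line : ∀ u v, cr u v ≠ 0 → ∃ θ : V3 → CC,
    (∀ w w', w ≠ 0 → w' ≠ 0 → det3 u v w = 0 → det3 u v w' = 0 → D w w' = ‖θ w - θ w'‖) ∧
    ∀ τ : CC, ∃ w, w ≠ 0 ∧ det3 u v w = 0 ∧ θ w = τ
  convex : ∀ o x y z, ∀ r : ℝ, o ≠ 0 → x ≠ 0 → y ≠ 0 → z ≠ 0 → 0 < r → r < π / 2 → D o x = r →
    D o y = r → D o z = r → cr x y ≠ 0 → cr y z ≠ 0 → cr x z ≠ 0 → det3 x y z ≠ 0

namespace EllD

variable {D : V3 → V3 → ℝ}

lemma ne_of_cr {u v : V3} (h : cr u v ≠ 0) : u ≠ 0 ∧ v ≠ 0 := by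
  constructor
  · rintro rfl; apply h; apply v3_ext <;> simp
  · rintro rfl; apply h; apply v3_ext <;> simp

lemma smul' (h : EllD D) (c : ℝ) (u v : V3) (hc : c ≠ 0) (hu : u ≠ 0) (hv : v ≠ 0) :
    D (c • u) v = D u v := by
  rw [h.symm _ _ (smul_ne_zero hc hu) hv, h.smul c v u hc hv hu, h.symm _ _ hv hu]

lemma self (h : EllD D) {u : V3} (hu : u ≠ 0) : D u u = 0 := by
  rw [h.zero u u hu hu]; apply v3_ext <;> simp <;> ring

lemma nonneg (h : EllD D) {u v : V3} (hu : u ≠ 0) (hv : v ≠ 0) : 0 ≤ D u v := by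
  have h1 := h.tri u v u hu hv hu
  rw [h.self hu, h.symm v u hv hu] at h1
  linarith

lemma le_half (h : EllD D) {u v : V3} (hu : u ≠ 0) (hv : v ≠ 0) : D u v ≤ π / 2 := by
  by_cases hc : cr u v = 0
  · rw [(h.zero u v hu hv).2 hc]; positivity
  · obtain ⟨θ, h1, -⟩ := h.line u v hc
    rw [h1 u v hu hv (by simp only [det3_def]; ring) (by simp only [det3_def]; ring)]
    exact cc_norm_le _

lemma perp_cr (h : EllD D) {u v : V3} (hu : u ≠ 0) (hv : v ≠ 0) (hp : D u v = π / 2) :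
    cr u v ≠ 0 := by
  intro hc
  rw [(h.zero u v hu hv).2 hc] at hp
  have := Real.pi_pos
  linarith

/-- betweenness -/
lemma between (h : EllD D) {x z w : V3} (hx : x ≠ 0) (hz : z ≠ 0) (hw : w ≠ 0)
    (hxz : D x z = π / 2) (hd : det3 x z w = 0) : D x w + D w z = π / 2 := by
  have hc := h.perp_cr hx hz hxz
  obtain ⟨θ, h1, -⟩ := h.line x z hc
  have d1 : det3 x z x = 0 := by simp only [det3_def]; ring
  have d2 : det3 x z z = 0 := by simp only [det3_def]; ring
  rw [h1 x z hx hz d1 d2] at hxz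
  rw [h1 x w hx hw d1 hd, h1 w z hw hz hd d2]
  exact cc_between hxz _

lemma add_smul_ne {m z : V3} (h : cr m z ≠ 0) (κ : ℝ) : z + κ • m ≠ 0 := by
  intro h0
  apply h
  have : z = -(κ • m) := eq_neg_of_add_eq_zero_left h0
  rw [this]
  apply v3_ext <;> simp <;> ring

/-- the antipodal point on a line -/
lemma exists_perp (h : EllD D) {m z : V3} (hmz : cr m z ≠ 0) : ∃ κ : ℝ, D m (z + κ • m) = π / 2 := by
  obtain ⟨hm, hz⟩ := ne_of_cr hmz
  obtain ⟨θ, h1, h2⟩ := h.line m z hmz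
  obtain ⟨w, hw, hd, hθ⟩ := h2 (θ m - ((π / 2 : ℝ) : CC))
  have d1 : det3 m z m = 0 := by simp only [det3_def]; ring
  have hp : D m w = π / 2 := by
    rw [h1 m w hm hw d1 hd, hθ, sub_sub_cancel, cc_norm_half]
  obtain ⟨a, b, hab⟩ := mem_plane hmz hd
  have hb : b ≠ 0 := by
    rintro rfl
    rw [zero_smul, add_zero] at hab
    apply h.perp_cr hm hw hp
    rw [hab]; exact cr_smul_self _ _
  refine ⟨a / b, ?_⟩
  have : z + (a / b) • m = (1 / b) • w := by
    rw [hab]; apply v3_ext <;> simp only [Pi.add_apply, Pi.smul_apply, smul_eq_mul] <;> field_simp <;> ring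
  rw [this, h.smul _ _ _ (by positivity) hm hw]
  exact hp

lemma perp_unique (h : EllD D) {m z : V3} (hmz : cr m z ≠ 0) {κ κ' : ℝ}
    (h1 : D m (z + κ • m) = π / 2) (h2 : D m (z + κ' • m) = π / 2) : κ = κ' := by
  obtain ⟨hm, hz⟩ := ne_of_cr hmz
  obtain ⟨θ, h3, -⟩ := h.line m z hmz
  have n1 := add_smul_ne hmz κ
  have n2 := add_smul_ne hmz κ'
  have d0 : det3 m z m = 0 := by simp only [det3_def]; ring
  have d1 : det3 m z (z + κ • m) = 0 := by
    simp only [det3_def, Pi.add_apply, Pi.smul_apply, smul_eq_mul]; ring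
  have d2 : det3 m z (z + κ' • m) = 0 := by
    simp only [det3_def, Pi.add_apply, Pi.smul_apply, smul_eq_mul]; ring
  rw [h3 _ _ hm n1 d0 d1] at h1
  rw [h3 _ _ hm n2 d0 d2] at h2
  have e1 := cc_eq_half h1
  have e2 := cc_eq_half h2
  have e3 : θ (z + κ • m) = θ (z + κ' • m) := by
    rw [← e2] at e1
    exact sub_right_injective e1
  have h4 : D (z + κ • m) (z + κ' • m) = 0 := by
    rw [h3 _ _ n1 n2 d1 d2, e3, sub_self, norm_zero]
  rw [h.zero _ _ n1 n2] at h4
  by_contra hne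
  apply hmz
  have hne' : κ - κ' ≠ 0 := sub_ne_zero.2 hne
  have e : cr (z + κ • m) (z + κ' • m) = (κ - κ') • cr m z := by
    apply v3_ext <;> simp only [cr_apply0, cr_apply1, cr_apply2, Pi.add_apply, Pi.smul_apply,
      smul_eq_mul] <;> ring
  rw [e] at h4
  exact (smul_eq_zero.1 h4).resolve_left hne'

/-- transport along a linear equivalence -/
lemma comp (h : EllD D) (P : V3 ≃ₗ[ℝ] V3) : EllD (fun u v => D (P u) (P v)) := by
  have hne : ∀ u : V3, u ≠ 0 → P u ≠ 0 := fun u hu h0 => hu (P.map_eq_zero_iff.1 h0)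
  have hcr : ∀ u v : V3, cr (P u) (P v) = 0 ↔ cr u v = 0 := by
    intro u v
    constructor
    · intro h0
      by_contra hc
      exact cr_map_ne P hc h0
    · intro h0
      by_contra hc
      have := cr_map_ne P.symm hc
      simp at this
      exact this h0
  have hdet : ∀ u v w : V3, det3 (P u) (P v) (P w) = 0 ↔ det3 u v w = 0 := by
    have aux : ∀ (P : V3 ≃ₗ[ℝ] V3) (u v w : V3), det3 u v w = 0 → det3 (P u) (P v) (P w) = 0 := by
      intro P u v w h0
      by_cases hc : cr u v = 0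
      · by_cases hu : u = 0
        · subst hu; simp [det3_def]
        · obtain ⟨c, rfl⟩ := cr_eq_zero hu hc
          rw [map_smul]
          simp only [det3_def, Pi.smul_apply, smul_eq_mul]; ring
      · obtain ⟨a, b, rfl⟩ := mem_plane hc h0
        rw [map_add, map_smul, map_smul]
        simp only [det3_def, Pi.smul_apply, Pi.add_apply, smul_eq_mul]; ring
    intro u v w
    constructor
    · intro h0
      have := aux P.symm _ _ _ h0
      simpa using this
    · exact aux P u v w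
  refine ⟨?_, ?_, ?_, ?_, ?_, ?_, ?_⟩
  · intro u v hu hv; exact h.symm _ _ (hne u hu) (hne v hv)
  · intro u v hu hv; rw [h.zero _ _ (hne u hu) (hne v hv), hcr]
  · intro u v w hu hv hw; exact h.tri _ _ _ (hne u hu) (hne v hv) (hne w hw)
  · intro c u v hc hu hv
    simp only [map_smul]
    exact h.smul c _ _ hc (hne u hu) (hne v hv)
  · intro u hu
    have hPc : Continuous P := P.toLinearMap.continuous_of_finiteDimensional
    exact (h.cont _ (hne u hu)).comp hPc.continuousOn (fun v hv => hne v hv)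
  · intro u v huv
    obtain ⟨θ, h1, h2⟩ := h.line (P u) (P v) (cr_map_ne P huv)
    refine ⟨fun w => θ (P w), ?_, ?_⟩
    · intro w w' hw hw' d1 d2
      exact h1 _ _ (hne w hw) (hne w' hw') ((hdet _ _ _).2 d1) ((hdet _ _ _).2 d2)
    · intro τ
      obtain ⟨w, hw, hd, hθ⟩ := h2 τ
      refine ⟨P.symm w, ?_, ?_, ?_⟩
      · intro h0; apply hw; have := P.symm.map_eq_zero_iff.1 h0; exact this
      · rw [← hdet]; simpa using hd
      · simpa using hθ
  · intro o x y z r ho hx hy hz hr hr2 h1 h2 h3 c1 c2 c3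
    have := h.convex (P o) (P x) (P y) (P z) r (hne _ ho) (hne _ hx) (hne _ hy) (hne _ hz) hr hr2
      h1 h2 h3 (cr_map_ne P c1) (cr_map_ne P c2) (cr_map_ne P c3)
    intro h0; exact this ((hdet _ _ _).2 h0)

end EllD

end Pool.Agent.ProjMetric
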