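import Mathlib
import Pool.Agent.ProjMetric93.EllA

open Set Real

namespace Pool.Agent.ProjMetric

namespace EllD

variable {D : V3 → V3 → ℝ}

/-- Continuity of the distance along a path. -/
lemma cont_path (h : EllD D) {u : V3} (hu : u ≠ 0) {p : ℝ → V3} (hp : Continuous p)
    {s : Set ℝ} (hne : ∀ t ∈ s, p t ≠ 0) : ContinuousOn (fun t => D u (p t)) s :=
  (h.cont u hu).comp hp.continuousOn hne

/-- On one of the two arcs between two points of a polar curve all points are polar. -/
lemma arc (h : EllD D) {m y z : V3} (hm : m ≠ 0) (hyz : cr y z ≠ 0) (hy : D m y = π / 2)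
    (hz : D m z = π / 2) :
    (∀ τ : ℝ, 0 < τ → D m (y + τ • z) = π / 2) ∨ (∀ τ : ℝ, 0 < τ → D m (y + (-τ) • z) = π / 2) := by
  obtain ⟨hy0, hz0⟩ := ne_of_cr hyz
  have hne : ∀ a b : ℝ, (a ≠ 0 ∨ b ≠ 0) → a • y + b • z ≠ 0 := by
    intro a b hab h0
    have e1 : cr (a • y + b • z) z = a • cr y z := by
      apply v3_ext <;> simp only [cr_apply0, cr_apply1, cr_apply2, Pi.add_apply, Pi.smul_apply,
        smul_eq_mul] <;> ring
    have e2 : cr y (a • y + b • z) = b • cr y z := by
      apply v3_ext <;> simp only [cr_apply0, cr_apply1, cr_apply2, Pi.add_apply, Pi.smul_apply,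
        smul_eq_mul] <;> ring
    rw [h0] at e1 e2
    have z1 : cr (0 : V3) z = 0 := by apply v3_ext <;> simp
    have z2 : cr y (0 : V3) = 0 := by apply v3_ext <;> simp
    rw [z1] at e1
    rw [z2] at e2
    rcases hab with ha | hb
    · exact (smul_ne_zero ha hyz) e1.symm
    · exact (smul_ne_zero hb hyz) e2.symm
  have hne1 : ∀ τ : ℝ, y + τ • z ≠ 0 := fun τ => by
    have := hne 1 τ (Or.inl one_ne_zero)
    rwa [one_smul] at this
  by_contra hcon
  push Not at hcon
  obtain ⟨⟨τ₁, hτ₁, h1⟩, ⟨τ₂, hτ₂, h2⟩⟩ := hcon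
  have l1 : D m (y + τ₁ • z) < π / 2 := lt_of_le_of_ne (h.le_half hm (hne1 _)) h1
  have l2 : D m (y + (-τ₂) • z) < π / 2 := lt_of_le_of_ne (h.le_half hm (hne1 _)) h2
  set F₁ := D m (y + τ₁ • z) with hF₁
  set F₂ := D m (y + (-τ₂) • z) with hF₂
  set r := (max F₁ F₂ + π / 2) / 2 with hr
  have m1 : max F₁ F₂ < π / 2 := max_lt l1 l2
  have m2 : 0 ≤ max F₁ F₂ := (h.nonneg hm (hne1 _)).trans (le_max_left F₁ F₂)
  have r1 : F₁ < r := by have := le_max_left F₁ F₂; linarith
  have r2 : F₂ < r := by have := le_max_right F₁ F₂; linarith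
  have r3 : r < π / 2 := by linarith
  have r0 : 0 < r := by have := Real.pi_pos; linarith
  -- first point
  have c1 : ContinuousOn (fun t : ℝ => D m (y + t • z)) (Icc (-τ₂) τ₁) :=
    h.cont_path hm (by fun_prop) (fun t _ => hne1 t)
  have hD0 : D m (y + (0 : ℝ) • z) = π / 2 := by rw [zero_smul, add_zero]; exact hy
  obtain ⟨s₁, ⟨hs₁a, hs₁b⟩, hs₁⟩ : r ∈ (fun t : ℝ => D m (y + t • z)) '' Ioo 0 τ₁ := by
    have := intermediate_value_Ioo' hτ₁.le (c1.mono (Icc_subset_Icc (by linarith) le_rfl))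
    apply this
    refine ⟨r1, ?_⟩
    rw [hD0]; exact r3
  obtain ⟨s₂, ⟨hs₂a, hs₂b⟩, hs₂⟩ : r ∈ (fun t : ℝ => D m (y + t • z)) '' Ioo (-τ₂) 0 := by
    have := intermediate_value_Ioo (by linarith : -τ₂ ≤ 0)
      (c1.mono (Icc_subset_Icc le_rfl (by linarith)))
    apply this
    refine ⟨r2, ?_⟩
    rw [hD0]; exact r3
  -- third point
  have c3 : ContinuousOn (fun t : ℝ => D m ((1 - t) • y + ((1 - t) * τ₁ + t) • z)) (Icc 0 1) :=
    h.cont_path hm (by fun_prop) (fun t ht => by
      apply hne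
      by_cases h1 : 1 - t = 0
      · right; rw [h1]; have : t = 1 := by linarith
        rw [this]; norm_num
      · left; exact h1)
  obtain ⟨s₃, ⟨hs₃a, hs₃b⟩, hs₃⟩ :
      r ∈ (fun t : ℝ => D m ((1 - t) • y + ((1 - t) * τ₁ + t) • z)) '' Ioo 0 1 := by
    have := intermediate_value_Ioo (by norm_num : (0:ℝ) ≤ 1) c3
    apply this
    constructor
    · simp only [sub_zero, one_smul, one_mul, add_zero]
      exact r1
    · simp only [sub_self, zero_smul, zero_mul, zero_add, one_smul]
      rw [hz]; exact r3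
  have hcc : ∀ a b c d : ℝ, cr (a • y + b • z) (c • y + d • z) = (a * d - b * c) • cr y z := by
    intro a b c d
    apply v3_ext <;> simp only [cr_apply0, cr_apply1, cr_apply2, Pi.add_apply, Pi.smul_apply,
        smul_eq_mul] <;> ring
  have hs₁' : D m (y + s₁ • z) = r := hs₁
  have hs₂' : D m (y + s₂ • z) = r := hs₂
  have hs₃' : D m ((1 - s₃) • y + ((1 - s₃) * τ₁ + s₃) • z) = r := hs₃
  have k1 : (1 - s₃) ≠ 0 := by intro h0; linarith
  have hs3pos : 0 < 1 - s₃ := by linarith
  refine h.convex m (y + s₁ • z) (y + s₂ • z) ((1 - s₃) • y + ((1 - s₃) * τ₁ + s₃) • z) r hm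
    (hne1 _) (hne1 _) (hne _ _ (Or.inl k1)) r0 r3 hs₁' hs₂' hs₃' ?_ ?_ ?_ ?_
  · have := hcc 1 s₁ 1 s₂
    rw [one_smul] at this
    rw [this]
    exact smul_ne_zero (by intro h0; linarith) hyz
  · have := hcc 1 s₂ (1 - s₃) ((1 - s₃) * τ₁ + s₃)
    rw [one_smul] at this
    rw [this]
    exact smul_ne_zero (by intro h0; nlinarith) hyz
  · have := hcc 1 s₁ (1 - s₃) ((1 - s₃) * τ₁ + s₃)
    rw [one_smul] at this
    rw [this]
    exact smul_ne_zero (by intro h0; nlinarith) hyz
  · simp only [det3_def, Pi.add_apply, Pi.smul_apply, smul_eq_mul]; ring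

/-- the polar curve of a point is closed under linear combinations -/
lemma perp_comb (h : EllD D) {m y z : V3} (hm : m ≠ 0) (hyz : cr y z ≠ 0) (hy : D m y = π / 2)
    (hz : D m z = π / 2) (α β : ℝ) (hu : α • y + β • z ≠ 0) : D m (α • y + β • z) = π / 2 := by
  obtain ⟨hy0, hz0⟩ := ne_of_cr hyz
  -- reduction to the case where the positive arc is polar
  suffices H : ∀ z : V3, cr y z ≠ 0 → D m z = π / 2 →
      (∀ τ : ℝ, 0 < τ → D m (y + τ • z) = π / 2) → ∀ α β : ℝ, α • y + β • z ≠ 0 →
      D m (α • y + β • z) = π / 2 by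
    rcases h.arc hm hyz hy hz with h1 | h1
    · exact H z hyz hz h1 α β hu
    · have e1 : cr y (-z) ≠ 0 := by
        have : cr y (-z) = -cr y z := by
          apply v3_ext <;> simp <;> ring
        rw [this]; exact neg_ne_zero.2 hyz
      have e2 : D m (-z) = π / 2 := by
        have := h.smul (-1) m z (by norm_num) hm hz0
        rw [neg_one_smul] at this
        rw [this]; exact hz
      have e3 : α • y + β • z = α • y + (-β) • (-z) := by simp
      rw [e3]
      apply H (-z) e1 e2
      · intro τ hτ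
        have := h1 τ hτ
        rwa [show y + τ • -z = y + -τ • z by simp]
      · rw [← e3]; exact hu
  clear hz hyz hu hz0 z α β
  intro z hyz hz hpos α β hu
  obtain ⟨-, hz0⟩ := ne_of_cr hyz
  have hmy := h.perp_cr hm hy0 hy
  -- `m` is not in the plane of `y, z`
  have hdet : det3 m y z ≠ 0 := by
    intro h0
    obtain ⟨a, b, hab⟩ := mem_plane hmy h0
    have hb : b ≠ 0 := by
      rintro rfl
      rw [zero_smul, add_zero] at hab
      apply h.perp_cr hm hz0 hz
      rw [hab]; exact cr_smul_self _ _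
    have e : z = b • (y + (a / b) • m) := by
      rw [hab]; apply v3_ext <;> simp only [Pi.add_apply, Pi.smul_apply, smul_eq_mul] <;>
        field_simp <;> ring
    have hz' := hz
    rw [e, h.smul _ _ _ hb hm (add_smul_ne hmy _)] at hz'
    have h00 : D m (y + (0 : ℝ) • m) = π / 2 := by rw [zero_smul, add_zero]; exact hy
    have := h.perp_unique hmy hz' h00
    rw [this, zero_smul, add_zero] at e
    apply hyz
    rw [e]; exact cr_smul_self _ _
  -- the positive cone
  have cone : ∀ a b : ℝ, 0 < a → 0 < b → D m (a • y + b • z) = π / 2 := by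
    intro a b ha hb
    have e : a • y + b • z = a • (y + (b / a) • z) := by
      apply v3_ext <;> simp only [Pi.add_apply, Pi.smul_apply, smul_eq_mul] <;> field_simp
    rw [e, h.smul _ _ _ ha.ne' hm, hpos _ (by positivity)]
    intro h0
    have : cr (y + (b / a) • z) z = cr y z := by
      apply v3_ext <;> simp only [cr_apply0, cr_apply1, cr_apply2, Pi.add_apply, Pi.smul_apply,
        smul_eq_mul] <;> ring
    rw [h0] at this
    apply hyz; rw [← this]; apply v3_ext <;> simp
  set u := α • y + β • z with hudef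
  have hmu : cr m u ≠ 0 := by
    intro h0
    have : det3 m y z * α = 0 ∧ det3 m y z * β = 0 := by
      constructor
      · have := congrArg (fun v => dt v z) h0
        simp only [dt_def, cr_apply0, cr_apply1, cr_apply2, hudef, Pi.add_apply, Pi.smul_apply,
          smul_eq_mul, Pi.zero_apply] at this
        simp only [det3_def]; linarith
      · have := congrArg (fun v => dt v y) h0
        simp only [dt_def, cr_apply0, cr_apply1, cr_apply2, hudef, Pi.add_apply, Pi.smul_apply,
          smul_eq_mul, Pi.zero_apply] at this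
        simp only [det3_def]; linarith
    have ha := (mul_eq_zero.1 this.1).resolve_left hdet
    have hb := (mul_eq_zero.1 this.2).resolve_left hdet
    apply hu
    rw [hudef, ha, hb]; simp
  obtain ⟨κ, hκ⟩ := h.exists_perp hmu
  by_cases hκ0 : κ = 0
  · rw [hκ0, zero_smul, add_zero] at hκ; exact hκ
  exfalso
  set x := y + z with hx
  have hxp : D m x = π / 2 := by
    have := cone 1 1 one_pos one_pos
    rwa [one_smul, one_smul] at this
  set w := u + κ • m with hw
  have hxw : cr x w ≠ 0 := by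
    intro h0
    -- dot with y and z : κ det = 0
    have h1 := congrArg (fun v => dt v y) h0
    have h2 := congrArg (fun v => dt v z) h0
    simp only [dt_def, cr_apply0, cr_apply1, cr_apply2, hudef, hx, hw, Pi.add_apply, Pi.smul_apply,
          smul_eq_mul, Pi.zero_apply] at h1 h2
    have : det3 m y z * κ = 0 := by
      simp only [det3_def]; linarith
    rcases mul_eq_zero.1 this with h3 | h3
    · exact hdet h3
    · exact hκ0 h3
  -- small parameter
  set N := 2 * (|α| + |β| + 1) with hN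
  have hN0 : 0 < N := by positivity
  have small : ∀ ε : ℝ, |ε| = 1 → 0 < 1 + ε * (1 / N) * α ∧ 0 < 1 + ε * (1 / N) * β := by
    intro ε hε
    have b1 : |ε * (1 / N) * α| < 1 := by
      rw [abs_mul, abs_mul, hε, one_mul, abs_of_pos (by positivity : 0 < 1 / N), one_div,
        inv_mul_lt_iff₀ hN0]
      have := abs_nonneg β
      have := abs_nonneg α
      linarith
    have b2 : |ε * (1 / N) * β| < 1 := by
      rw [abs_mul, abs_mul, hε, one_mul, abs_of_pos (by positivity : 0 < 1 / N), one_div,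
        inv_mul_lt_iff₀ hN0]
      have := abs_nonneg β
      have := abs_nonneg α
      linarith
    have := (abs_lt.1 b1).1
    have := (abs_lt.1 b2).1
    constructor <;> linarith
  have final : ∀ ε : ℝ, |ε| = 1 → D m (x + (ε * (1 / N)) • w) = π / 2 → False := by
    intro ε hε hD
    obtain ⟨p1, p2⟩ := small ε hε
    set z' := (1 + ε * (1 / N) * α) • y + (1 + ε * (1 / N) * β) • z with hz'
    have e1 : x + (ε * (1 / N)) • w = z' + (ε * (1 / N) * κ) • m := by
      apply v3_ext <;> simp only [hx, hw, hz', hudef, Pi.add_apply, Pi.smul_apply, smul_eq_mul] <;>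
        ring
    have e2 : D m (z' + (0 : ℝ) • m) = π / 2 := by
      rw [zero_smul, add_zero]; exact cone _ _ p1 p2
    rw [e1] at hD
    have hmz' : cr m z' ≠ 0 := by
      intro h0
      have := congrArg (fun v => dt v z) h0
      simp only [dt_def, cr_apply0, cr_apply1, cr_apply2, hz', Pi.add_apply, Pi.smul_apply,
          smul_eq_mul, Pi.zero_apply] at this
      have h1 : det3 m y z * (1 + ε * (1 / N) * α) = 0 := by simp only [det3_def]; linarith
      rcases mul_eq_zero.1 h1 with h2 | h2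
      · exact hdet h2
      · exact p1.ne' h2
    have := h.perp_unique hmz' hD e2
    have hε0 : ε ≠ 0 := by rintro rfl; simp at hε
    have : ε * (1 / N) ≠ 0 := mul_ne_zero hε0 (by positivity)
    exact (mul_ne_zero this hκ0) (by assumption)
  rcases h.arc hm hxw hxp hκ with h1 | h1
  · exact final 1 (by simp) (by rw [one_mul]; exact h1 _ (by positivity))
  · exact final (-1) (by simp) (by
      have := h1 (1 / N) (by positivity)
      rwa [show -1 * (1 / N) = -(1 / N) by ring])

/-- the polar of a point is a projective line -/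
lemma exists_polar (h : EllD D) {m : V3} (hm : m ≠ 0) :
    ∃ n : V3, n ≠ 0 ∧ ∀ w, w ≠ 0 → (D m w = π / 2 ↔ dt n w = 0) := by
  -- two vectors independent of m
  obtain ⟨p, q, hpq⟩ : ∃ p q : V3, det3 m p q ≠ 0 := by
    by_cases h0 : m 0 = 0
    · by_cases h1 : m 1 = 0
      · have h2 : m 2 ≠ 0 := fun h2 => hm (v3_eq_zero.2 ⟨h0, h1, h2⟩)
        exact ⟨E1, E2, by simp [det3_def, E1, E2]; exact h2⟩
      · exact ⟨E3, E1, by simp [det3_def, E1, E3]; exact h1⟩
    · exact ⟨E2, E3, by simp [det3_def, E2, E3]; exact h0⟩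
  have hmp : cr m p ≠ 0 := cr_ne_of_det3 hpq
  have hmq : cr m q ≠ 0 := by
    apply cr_ne_of_det3 (w := p)
    have : det3 m q p = -det3 m p q := by simp only [det3_def]; ring
    rw [this]; exact neg_ne_zero.2 hpq
  obtain ⟨κ₁, h1⟩ := h.exists_perp hmp
  obtain ⟨κ₂, h2⟩ := h.exists_perp hmq
  set y := p + κ₁ • m with hy
  set z := q + κ₂ • m with hz
  have hy0 : y ≠ 0 := add_smul_ne hmp _
  have hz0 : z ≠ 0 := add_smul_ne hmq _
  have hd : det3 m y z ≠ 0 := by
    have : det3 m y z = det3 m p q := by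
      simp only [hy, hz, det3_def, Pi.add_apply, Pi.smul_apply, smul_eq_mul]; ring
    rw [this]; exact hpq
  have hyz : cr y z ≠ 0 := by
    intro h0
    apply hd
    simp only [det3]
    rw [h0]; simp [dt_def]
  refine ⟨cr y z, hyz, fun w hw => ⟨fun hD => ?_, fun hD => ?_⟩⟩
  · by_contra hne
    have hdw : det3 y z w ≠ 0 := by
      intro h0; apply hne; rw [← h0]
      simp only [det3_def, dt_def, cr_apply0, cr_apply1, cr_apply2]; ring
    set c := (linOf _ _ _ hdw).symm m with hc
    have hm' : m = c 0 • y + c 1 • z + c 2 • w := by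
      have : linOf _ _ _ hdw c = m := by simp [hc]
      conv_lhs => rw [← this]
      rw [linOf_apply]
    by_cases hyz0 : c 0 • y + c 1 • z = 0
    · rw [hyz0, zero_add] at hm'
      apply h.perp_cr hm hw hD
      rw [hm']
      apply v3_ext <;> simp <;> ring
    · have hp := h.perp_comb hm hyz h1 h2 _ _ hyz0
      have hcr' : cr (c 0 • y + c 1 • z) w ≠ 0 := by
        intro h0
        obtain ⟨k, hk⟩ := cr_eq_zero hyz0 h0
        apply hdw
        rw [hk]
        simp only [det3_def, Pi.add_apply, Pi.smul_apply, smul_eq_mul]; ring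
      have hmm : (1 : ℝ) • (c 0 • y + c 1 • z) + c 2 • w = m := by rw [one_smul]; exact hm'.symm
      have := h.perp_comb hm hcr' hp hD 1 (c 2) (by rw [hmm]; exact hm)
      rw [hmm, h.self hm] at this
      have := Real.pi_pos
      linarith
  · have hdw : det3 y z w = 0 := by
      rw [← hD]
      simp only [det3_def, dt_def, cr_apply0, cr_apply1, cr_apply2]; ring
    obtain ⟨a, b, rfl⟩ := mem_plane hyz hdw
    exact h.perp_comb hm hyz h1 h2 a b hw

/-- Normal form: after a linear change of coordinates, distance `π / 2` means orthogonality. -/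
theorem normal_form (h : EllD D) :
    ∃ P : V3 ≃ₗ[ℝ] V3, ∀ u v, u ≠ 0 → v ≠ 0 → (D (P u) (P v) = π / 2 ↔ dt u v = 0) := by
  choose! T hT using fun (m : V3) (hm : m ≠ 0) => h.exists_polar hm
  have hT0 : ∀ m, m ≠ 0 → T m ≠ 0 := fun m hm => (hT m hm).1
  have hT1 : ∀ m w, m ≠ 0 → w ≠ 0 → (D m w = π / 2 ↔ dt (T m) w = 0) := fun m w hm hw =>
    (hT m hm).2 w hw
  have dsym : ∀ m w, m ≠ 0 → w ≠ 0 → (dt (T m) w = 0 ↔ dt (T w) m = 0) := fun m w hm hw => by
    rw [← hT1 m w hm hw, ← hT1 w m hw hm, h.symm m w hm hw]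
  have det_of_normal : ∀ n u v w : V3, n ≠ 0 → dt n u = 0 → dt n v = 0 → dt n w = 0 →
      det3 u v w = 0 := by
    intro n u v w hn h1 h2 h3
    exact det3_eq_zero_of_mem (finrank_plane hn) (mem_plane_iff.2 h1) (mem_plane_iff.2 h2)
      (mem_plane_iff.2 h3)
  have H : ∀ u ∈ {v : V3 | v ≠ 0}, ∀ v ∈ {v : V3 | v ≠ 0}, ∀ w ∈ {v : V3 | v ≠ 0},
      det3 u v w = 0 ↔ det3 (T u) (T v) (T w) = 0 := by
    intro u hu v hv w hw
    simp only [Set.mem_ofPred_eq] at hu hv hw
    constructor
    · intro h0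
      by_cases huv : cr u v = 0
      · obtain ⟨c, hc⟩ := cr_eq_zero hu huv
        obtain ⟨p, hp, p1, p2, -⟩ := exists_normal (u := T u) (v := T w) (w := T w)
          (by simp only [det3_def]; ring)
        rw [dt_comm] at p1 p2
        have hc0 : c ≠ 0 := by rintro rfl; rw [zero_smul] at hc; exact hv hc
        have p3 : dt (T v) p = 0 := by
          rw [← hT1 v p hv hp, hc, h.smul' c u p hc0 hu hp, hT1 u p hu hp]
          exact p1
        rw [dt_comm] at p1 p2 p3
        exact det_of_normal p _ _ _ hp p1 p3 p2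
      · obtain ⟨p, hp, p1, p2, -⟩ := exists_normal (u := T u) (v := T v) (w := T v)
          (by simp only [det3_def]; ring)
        have q1 : D p u = π / 2 := by
          rw [h.symm p u hp hu, hT1 u p hu hp, dt_comm]; exact p1
        have q2 : D p v = π / 2 := by
          rw [h.symm p v hp hv, hT1 v p hv hp, dt_comm]; exact p2
        obtain ⟨a, b, rfl⟩ := mem_plane huv h0
        have q3 := h.perp_comb hp huv q1 q2 a b hw
        rw [h.symm _ _ hp hw, hT1 _ _ hw hp, dt_comm] at q3
        exact det_of_normal p _ _ _ hp p1 p2 q3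
    · intro h0
      obtain ⟨n, hn, n1, n2, n3⟩ := exists_normal h0
      rw [dt_comm, dsym u n hu hn] at n1
      rw [dt_comm, dsym v n hv hn] at n2
      rw [dt_comm, dsym w n hw hn] at n3
      exact det_of_normal (T n) _ _ _ (hT0 n hn) n1 n2 n3
  have hcone : Cone {v : V3 | v ≠ 0} := by
    refine ⟨by simp, fun c hc u hu => smul_ne_zero hc.ne' hu, fun u hu v hv huv => ?_⟩
    intro h0
    apply huv
    have : v = -u := by rw [eq_neg_iff_add_eq_zero, add_comm]; exact h0
    rw [this]; apply v3_ext <;> simp <;> ring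
  obtain ⟨G, hG⟩ := FT hcone (a := E1) (b := E2) (c := E3) (by
      simp only [Set.mem_ofPred_eq]; intro h0; have := congrFun h0 0; simp [E1] at this)
    (by simp only [Set.mem_ofPred_eq]; intro h0; have := congrFun h0 1; simp [E2] at this)
    (by simp only [Set.mem_ofPred_eq]; intro h0; have := congrFun h0 2; simp [E3] at this)
    (by simp [det3_def, E1, E2, E3]) H
  -- the bilinear form
  set B : V3 → V3 → ℝ := fun u v => dt (G u) v with hB
  have hB1 : ∀ u v, u ≠ 0 → v ≠ 0 → (D u v = π / 2 ↔ B u v = 0) := by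
    intro u v hu hv
    rw [hT1 u v hu hv]
    obtain ⟨k, hk, hk2⟩ := hG u hu
    rw [hk2]
    have : dt (k • G u) v = k * B u v := by
      simp only [hB, dt_def, Pi.smul_apply, smul_eq_mul]; ring
    rw [this, mul_eq_zero]
    constructor
    · rintro (h0 | h0)
      · exact absurd h0 hk
      · exact h0
    · intro h0; exact Or.inr h0
  -- an orthogonal basis
  have hE1 : E1 ≠ 0 := by intro h0; have := congrFun h0 0; simp [E1] at this
  have hE12 : cr E1 E2 ≠ 0 := by
    intro h0; have := congrFun h0 2; simp [E1, E2] at this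
  obtain ⟨κ, hκ⟩ := h.exists_perp hE12
  set a := E1 with ha
  set b := E2 + κ • a with hb
  have hb0 : b ≠ 0 := add_smul_ne hE12 _
  obtain ⟨c, hc0, c1, c2, -⟩ := exists_normal (u := T a) (v := T b) (w := T b)
    (by simp only [det3_def]; ring)
  rw [dt_comm, ← hT1 a c hE1 hc0] at c1
  rw [dt_comm, ← hT1 b c hb0 hc0] at c2
  have hab := h.perp_cr hE1 hb0 hκ
  have habc : det3 a b c ≠ 0 := by
    intro h0
    obtain ⟨x, y, hxy⟩ := mem_plane hab h0
    have d1 : D c a = π / 2 := by rw [h.symm _ _ hc0 hE1]; exact c1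
    have d2 : D c b = π / 2 := by rw [h.symm _ _ hc0 hb0]; exact c2
    have := h.perp_comb hc0 hab d1 d2 x y (by rw [← hxy]; exact hc0)
    rw [← hxy, h.self hc0] at this
    have := Real.pi_pos
    linarith
  have hself : ∀ u, u ≠ 0 → B u u ≠ 0 := by
    intro u hu h0
    rw [← hB1 u u hu hu, h.self hu] at h0
    have := Real.pi_pos
    linarith
  have Bab : B a b = 0 := (hB1 _ _ hE1 hb0).1 hκ
  have Bac : B a c = 0 := (hB1 _ _ hE1 hc0).1 c1
  have Bbc : B b c = 0 := (hB1 _ _ hb0 hc0).1 c2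
  have Bba : B b a = 0 := (hB1 _ _ hb0 hE1).1 (by rw [h.symm _ _ hb0 hE1]; exact hκ)
  have Bca : B c a = 0 := (hB1 _ _ hc0 hE1).1 (by rw [h.symm _ _ hc0 hE1]; exact c1)
  have Bcb : B c b = 0 := (hB1 _ _ hc0 hb0).1 (by rw [h.symm _ _ hc0 hb0]; exact c2)
  have hBlin : ∀ x y : V3, B (x 0 • a + x 1 • b + x 2 • c) (y 0 • a + y 1 • b + y 2 • c) =
      B a a * (x 0 * y 0) + B b b * (x 1 * y 1) + B c c * (x 2 * y 2) := by
    intro x y
    have e : ∀ u v w z : V3, ∀ p q r : ℝ, B u (p • v + q • w + r • z) = p * B u v + q * B u w + r * B u z := by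
      intro u v w z p q r
      simp only [hB, dt_def, Pi.add_apply, Pi.smul_apply, smul_eq_mul]; ring
    have e' : ∀ u v w z : V3, ∀ p q r : ℝ, B (p • v + q • w + r • z) u = p * B v u + q * B w u + r * B z u := by
      intro u v w z p q r
      simp only [hB, map_add, map_smul, dt_def, Pi.add_apply, Pi.smul_apply, smul_eq_mul]; ring
    rw [e, e', e', e', Bab, Bac, Bbc, Bba, Bca, Bcb]; ring
  -- the signs agree
  have sign : ∀ u v : V3, cr u v ≠ 0 → B u v = 0 → B v u = 0 → 0 < B u u → B v v < 0 → False := by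
    intro u v huv h1 h2 hp hn
    set s := Real.sqrt (-B v v) with hs
    set t := Real.sqrt (B u u) with ht
    have hs2 : s ^ 2 = -B v v := Real.sq_sqrt (by linarith)
    have ht2 : t ^ 2 = B u u := Real.sq_sqrt hp.le
    have hs0 : 0 < s := Real.sqrt_pos.2 (by linarith)
    have hne : s • u + t • v ≠ 0 := by
      intro h0
      have e : cr (s • u + t • v) v = s • cr u v := by
        apply v3_ext <;> simp only [cr_apply0, cr_apply1, cr_apply2, Pi.add_apply, Pi.smul_apply,
          smul_eq_mul] <;> ring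
      rw [h0] at e
      have z1 : cr (0 : V3) v = 0 := by apply v3_ext <;> simp
      rw [z1] at e
      exact smul_ne_zero hs0.ne' huv e.symm
    apply hself _ hne
    have e : B (s • u + t • v) (s • u + t • v) = s ^ 2 * B u u + s * t * (B u v + B v u) + t ^ 2 * B v v := by
      simp only [hB, map_add, map_smul, dt_def, Pi.add_apply, Pi.smul_apply, smul_eq_mul]; ring
    rw [e, hs2, ht2, h1, h2]; ring
  have hba : cr b a ≠ 0 := by
    intro h0; apply hab
    have : cr a b = -cr b a := by apply v3_ext <;> simp <;> ring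
    rw [this, h0, neg_zero]
  have hac : cr a c ≠ 0 := h.perp_cr hE1 hc0 c1
  have hca : cr c a ≠ 0 := by
    intro h0; apply hac
    have : cr a c = -cr c a := by apply v3_ext <;> simp <;> ring
    rw [this, h0, neg_zero]
  -- a common sign
  obtain ⟨ε, hε, pa, pb, pc⟩ : ∃ ε : ℝ, ε ≠ 0 ∧ 0 < ε * B a a ∧ 0 < ε * B b b ∧ 0 < ε * B c c := by
    rcases lt_or_gt_of_ne (hself a hE1) with h1 | h1
    · have h2 : B b b < 0 := by
        rcases lt_or_gt_of_ne (hself b hb0) with h2 | h2
        · exact h2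
        · exact (sign b a hba Bba Bab h2 h1).elim
      have h3 : B c c < 0 := by
        rcases lt_or_gt_of_ne (hself c hc0) with h3 | h3
        · exact h3
        · exact (sign c a hca Bca Bac h3 h1).elim
      exact ⟨-1, by norm_num, by linarith, by linarith, by linarith⟩
    · have h2 : 0 < B b b := by
        rcases lt_or_gt_of_ne (hself b hb0) with h2 | h2
        · exact (sign a b hab Bab Bba h1 h2).elim
        · exact h2
      have h3 : 0 < B c c := by
        rcases lt_or_gt_of_ne (hself c hc0) with h3 | h3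
        · exact (sign a c hac Bac Bca h1 h3).elim
        · exact h3
      exact ⟨1, by norm_num, by linarith, by linarith, by linarith⟩
  set ra := Real.sqrt (ε * B a a) with hra
  set rb := Real.sqrt (ε * B b b) with hrb
  set rc := Real.sqrt (ε * B c c) with hrc
  have ra0 : 0 < ra := Real.sqrt_pos.2 pa
  have rb0 : 0 < rb := Real.sqrt_pos.2 pb
  have rc0 : 0 < rc := Real.sqrt_pos.2 pc
  have ra2 : ra ^ 2 = ε * B a a := Real.sq_sqrt pa.le
  have rb2 : rb ^ 2 = ε * B b b := Real.sq_sqrt pb.le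
  have rc2 : rc ^ 2 = ε * B c c := Real.sq_sqrt pc.le
  have hdet' : det3 (ra⁻¹ • a) (rb⁻¹ • b) (rc⁻¹ • c) ≠ 0 := by
    rw [det3_smul]
    exact mul_ne_zero (by positivity) habc
  refine ⟨linOf _ _ _ hdet', fun u v hu hv => ?_⟩
  have hPu : linOf _ _ _ hdet' u ≠ 0 := fun h0 => hu ((linOf _ _ _ hdet').map_eq_zero_iff.1 h0)
  have hPv : linOf _ _ _ hdet' v ≠ 0 := fun h0 => hv ((linOf _ _ _ hdet').map_eq_zero_iff.1 h0)
  rw [hB1 _ _ hPu hPv]
  have e : ∀ x : V3, linOf _ _ _ hdet' x =
      (![x 0 * ra⁻¹, x 1 * rb⁻¹, x 2 * rc⁻¹] : V3) 0 • a + (![x 0 * ra⁻¹, x 1 * rb⁻¹, x 2 * rc⁻¹] : V3) 1 • b +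
      (![x 0 * ra⁻¹, x 1 * rb⁻¹, x 2 * rc⁻¹] : V3) 2 • c := by
    intro x
    rw [linOf_apply]
    simp only [Matrix.cons_val, smul_smul]
  rw [e u, e v, hBlin]
  simp only [Matrix.cons_val]
  have key : ε * (B a a * (u 0 * ra⁻¹ * (v 0 * ra⁻¹)) + B b b * (u 1 * rb⁻¹ * (v 1 * rb⁻¹)) +
      B c c * (u 2 * rc⁻¹ * (v 2 * rc⁻¹))) = dt u v := by
    have e1 : ε * B a a * (ra⁻¹ * ra⁻¹) = 1 := by rw [← ra2]; field_simp
    have e2 : ε * B b b * (rb⁻¹ * rb⁻¹) = 1 := by rw [← rb2]; field_simp
    have e3 : ε * B c c * (rc⁻¹ * rc⁻¹) = 1 := by rw [← rc2]; field_simp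
    simp only [dt_def]
    linear_combination (u 0 * v 0) * e1 + (u 1 * v 1) * e2 + (u 2 * v 2) * e3
  rw [← key, mul_eq_zero]
  constructor
  · intro h0; exact Or.inr h0
  · rintro (h0 | h0)
    · exact absurd h0 hε
    · exact h0

end EllD

end Pool.Agent.ProjMetric
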