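import Mathlib
import Pool.Agent.ProjMetric93.EllB

open Set Real Filter Topology

namespace Pool.Agent.ProjMetric

/-- the point at angle `s` on the circle through the orthonormal vectors `e, f` -/
noncomputable def cir (e f : V3) (s : ℝ) : V3 := cos s • e + sin s • f

lemma cir_zero (e f : V3) : cir e f 0 = e := by simp [cir]

lemma dt_cir (e f : V3) (he : dt e e = 1) (hf : dt f f = 1) (hef : dt e f = 0) (s t : ℝ) :
    dt (cir e f s) (cir e f t) = cos (s - t) := by
  have : dt (cir e f s) (cir e f t) = cos s * cos t * dt e e + (cos s * sin t + sin s * cos t) * dt e f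
      + sin s * sin t * dt f f := by
    simp only [cir, dt_def, Pi.add_apply, Pi.smul_apply, smul_eq_mul]; ring
  rw [this, he, hf, hef, cos_sub]; ring

lemma cr_cir (e f : V3) (s t : ℝ) : cr (cir e f s) (cir e f t) = sin (t - s) • cr e f := by
  rw [sin_sub]
  apply v3_ext <;> simp only [cir, cr_apply0, cr_apply1, cr_apply2, Pi.add_apply, Pi.smul_apply,
    smul_eq_mul] <;> ring

lemma cir_ne {e f : V3} (hef : cr e f ≠ 0) (s : ℝ) : cir e f s ≠ 0 := by
  intro h0
  have h1 := cr_cir e f s (s + π / 2)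
  rw [h0, show s + π / 2 - s = π / 2 by ring, sin_pi_div_two, one_smul] at h1
  apply hef
  rw [← h1]; apply v3_ext <;> simp

lemma det3_cir (e f : V3) (s t r : ℝ) : det3 (cir e f s) (cir e f t) (cir e f r) = 0 := by
  simp only [cir, det3_def, Pi.add_apply, Pi.smul_apply, smul_eq_mul]; ring

lemma continuous_cir (e f : V3) : Continuous (cir e f) := by
  unfold cir; fun_prop

lemma cr_ne_of_orth {e f : V3} (he : dt e e = 1) (hf : dt f f = 1) (hef : dt e f = 0) :
    cr e f ≠ 0 := by
  intro h0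
  have he0 : e ≠ 0 := by rintro rfl; simp [dt_def] at he
  obtain ⟨c, rfl⟩ := cr_eq_zero he0 h0
  have h1 : dt e (c • e) = c * dt e e := by
    simp only [dt_def, Pi.smul_apply, smul_eq_mul]; ring
  rw [h1, he, mul_one] at hef
  rw [hef, zero_smul] at hf
  simp [dt_def] at hf

/-- elliptic distance functions in normal form -/
structure EllN (D : V3 → V3 → ℝ) : Prop extends EllD D where
  perp : ∀ u v, u ≠ 0 → v ≠ 0 → (D u v = π / 2 ↔ dt u v = 0)

namespace EllN

variable {D : V3 → V3 → ℝ}

/-- monotonicity of the distance along a line -/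
lemma mono (h : EllN D) {e f : V3} (he : dt e e = 1) (hf : dt f f = 1) (hef : dt e f = 0)
    {a b : ℝ} (ha : 0 ≤ a) (hab : a ≤ b) (hb : b ≤ π / 2) :
    D e (cir e f a) ≤ D e (cir e f b) := by
  have hcr := cr_ne_of_orth he hf hef
  have he0 : e ≠ 0 := (EllD.ne_of_cr hcr).1
  have hF : Continuous (fun t => D e (cir e f t)) := by
    rw [← continuousOn_univ]
    exact h.toEllD.cont_path he0 (continuous_cir e f) (fun t _ => cir_ne hcr t)
  have F0 : D e (cir e f 0) = 0 := by rw [cir_zero]; exact h.toEllD.self he0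
  have Fh : D e (cir e f (π / 2)) = π / 2 := by
    rw [h.perp e _ he0 (cir_ne hcr _)]
    have := dt_cir e f he hf hef 0 (π / 2)
    rw [cir_zero, show (0 : ℝ) - π / 2 = -(π / 2) by ring, cos_neg, cos_pi_div_two] at this
    exact this
  by_contra hcon
  push Not at hcon
  have hle := h.toEllD.le_half he0 (cir_ne hcr a)
  have hge := h.toEllD.nonneg he0 (cir_ne hcr b)
  set r := (D e (cir e f a) + D e (cir e f b)) / 2 with hr
  have r1 : D e (cir e f b) < r := by rw [hr]; linarith
  have r2 : r < D e (cir e f a) := by rw [hr]; linarith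
  have r0 : 0 < r := by linarith
  have r3 : r < π / 2 := by linarith
  have hab' : a < b := lt_of_le_of_ne hab (by rintro rfl; exact lt_irrefl _ hcon)
  obtain ⟨s1, ⟨s1a, s1b⟩, hs1⟩ : r ∈ (fun t => D e (cir e f t)) '' Ioo 0 a := by
    apply intermediate_value_Ioo ha hF.continuousOn
    exact ⟨by simp only [F0]; exact r0, r2⟩
  obtain ⟨s2, ⟨s2a, s2b⟩, hs2⟩ : r ∈ (fun t => D e (cir e f t)) '' Ioo a b := by
    apply intermediate_value_Ioo' hab hF.continuousOn
    exact ⟨r1, r2⟩
  obtain ⟨s3, ⟨s3a, s3b⟩, hs3⟩ : r ∈ (fun t => D e (cir e f t)) '' Ioo b (π / 2) := by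
    apply intermediate_value_Ioo hb hF.continuousOn
    exact ⟨r1, by simp only [Fh]; exact r3⟩
  have hs1' : D e (cir e f s1) = r := hs1
  have hs2' : D e (cir e f s2) = r := hs2
  have hs3' : D e (cir e f s3) = r := hs3
  have sn : ∀ x y : ℝ, 0 < x → x < y → y < π / 2 → cr (cir e f x) (cir e f y) ≠ 0 := by
    intro x y hx hxy hy
    rw [cr_cir]
    refine smul_ne_zero (sin_pos_of_pos_of_lt_pi (by linarith) ?_).ne' hcr
    have := Real.pi_pos
    linarith
  exact h.convex e _ _ _ r he0 (cir_ne hcr s1) (cir_ne hcr s2) (cir_ne hcr s3) r0 r3 hs1' hs2' hs3'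
    (sn s1 s2 s1a (by linarith) (by linarith)) (sn s2 s3 (by linarith) (by linarith) s3b)
    (sn s1 s3 s1a (by linarith) s3b) (det3_cir e f s1 s2 s3)

/-- comparison of distances along a chain -/
lemma step (h : EllN D) {y v w : V3} (hy : dt y y = 1) (hv : dt y v = 0) (hw : dt y w = 0)
    (hvw : dt v w = dt v v) : D y (y + v) ≤ D y (y + w) := by
  have hy0 : y ≠ 0 := by rintro rfl; simp [dt_def] at hy
  by_cases hv0 : v = 0
  · subst hv0
    rw [add_zero, h.toEllD.self hy0]
    apply h.toEllD.nonneg hy0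
    intro h0
    have : dt y (y + w) = dt y y + dt y w := by simp only [dt_def, Pi.add_apply]; ring
    rw [h0, hy, hw] at this
    simp [dt_def] at this
  have hvv := dt_self_pos hv0
  have n1 : y + v ≠ 0 := by
    intro h0
    have : dt y (y + v) = dt y y + dt y v := by simp only [dt_def, Pi.add_apply]; ring
    rw [h0, hy, hv] at this
    simp [dt_def] at this
  have n2 : y + w ≠ 0 := by
    intro h0
    have : dt y (y + w) = dt y y + dt y w := by simp only [dt_def, Pi.add_apply]; ring
    rw [h0, hy, hw] at this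
    simp [dt_def] at this
  set g : V3 := -(dt v v) • y + v with hg
  have ng : g ≠ 0 := by
    intro h0
    have : dt v g = -(dt v v) * dt y v + dt v v := by
      simp only [hg, dt_def, Pi.add_apply, Pi.smul_apply, smul_eq_mul]; ring
    rw [h0, hv] at this
    simp [dt_def] at this
    simp only [dt_def] at hvv
    linarith
  have p1 : D (y + v) g = π / 2 := by
    rw [h.perp _ _ n1 ng]
    have : dt (y + v) g = -(dt v v) * dt y y + dt y v - dt v v * dt y v + dt v v := by
      simp only [hg, dt_def, Pi.add_apply, Pi.smul_apply, smul_eq_mul]; ring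
    rw [this, hy, hv]; ring
  have p2 : D (y + w) g = π / 2 := by
    rw [h.perp _ _ n2 ng]
    have : dt (y + w) g = -(dt v v) * dt y y + dt y v - dt v v * dt y w + dt v w := by
      simp only [hg, dt_def, Pi.add_apply, Pi.smul_apply, smul_eq_mul]; ring
    rw [this, hy, hv, hw, hvw]; ring
  have b1 := h.toEllD.between n1 ng hy0 p1 (by
    simp only [hg, det3_def, Pi.add_apply, Pi.smul_apply, smul_eq_mul]; ring)
  have t1 := h.toEllD.tri (y + w) y g n2 hy0 ng
  rw [p2] at t1
  rw [h.toEllD.symm (y + v) y n1 hy0] at b1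
  rw [h.toEllD.symm (y + w) y n2 hy0] at t1
  linarith

/-- chain of `k` steps of angle `δ` -/
lemma chain (h : EllN D) {y p q : V3} (hy : dt y y = 1) (hyp : dt y p = 0) (hyq : dt y q = 0)
    (hp : dt p p = 1) (hq : dt q q = 1) (hpq : dt p q = 0) {ρ δ : ℝ} (hδ : cos δ ≠ 0) (k : ℕ) :
    D y (y + ρ • p) ≤ D y (y + (ρ / cos δ ^ k) • cir p q (k * δ)) := by
  induction k with
  | zero => simp [cir_zero]
  | succ k ih =>
    refine ih.trans ?_
    apply h.step hy
    · have : dt y ((ρ / cos δ ^ k) • cir p q (k * δ)) =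
          (ρ / cos δ ^ k) * (cos (k * δ) * dt y p + sin (k * δ) * dt y q) := by
        simp only [cir, dt_def, Pi.add_apply, Pi.smul_apply, smul_eq_mul]; ring
      rw [this, hyp, hyq]; ring
    · have : dt y ((ρ / cos δ ^ (k + 1)) • cir p q ((k + 1 : ℕ) * δ)) =
          (ρ / cos δ ^ (k + 1)) * (cos ((k + 1 : ℕ) * δ) * dt y p + sin ((k + 1 : ℕ) * δ) * dt y q) := by
        simp only [cir, dt_def, Pi.add_apply, Pi.smul_apply, smul_eq_mul]; ring
      rw [this, hyp, hyq]; ring
    · have e1 : ∀ (a b : ℝ) (u v : V3), dt (a • u) (b • v) = a * b * dt u v := by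
        intro a b u v; simp only [dt_def, Pi.smul_apply, smul_eq_mul]; ring
      rw [e1, e1, dt_cir p q hp hq hpq, dt_cir p q hp hq hpq]
      have e2 : (k : ℝ) * δ - ((k + 1 : ℕ) : ℝ) * δ = -δ := by push_cast; ring
      rw [e2, cos_neg, sub_self, cos_zero, pow_succ]
      field_simp

lemma tendsto_cos_pow : Tendsto (fun n : ℕ => cos (π / n) ^ n) atTop (𝓝 1) := by
  have hlow : ∀ᶠ n : ℕ in atTop, 1 - π ^ 2 / (2 * n) ≤ cos (π / n) ^ n := by
    filter_upwards [eventually_ge_atTop 4] with n hn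
    have hn0 : (0 : ℝ) < n := by positivity
    have hn4 : (4 : ℝ) ≤ n := by exact_mod_cast hn
    have h1 : 1 - (π / n) ^ 2 / 2 ≤ cos (π / n) := one_sub_sq_div_two_le_cos
    have hpi := Real.pi_lt_four
    have h2 : π / n ≤ 1 := by
      rw [div_le_one hn0]; linarith
    have h20 : 0 ≤ π / n := by positivity
    have h3 : -2 ≤ -((π / n) ^ 2 / 2) := by nlinarith
    have h4 := one_add_mul_le_pow h3 n
    have h5 : 0 ≤ 1 + -((π / n) ^ 2 / 2) := by nlinarith
    calc 1 - π ^ 2 / (2 * n) = 1 + n * -((π / n) ^ 2 / 2) := by field_simp; ring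
      _ ≤ (1 + -((π / n) ^ 2 / 2)) ^ n := h4
      _ ≤ cos (π / n) ^ n := by
          apply pow_le_pow_left₀ h5
          linarith
  have hup : ∀ᶠ n : ℕ in atTop, cos (π / n) ^ n ≤ 1 := by
    filter_upwards [eventually_ge_atTop 4] with n hn
    have hn0 : (0 : ℝ) < n := by positivity
    have hn4 : (4 : ℝ) ≤ n := by exact_mod_cast hn
    have hpos : 0 ≤ cos (π / n) := by
      apply cos_nonneg_of_neg_pi_div_two_le_of_le
      · have : 0 ≤ π / n := by positivity
        have := Real.pi_pos
        linarith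
      · apply div_le_div_of_nonneg_left Real.pi_pos.le (by norm_num) (by linarith)
    exact pow_le_one₀ hpos (cos_le_one _)
  have hlim : Tendsto (fun n : ℕ => 1 - π ^ 2 / (2 * n)) atTop (𝓝 1) := by
    have h1 : Tendsto (fun n : ℕ => (π ^ 2 / 2) / (n : ℝ)) atTop (𝓝 0) :=
      tendsto_const_div_atTop_nhds_zero_nat _
    have h2 := h1.const_sub 1
    rw [sub_zero] at h2
    refine h2.congr fun n => ?_
    rw [div_div]
  exact tendsto_of_tendsto_of_tendsto_of_le_of_le' hlim tendsto_const_nhds hlow hup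

/-- reflection in a point, one inequality -/
lemma refl_le (h : EllN D) {y p q : V3} (hy : dt y y = 1) (hyp : dt y p = 0) (hyq : dt y q = 0)
    (hp : dt p p = 1) (hq : dt q q = 1) (hpq : dt p q = 0) (ρ : ℝ) :
    D y (y + ρ • p) ≤ D y (y + (-ρ) • p) := by
  have hy0 : y ≠ 0 := by rintro rfl; simp [dt_def] at hy
  have hne : ∀ c : ℝ, y + c • p ≠ 0 := by
    intro c h0
    have : dt y (y + c • p) = dt y y + c * dt y p := by
      simp only [dt_def, Pi.add_apply, Pi.smul_apply, smul_eq_mul]; ring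
    rw [h0, hy, hyp] at this
    simp [dt_def] at this
  have hF : Continuous (fun c : ℝ => D y (y + c • p)) := by
    rw [← continuousOn_univ]
    exact h.toEllD.cont_path hy0 (by fun_prop) (fun t _ => hne t)
  have h1 : ∀ᶠ n : ℕ in atTop, D y (y + ρ • p) ≤ D y (y + (-(ρ / cos (π / n) ^ n)) • p) := by
    filter_upwards [eventually_ge_atTop 4] with n hn
    have hn0 : (0 : ℝ) < n := by positivity
    have hn4 : (4 : ℝ) ≤ n := by exact_mod_cast hn
    have hpos : 0 < cos (π / n) := by
      apply cos_pos_of_mem_Ioo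
      constructor
      · have : 0 ≤ π / n := by positivity
        have := Real.pi_pos
        linarith
      · apply div_lt_div_of_pos_left Real.pi_pos (by norm_num) (by linarith)
    have := h.chain hy hyp hyq hp hq hpq (ρ := ρ) hpos.ne' n
    have e : (n : ℝ) * (π / n) = π := by field_simp
    rw [e] at this
    have e2 : cir p q π = -p := by simp [cir]
    rw [e2, smul_neg, ← neg_smul] at this
    exact this
  have h2 : Tendsto (fun n : ℕ => D y (y + (-(ρ / cos (π / n) ^ n)) • p)) atTop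
      (𝓝 (D y (y + (-ρ) • p))) := by
    have h3 : Tendsto (fun n : ℕ => -(ρ / cos (π / n) ^ n)) atTop (𝓝 (-ρ)) := by
      have := (tendsto_const_nhds (x := ρ)).div tendsto_cos_pow one_ne_zero
      rw [div_one] at this
      exact this.neg
    exact (hF.tendsto (-ρ)).comp h3
  exact ge_of_tendsto h2 h1

/-- reflection in a point -/
lemma refl_eq (h : EllN D) {y p : V3} (hy : dt y y = 1) (hyp : dt y p = 0)
    (hp : dt p p = 1) (ρ : ℝ) :
    D y (y + ρ • p) = D y (y + (-ρ) • p) := by
  set q := cr y p with hq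
  have q1 : dt y q = 0 := by simp only [hq, dt_def, cr_apply0, cr_apply1, cr_apply2]; ring
  have q2 : dt p q = 0 := by simp only [hq, dt_def, cr_apply0, cr_apply1, cr_apply2]; ring
  have q3 : dt q q = 1 := by
    have : dt q q = dt y y * dt p p - dt y p ^ 2 := by
      simp only [hq, dt_def, cr_apply0, cr_apply1, cr_apply2]; ring
    rw [this, hy, hp, hyp]; ring
  apply le_antisymm
  · exact h.refl_le hy hyp q1 hp q3 q2 ρ
  · have := h.refl_le hy hyp q1 hp q3 q2 (-ρ)
    rwa [neg_neg] at this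

/-- symmetry of the distance on a line -/
lemma sym_line (h : EllN D) {e f : V3} (he : dt e e = 1) (hf : dt f f = 1) (hef : dt e f = 0)
    (s a : ℝ) (ha : 0 < a) (ha2 : a < π / 2) :
    D (cir e f s) (cir e f (s + a)) = D (cir e f s) (cir e f (s - a)) := by
  have hcr := cr_ne_of_orth he hf hef
  set y := cir e f s with hy
  set p := cir e f (s + π / 2) with hp
  have y1 : dt y y = 1 := by rw [hy, dt_cir e f he hf hef, sub_self, cos_zero]
  have p1 : dt p p = 1 := by rw [hp, dt_cir e f he hf hef, sub_self, cos_zero]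
  have yp : dt y p = 0 := by
    rw [hy, hp, dt_cir e f he hf hef, show s - (s + π / 2) = -(π / 2) by ring, cos_neg,
      cos_pi_div_two]
  have hc : 0 < cos a := cos_pos_of_mem_Ioo ⟨by linarith, ha2⟩
  have hy0 : y ≠ 0 := cir_ne hcr _
  have e1 : cir e f (s + a) = cos a • (y + tan a • p) := by
    rw [tan_eq_sin_div_cos]
    apply v3_ext <;> simp only [hy, hp, cir, Pi.add_apply, Pi.smul_apply, smul_eq_mul, cos_add,
      sin_add, cos_pi_div_two, sin_pi_div_two] <;> field_simp <;> ring
  have e2 : cir e f (s - a) = cos a • (y + (-tan a) • p) := by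
    rw [tan_eq_sin_div_cos]
    apply v3_ext <;> simp only [hy, hp, cir, Pi.add_apply, Pi.smul_apply, smul_eq_mul, cos_add,
      sin_add, cos_sub, sin_sub, cos_pi_div_two, sin_pi_div_two] <;> field_simp <;> ring
  have n1 : y + tan a • p ≠ 0 := by
    intro h0; rw [h0, smul_zero] at e1; exact cir_ne hcr _ e1
  have n2 : y + (-tan a) • p ≠ 0 := by
    intro h0; rw [h0, smul_zero] at e2; exact cir_ne hcr _ e2
  rw [e1, e2, h.smul _ _ _ hc.ne' hy0 n1, h.smul _ _ _ hc.ne' hy0 n2]
  exact h.refl_eq y1 yp p1 _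

/-- The distance in normal form on a line. -/
lemma line_eq (h : EllN D) {e f : V3} (he : dt e e = 1) (hf : dt f f = 1) (hef : dt e f = 0)
    {a : ℝ} (ha : 0 ≤ a) (ha2 : a ≤ π / 2) : D e (cir e f a) = a := by
  have hcr := cr_ne_of_orth he hf hef
  have he0 : e ≠ 0 := (EllD.ne_of_cr hcr).1
  have hpi := Real.pi_pos
  obtain ⟨θ', hθ', -⟩ := h.line e f hcr
  set θ : ℝ → CC := fun s => θ' (cir e f s) with hθdef
  have hd : ∀ s, det3 e f (cir e f s) = 0 := by
    intro s; simp only [cir, det3_def, Pi.add_apply, Pi.smul_apply, smul_eq_mul]; ring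
  have hθ : ∀ s t, D (cir e f s) (cir e f t) = ‖θ s - θ t‖ := fun s t =>
    hθ' _ _ (cir_ne hcr s) (cir_ne hcr t) (hd s) (hd t)
  -- Jensen equation
  have jen : ∀ s a, 0 < a → a < π / 2 → θ (s + a) - θ s = θ s - θ (s - a) := by
    intro s a ha ha2
    have h1 := h.sym_line he hf hef s a ha ha2
    rw [hθ, hθ] at h1
    rcases cc_norm_eq h1 with h2 | h2
    · exfalso
      have h3 : θ (s + a) = θ (s - a) := sub_right_injective h2
      have h4 : D (cir e f (s + a)) (cir e f (s - a)) = 0 := by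
        rw [hθ, h3, sub_self, norm_zero]
      rw [h.zero _ _ (cir_ne hcr _) (cir_ne hcr _), cr_cir] at h4
      have h5 : sin (s - a - (s + a)) ≠ 0 := by
        rw [show s - a - (s + a) = -(2 * a) by ring, sin_neg]
        exact neg_ne_zero.2 (sin_pos_of_pos_of_lt_pi (by linarith) (by linarith)).ne'
      exact (smul_ne_zero h5 hcr) h4
    · have h3 : θ (s + a) - θ s = -(θ s - θ (s + a)) := by abel
      rw [h3, h2, neg_neg]
  -- multiples
  have mult : ∀ δ, 0 < δ → δ < π / 2 → ∀ k : ℕ, θ (k * δ) - θ 0 = k • (θ δ - θ 0) := by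
    intro δ h1 h2 k
    have diff : ∀ k : ℕ, θ ((k + 1 : ℕ) * δ) - θ (k * δ) = θ δ - θ 0 := by
      intro k
      induction k with
      | zero => simp
      | succ k ih =>
        have := jen (((k + 1 : ℕ) : ℝ) * δ) δ h1 h2
        rw [← ih]
        have e1 : ((k + 1 : ℕ) : ℝ) * δ + δ = ((k + 1 + 1 : ℕ) : ℝ) * δ := by push_cast; ring
        have e2 : ((k + 1 : ℕ) : ℝ) * δ - δ = (k : ℝ) * δ := by push_cast; ring
        rw [e1, e2] at this
        exact this
    induction k with
    | zero => simp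
    | succ k ih =>
      rw [succ_nsmul, ← ih, ← diff k]; abel
  -- κ
  set κ : ℝ → ℝ := fun a => D e (cir e f a) with hκ
  have κθ : ∀ a, κ a = ‖θ a - θ 0‖ := by
    intro a
    have := hθ 0 a
    rw [cir_zero] at this
    simp only [hκ]
    rw [this, norm_sub_rev]
  have κh : κ (π / 2) = π / 2 := by
    simp only [hκ]
    rw [h.perp e _ he0 (cir_ne hcr _)]
    have := dt_cir e f he hf hef 0 (π / 2)
    rw [cir_zero, show (0 : ℝ) - π / 2 = -(π / 2) by ring, cos_neg, cos_pi_div_two] at this
    exact this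
  have κmono : ∀ a b, 0 ≤ a → a ≤ b → b ≤ π / 2 → κ a ≤ κ b := fun a b h1 h2 h3 =>
    h.mono he hf hef h1 h2 h3
  -- dyadic angles
  have dyad : ∀ k : ℕ, κ (π / 2 / 2 ^ (k + 1)) = π / 2 / 2 ^ (k + 1) := by
    intro k
    induction k with
    | zero =>
      -- 2 (θ(π/4) - θ 0) = θ (π/2) - θ 0
      have h1 := mult (π / 4) (by positivity) (by linarith) 2
      have e1 : ((2 : ℕ) : ℝ) * (π / 4) = π / 2 := by push_cast; ring
      rw [e1] at h1
      have h2 : θ (π / 2) - θ 0 = ((π / 2 : ℝ) : CC) := cc_eq_half (by rw [← κθ]; exact κh)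
      obtain ⟨t, ht, ht2⟩ := cc_rep (θ (π / 4) - θ 0)
      rw [h2, ← ht2] at h1
      have h3 : ((π / 2 - 2 * t : ℝ) : CC) = 0 := by
        rw [AddCircle.coe_sub, h1, two_mul, AddCircle.coe_add, two_nsmul, sub_self]
      rw [AddCircle.coe_eq_zero_iff] at h3
      obtain ⟨n, hn⟩ := h3
      rw [zsmul_eq_mul] at hn
      -- n π = π/2 - 2 t, |t| ≤ π/2
      obtain ⟨t1, t2⟩ := abs_le.1 ht
      have n1 : (n : ℝ) * π ≤ 3 / 2 * π := by rw [hn]; linarith
      have n2 : -(1 / 2) * π ≤ (n : ℝ) * π := by rw [hn]; linarith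
      have n3 : (n : ℝ) ≤ 3 / 2 := le_of_mul_le_mul_right n1 hpi
      have n4 : -(1 / 2) ≤ (n : ℝ) := le_of_mul_le_mul_right n2 hpi
      have n5 : n = 0 ∨ n = 1 := by
        have a1 : n < 2 := by
          have : (n : ℝ) < 2 := by linarith
          exact_mod_cast this
        have a2 : -1 < n := by
          have : (-1 : ℝ) < n := by linarith
          exact_mod_cast this
        omega
      have e2 : π / 2 / 2 ^ (0 + 1) = π / 4 := by norm_num; ring
      rw [e2, κθ, ← ht2, cc_norm ht]
      rcases n5 with rfl | rfl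
      · have : t = π / 4 := by push_cast at hn; linarith
        rw [this, abs_of_pos (by positivity)]
      · have : t = -(π / 4) := by push_cast at hn; linarith
        rw [this, abs_neg, abs_of_pos (by positivity)]
    | succ k ih =>
      set δ := π / 2 / 2 ^ (k + 1 + 1) with hδ
      have e1 : π / 2 / 2 ^ (k + 1) = 2 * δ := by rw [hδ, pow_succ 2 (k + 1)]; field_simp
      rw [e1] at ih
      have hδ0 : 0 < δ := by positivity
      have hδ8 : δ ≤ π / 8 := by
        rw [hδ, div_div]
        apply div_le_div_of_nonneg_left hpi.le (by norm_num)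
        have : (4 : ℝ) ≤ 2 ^ (k + 1 + 1) := by
          have := pow_le_pow_right₀ (by norm_num : (1:ℝ) ≤ 2) (show 2 ≤ k + 1 + 1 by omega)
          norm_num at this ⊢
          linarith
        linarith
      have h1 := mult δ hδ0 (by linarith) 2
      have e2 : ((2 : ℕ) : ℝ) * δ = 2 * δ := by push_cast; ring
      rw [e2] at h1
      obtain ⟨t, ht, ht2⟩ := cc_rep (θ δ - θ 0)
      have h2 : ‖θ (2 * δ) - θ 0‖ = ‖((2 * δ : ℝ) : CC)‖ := by
        rw [← κθ, ih, cc_norm (by rw [abs_of_pos (by positivity)]; linarith),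
          abs_of_pos (by positivity)]
      have hm := κmono δ (2 * δ) hδ0.le (by linarith) (by linarith)
      rw [ih, κθ, ← ht2, cc_norm ht] at hm
      -- |t| ≤ 2 δ ≤ π/4, so ‖2t‖ = |2 t|
      have h3 : θ (2 * δ) - θ 0 = ((2 * t : ℝ) : CC) := by
        rw [h1, ← ht2, two_mul, AddCircle.coe_add, two_nsmul]
      have b1 : |2 * t| = 2 * |t| := by rw [abs_mul, abs_of_pos (by norm_num : (0:ℝ) < 2)]
      have b2 : |2 * δ| = 2 * δ := abs_of_pos (by positivity)
      rw [h3, cc_norm (by rw [b1]; linarith), cc_norm (by rw [b2]; linarith), b1, b2] at h2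
      rw [κθ, ← ht2, cc_norm ht]
      linarith
  -- multiples of dyadic angles
  have dyad2 : ∀ k j : ℕ, (j : ℝ) * (π / 2 / 2 ^ (k + 1)) ≤ π / 2 →
      κ (j * (π / 2 / 2 ^ (k + 1))) = j * (π / 2 / 2 ^ (k + 1)) := by
    intro k j hj
    set δ := π / 2 / 2 ^ (k + 1) with hδ
    have hδ0 : 0 < δ := by positivity
    have hδ4 : δ ≤ π / 4 := by
      rw [hδ, div_div]
      apply div_le_div_of_nonneg_left hpi.le (by norm_num)
      have : (2 : ℝ) ≤ 2 ^ (k + 1) := by
        have := pow_le_pow_right₀ (by norm_num : (1:ℝ) ≤ 2) (show 1 ≤ k + 1 by omega)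
        norm_num at this ⊢
        linarith
      linarith
    obtain ⟨t, ht, ht2⟩ := cc_rep (θ δ - θ 0)
    have h1 := dyad k
    rw [← hδ, κθ, ← ht2, cc_norm ht] at h1
    have h2 := mult δ hδ0 (by linarith) j
    rw [← ht2, ← AddCircle.coe_nsmul, nsmul_eq_mul] at h2
    rw [κθ, h2, cc_norm, abs_mul, h1, abs_of_nonneg (by positivity : (0:ℝ) ≤ j)]
    rw [abs_mul, h1, abs_of_nonneg (by positivity : (0:ℝ) ≤ j)]
    exact hj
  -- density
  have approx : ∀ k : ℕ, |κ a - a| ≤ π / 2 / 2 ^ (k + 1) := by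
    intro k
    set δ := π / 2 / 2 ^ (k + 1) with hδ
    have hδ0 : 0 < δ := by positivity
    set j := ⌊a / δ⌋₊ with hj
    have j1 : (j : ℝ) * δ ≤ a := by
      have := Nat.floor_le (div_nonneg ha hδ0.le)
      rwa [le_div_iff₀ hδ0] at this
    have j2 : a < ((j : ℝ) + 1) * δ := by
      have := Nat.lt_floor_add_one (a / δ)
      rwa [div_lt_iff₀ hδ0] at this
    have l1 := κmono _ _ (by positivity) j1 ha2
    rw [dyad2 k j (j1.trans ha2)] at l1
    have u1 : κ a ≤ ((j : ℝ) + 1) * δ := by
      by_cases hc : ((j : ℝ) + 1) * δ ≤ π / 2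
      · have := κmono _ _ ha j2.le hc
        have e := dyad2 k (j + 1) (by push_cast; exact hc)
        push_cast at e
        rw [e] at this
        exact this
      · push Not at hc
        exact (h.toEllD.le_half he0 (cir_ne hcr a)).trans hc.le
    rw [abs_le]
    constructor <;> linarith
  have hlim : Tendsto (fun k : ℕ => π / 2 / 2 ^ (k + 1)) atTop (𝓝 0) := by
    have h1 := (tendsto_pow_atTop_nhds_zero_of_lt_one (r := (1 / 2 : ℝ)) (by norm_num)
        (by norm_num)).const_mul (π / 2)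
    rw [mul_zero] at h1
    have h2 := (tendsto_add_atTop_iff_nat 1).2 h1
    refine h2.congr fun n => ?_
    rw [div_pow, one_pow]; ring
  have h0 : |κ a - a| ≤ 0 := ge_of_tendsto' hlim approx
  have := abs_nonpos_iff.1 h0
  simp only [hκ] at this
  linarith

/-- The distance in normal form. -/
theorem eq_arccos (h : EllN D) {u v : V3} (hu : u ≠ 0) (hv : v ≠ 0) :
    D u v = arccos (|dt u v| / (Real.sqrt (dt u u) * Real.sqrt (dt v v))) := by
  have pu := dt_self_pos hu
  have pv := dt_self_pos hv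
  set ru := Real.sqrt (dt u u) with hru
  set rv := Real.sqrt (dt v v) with hrv
  have ru0 : 0 < ru := Real.sqrt_pos.2 pu
  have rv0 : 0 < rv := Real.sqrt_pos.2 pv
  have ru2 : ru ^ 2 = dt u u := Real.sq_sqrt pu.le
  have rv2 : rv ^ 2 = dt v v := Real.sq_sqrt pv.le
  -- sign
  obtain ⟨ε, hε, hε2⟩ : ∃ ε : ℝ, ε ^ 2 = 1 ∧ ε * dt u v = |dt u v| := by
    rcases le_or_gt 0 (dt u v) with h0 | h0
    · exact ⟨1, by norm_num, by rw [abs_of_nonneg h0, one_mul]⟩
    · exact ⟨-1, by norm_num, by rw [abs_of_neg h0]; ring⟩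
  have hε0 : ε ≠ 0 := by rintro rfl; norm_num at hε
  set x := ru⁻¹ • u with hx
  set y := (ε * rv⁻¹) • v with hy
  have esm : ∀ (a b : ℝ) (u v : V3), dt (a • u) (b • v) = a * b * dt u v := by
    intro a b u v; simp only [dt_def, Pi.smul_apply, smul_eq_mul]; ring
  have x1 : dt x x = 1 := by
    rw [hx, esm, ← ru2]; field_simp
  have y1 : dt y y = 1 := by
    rw [hy, esm, ← rv2]
    have : ε * rv⁻¹ * (ε * rv⁻¹) * rv ^ 2 = ε ^ 2 := by field_simp
    rw [this, hε]
  have xy : dt x y = |dt u v| / (ru * rv) := by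
    rw [hx, hy, esm, ← hε2]; field_simp
  have hx0 : x ≠ 0 := smul_ne_zero (inv_ne_zero ru0.ne') hu
  have hy0 : y ≠ 0 := smul_ne_zero (mul_ne_zero hε0 (inv_ne_zero rv0.ne')) hv
  have hD : D u v = D x y := by
    rw [hx, hy, h.smul _ _ _ (mul_ne_zero hε0 (inv_ne_zero rv0.ne'))
      (smul_ne_zero (inv_ne_zero ru0.ne') hu) hv, h.toEllD.smul' _ _ _ (inv_ne_zero ru0.ne') hu hv]
  rw [hD, ← xy]
  set c := dt x y with hc
  have c0 : 0 ≤ c := by rw [xy]; positivity
  -- component of y orthogonal to x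
  set z := y + (-c) • x with hz
  have zx : dt x z = 0 := by
    have : dt x z = dt x y - c * dt x x := by
      simp only [hz, dt_def, Pi.add_apply, Pi.smul_apply, smul_eq_mul]; ring
    rw [this, x1, ← hc]; ring
  have zz : dt z z = 1 - c ^ 2 := by
    have : dt z z = dt y y - 2 * c * dt x y + c ^ 2 * dt x x := by
      simp only [hz, dt_def, Pi.add_apply, Pi.smul_apply, smul_eq_mul]; ring
    rw [this, x1, y1, ← hc]; ring
  by_cases hz0 : z = 0
  · have hyx : y = c • x := by
      have : y = z + c • x := by rw [hz]; apply v3_ext <;> simp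
      rw [hz0, zero_add] at this; exact this
    have hc1 : c = 1 := by
      have : dt z z = 0 := by rw [hz0]; simp [dt_def]
      rw [zz] at this
      nlinarith
    rw [hyx, hc1, one_smul, h.toEllD.self hx0, arccos_one]
  · have pz := dt_self_pos hz0
    set rz := Real.sqrt (dt z z) with hrz
    have rz0 : 0 < rz := Real.sqrt_pos.2 pz
    have rz2 : rz ^ 2 = dt z z := Real.sq_sqrt pz.le
    set f := rz⁻¹ • z with hf
    have f1 : dt f f = 1 := by rw [hf, esm, ← rz2]; field_simp
    have xf : dt x f = 0 := by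
      have : dt x f = rz⁻¹ * dt x z := by
        simp only [hf, dt_def, Pi.smul_apply, smul_eq_mul]; ring
      rw [this, zx, mul_zero]
    have c1 : c ≤ 1 := by rw [zz] at pz; nlinarith
    have hcos : cos (arccos c) = c := cos_arccos (by linarith) c1
    have hsin : sin (arccos c) = rz := by
      rw [sin_arccos, hrz, zz]
    have hrf : rz • f = z := by rw [hf, smul_smul, mul_inv_cancel₀ rz0.ne', one_smul]
    have hyc : y = cir x f (arccos c) := by
      rw [cir, hcos, hsin, hrf, hz]
      apply v3_ext <;> simp only [Pi.add_apply, Pi.smul_apply, smul_eq_mul] <;> ring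
    have := h.line_eq x1 f1 xf (arccos_nonneg c) (arccos_le_pi_div_two.2 c0)
    rw [← hyc] at this
    exact this

end EllN

end Pool.Agent.ProjMetric
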