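import Mathlib

open Filter Topology Set

namespace Pool.Agent.ProjMetric

/-- A maximum principle for functional equations of mean value type. -/
lemma maxp {q ψ w₁ w₂ : ℝ → ℝ} (hq : Continuous q) (hψ : ∀ s, 0 < ψ s)
    (hw₁ : ∀ s, 0 < w₁ s) (hw₂ : ∀ s, 0 < w₂ s) (hsum : ∀ s, w₁ s + w₂ s = 1)
    (havg : ∀ s, q s = w₁ s * q (s + ψ s) + w₂ s * q (s - ψ s)) (t₀ : ℝ)
    (htop : ∀ᶠ t in atTop, q t < q t₀) (hbot : ∀ᶠ t in atBot, q t < q t₀) : False := by
  have hco : ∀ᶠ t in cocompact ℝ, q t ≤ q t₀ := by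
    rw [cocompact_eq_atBot_atTop]
    exact Filter.eventually_sup.2 ⟨hbot.mono fun _ h => h.le, htop.mono fun _ h => h.le⟩
  obtain ⟨z, hz⟩ := hq.exists_forall_ge' t₀ hco
  set Z : Set ℝ := {t | q t = q z} with hZ
  have hZc : IsClosed Z := isClosed_eq hq continuous_const
  have hZn : Z.Nonempty := ⟨z, rfl⟩
  obtain ⟨T, hT⟩ := eventually_atTop.1 htop
  have hZb : BddAbove Z := by
    refine ⟨T, fun t ht => ?_⟩
    by_contra hc
    push Not at hc
    have h1 := hT t hc.le
    have h2 : q t = q z := ht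
    have h3 := hz t₀
    linarith
  have hs : sSup Z ∈ Z := hZc.csSup_mem hZn hZb
  set s := sSup Z with hsdef
  have hs' : q s = q z := hs
  have h1 := havg s
  have h2 := hz (s + ψ s)
  have h3 := hz (s - ψ s)
  have h4 := hw₁ s
  have h5 := hw₂ s
  have h6 := hsum s
  have h7 : q (s + ψ s) = q z := by
    by_contra hne
    have hlt : q (s + ψ s) < q z := lt_of_le_of_ne h2 hne
    have : q z < q z := by
      calc q z = q s := hs'.symm
        _ = w₁ s * q (s + ψ s) + w₂ s * q (s - ψ s) := h1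
        _ < w₁ s * q z + w₂ s * q z := by
            have a := mul_lt_mul_of_pos_left hlt h4
            have b := mul_le_mul_of_nonneg_left h3 h5.le
            linarith
        _ = q z := by rw [← add_mul, h6, one_mul]
    exact lt_irrefl _ this
  have h8 : s + ψ s ∈ Z := h7
  have h9 := le_csSup hZb h8
  have := hψ s
  linarith

/-- The data of a distance function from a point to the points of a line. -/
structure DistFun (ψ : ℝ → ℝ) : Prop where
  pos : ∀ t, 0 < ψ t
  lip : ∀ s t, |ψ s - ψ t| ≤ |s - t|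
  tri : ∀ s t, |s - t| ≤ ψ s + ψ t

namespace DistFun

variable {ψ : ℝ → ℝ}

lemma cont (h : DistFun ψ) : Continuous ψ := by
  have : LipschitzWith 1 ψ := by
    apply LipschitzWith.of_dist_le_mul
    intro x y
    simp only [NNReal.coe_one, one_mul, Real.dist_eq]
    exact h.lip x y
  exact this.continuous

lemma shift (h : DistFun ψ) (c : ℝ) : DistFun (fun t => ψ (t + c)) := by
  refine ⟨fun t => h.pos _, fun s t => ?_, fun s t => ?_⟩
  · have := h.lip (s + c) (t + c)
    simpa using this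
  · have := h.tri (s + c) (t + c)
    simpa using this

lemma neg (h : DistFun ψ) : DistFun (fun t => ψ (-t)) := by
  refine ⟨fun t => h.pos _, fun s t => ?_, fun s t => ?_⟩
  · have := h.lip (-s) (-t)
    rwa [show -s - -t = -(s - t) by ring, abs_neg] at this
  · have := h.tri (-s) (-t)
    rwa [show -s - -t = -(s - t) by ring, abs_neg] at this

lemma anti (h : DistFun ψ) : Antitone (fun t => ψ t - t) := by
  intro s t hst
  have h1 := h.lip s t
  have h2 : |s - t| = t - s := by rw [abs_sub_comm]; exact abs_of_nonneg (by linarith)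
  have h3 := neg_abs_le (ψ s - ψ t)
  simp only
  linarith

lemma exists_top (h : DistFun ψ) : ∃ β, Tendsto (fun t => ψ t - t) atTop (𝓝 β) := by
  refine ⟨_, tendsto_atTop_ciInf h.anti ⟨-ψ 0, ?_⟩⟩
  rintro _ ⟨t, rfl⟩
  have h1 := h.tri t 0
  have h2 := le_abs_self (t - 0)
  simp only
  linarith

lemma exists_bot (h : DistFun ψ) : ∃ β, Tendsto (fun t => ψ t + t) atBot (𝓝 β) := by
  obtain ⟨β, hβ⟩ := h.neg.exists_top
  refine ⟨β, ?_⟩
  have := hβ.comp tendsto_neg_atBot_atTop
  refine this.congr fun t => ?_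
  simp

/-- after a shift the two limits agree -/
lemma exists_shift (h : DistFun ψ) : ∃ c β, Tendsto (fun t => ψ (t + c) - t) atTop (𝓝 β) ∧
    Tendsto (fun t => ψ (t + c) + t) atBot (𝓝 β) := by
  obtain ⟨β₁, h₁⟩ := h.exists_top
  obtain ⟨β₂, h₂⟩ := h.exists_bot
  refine ⟨(β₂ - β₁) / 2, (β₁ + β₂) / 2, ?_, ?_⟩
  · have h3 := h₁.comp (tendsto_atTop_add_const_right atTop ((β₂ - β₁) / 2) tendsto_id)
    have h4 := h3.add_const ((β₂ - β₁) / 2)
    rw [show β₁ + (β₂ - β₁) / 2 = (β₁ + β₂) / 2 by ring] at h4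
    refine h4.congr fun t => ?_
    simp only [Function.comp, id]
    ring
  · have h3 := h₂.comp (tendsto_atBot_add_const_right atBot ((β₂ - β₁) / 2) tendsto_id)
    have h4 := h3.sub_const ((β₂ - β₁) / 2)
    rw [show β₂ - (β₂ - β₁) / 2 = (β₁ + β₂) / 2 by ring] at h4
    refine h4.congr fun t => ?_
    simp only [Function.comp, id]
    ring

lemma ge_top (h : DistFun ψ) {β : ℝ} (hβ : Tendsto (fun t => ψ t - t) atTop (𝓝 β)) (t : ℝ) :
    t + β ≤ ψ t := by
  have h1 : β ≤ ψ t - t := by
    apply le_of_tendsto hβ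
    rw [eventually_atTop]
    exact ⟨t, fun s hs => h.anti hs⟩
  linarith

lemma ge_bot (h : DistFun ψ) {β : ℝ} (hβ : Tendsto (fun t => ψ t + t) atBot (𝓝 β)) (t : ℝ) :
    -t + β ≤ ψ t := by
  have h1 : Tendsto (fun t => ψ (-t) - t) atTop (𝓝 β) := by
    refine (hβ.comp tendsto_neg_atTop_atBot).congr fun t => ?_
    simp only [Function.comp]
    ring
  have := h.neg.ge_top h1 (-t)
  simpa using this

end DistFun

/-! ### The hyperbolic functional equation -/

lemma tendsto_cosh_ratio {ψ : ℝ → ℝ} (h : DistFun ψ) {β : ℝ}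
    (hβ : Tendsto (fun t => ψ t - t) atTop (𝓝 β)) :
    Tendsto (fun t => Real.cosh (ψ t) / Real.cosh t) atTop (𝓝 (Real.exp β)) := by
  have e1 : ∀ t, Real.cosh (ψ t) / Real.cosh t =
      (Real.exp (ψ t - t) + Real.exp (-ψ t - t)) / (1 + Real.exp (-(2 * t))) := by
    intro t
    rw [Real.cosh_eq, Real.cosh_eq, div_div_div_cancel_right₀ (by norm_num)]
    rw [div_eq_div_iff (by positivity) (by positivity)]
    have a1 : Real.exp (ψ t - t) = Real.exp (ψ t) * Real.exp (-t) := by rw [← Real.exp_add]; ring_nf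
    have a2 : Real.exp (-ψ t - t) = Real.exp (-ψ t) * Real.exp (-t) := by rw [← Real.exp_add]; ring_nf
    have a3 : Real.exp (-(2 * t)) = Real.exp (-t) * Real.exp (-t) := by rw [← Real.exp_add]; ring_nf
    have a4 : Real.exp t * Real.exp (-t) = 1 := by rw [← Real.exp_add]; simp
    rw [a1, a2, a3]
    linear_combination (-(Real.exp (ψ t) + Real.exp (-ψ t))) * a4
  have t1 : Tendsto (fun t => Real.exp (ψ t - t)) atTop (𝓝 (Real.exp β)) :=
    (Real.continuous_exp.tendsto _).comp hβ
  have t2 : Tendsto (fun t => Real.exp (-ψ t - t)) atTop (𝓝 0) := by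
    have hu : Tendsto (fun t : ℝ => Real.exp (-t)) atTop (𝓝 0) := Real.tendsto_exp_neg_atTop_nhds_zero
    refine squeeze_zero (fun t => (Real.exp_pos _).le) (fun t => ?_) hu
    apply Real.exp_le_exp.2
    have := h.pos t
    linarith
  have t3 : Tendsto (fun t : ℝ => Real.exp (-(2 * t))) atTop (𝓝 0) :=
    Real.tendsto_exp_neg_atTop_nhds_zero.comp (tendsto_id.const_mul_atTop (by norm_num : (0:ℝ) < 2))
  have := (t1.add t2).div (t3.const_add 1) (by norm_num)
  simp only [add_zero, div_one] at this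
  exact this.congr fun t => (e1 t).symm

lemma hyp1D_aux {ψ : ℝ → ℝ} (h : DistFun ψ) {β : ℝ}
    (htop : Tendsto (fun t => ψ t - t) atTop (𝓝 β))
    (hbot : Tendsto (fun t => ψ t + t) atBot (𝓝 β))
    (hid : ∀ s, Real.cosh (ψ (s + ψ s)) + Real.cosh (ψ (s - ψ s)) = 2 * Real.cosh (ψ s) ^ 2)
    (t : ℝ) : Real.cosh (ψ t) = Real.exp β * Real.cosh t := by
  set q : ℝ → ℝ := fun t => Real.cosh (ψ t) / Real.cosh t with hq
  have hqc : Continuous q :=
    (Real.continuous_cosh.comp h.cont).div Real.continuous_cosh fun t => (Real.cosh_pos t).ne'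
  have qtop : Tendsto q atTop (𝓝 (Real.exp β)) := tendsto_cosh_ratio h htop
  have qbot : Tendsto q atBot (𝓝 (Real.exp β)) := by
    have h1 : Tendsto (fun t => ψ (-t) - t) atTop (𝓝 β) := by
      refine (hbot.comp tendsto_neg_atTop_atBot).congr fun t => ?_
      simp only [Function.comp]
      ring
    have h2 := (tendsto_cosh_ratio h.neg h1).comp tendsto_neg_atBot_atTop
    refine h2.congr fun t => ?_
    simp [hq, Function.comp, Real.cosh_neg]
  set w₁ : ℝ → ℝ := fun s => Real.cosh (s + ψ s) / (2 * Real.cosh s * Real.cosh (ψ s)) with hw₁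
  set w₂ : ℝ → ℝ := fun s => Real.cosh (s - ψ s) / (2 * Real.cosh s * Real.cosh (ψ s)) with hw₂
  have p1 : ∀ s, 0 < w₁ s := fun s => by
    have := Real.cosh_pos (s + ψ s); have := Real.cosh_pos s; have := Real.cosh_pos (ψ s)
    positivity
  have p2 : ∀ s, 0 < w₂ s := fun s => by
    have := Real.cosh_pos (s - ψ s); have := Real.cosh_pos s; have := Real.cosh_pos (ψ s)
    positivity
  have hsum : ∀ s, w₁ s + w₂ s = 1 := fun s => by
    have := Real.cosh_pos s; have := Real.cosh_pos (ψ s)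
    simp only [hw₁, hw₂]
    rw [← add_div, div_eq_one_iff_eq (by positivity), Real.cosh_add, Real.cosh_sub]
    ring
  have havg : ∀ s, q s = w₁ s * q (s + ψ s) + w₂ s * q (s - ψ s) := fun s => by
    have c1 := Real.cosh_pos s; have c2 := Real.cosh_pos (ψ s)
    have c3 := Real.cosh_pos (s + ψ s); have c4 := Real.cosh_pos (s - ψ s)
    simp only [hq, hw₁, hw₂]
    have e1 : Real.cosh (s + ψ s) / (2 * Real.cosh s * Real.cosh (ψ s)) *
        (Real.cosh (ψ (s + ψ s)) / Real.cosh (s + ψ s)) =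
        Real.cosh (ψ (s + ψ s)) / (2 * Real.cosh s * Real.cosh (ψ s)) := by
      field_simp
    have e2 : Real.cosh (s - ψ s) / (2 * Real.cosh s * Real.cosh (ψ s)) *
        (Real.cosh (ψ (s - ψ s)) / Real.cosh (s - ψ s)) =
        Real.cosh (ψ (s - ψ s)) / (2 * Real.cosh s * Real.cosh (ψ s)) := by
      field_simp
    rw [e1, e2, ← add_div, hid s]
    field_simp
  have key : q t = Real.exp β := by
    rcases lt_trichotomy (q t) (Real.exp β) with hlt | heq | hgt
    · exfalso
      refine maxp (q := fun t => -q t) hqc.neg h.pos p1 p2 hsum (fun s => ?_) t ?_ ?_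
      · rw [havg s]; ring
      · exact (qtop.eventually (lt_mem_nhds hlt)).mono fun s hs => neg_lt_neg hs
      · exact (qbot.eventually (lt_mem_nhds hlt)).mono fun s hs => neg_lt_neg hs
    · exact heq
    · exfalso
      exact maxp hqc h.pos p1 p2 hsum havg t (qtop.eventually (gt_mem_nhds hgt))
        (qbot.eventually (gt_mem_nhds hgt))
  have : Real.cosh (ψ t) / Real.cosh t = Real.exp β := key
  rwa [div_eq_iff (Real.cosh_pos t).ne'] at this

theorem hyp1D {ψ : ℝ → ℝ} (h : DistFun ψ)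
    (hid : ∀ s, Real.cosh (ψ (s + ψ s)) + Real.cosh (ψ (s - ψ s)) = 2 * Real.cosh (ψ s) ^ 2) :
    ∃ C c : ℝ, 1 < C ∧ ∀ t, Real.cosh (ψ t) = C * Real.cosh (t - c) := by
  obtain ⟨c, β, h1, h2⟩ := h.exists_shift
  have key := hyp1D_aux (h.shift c) h1 h2 (fun s => by
    have := hid (s + c)
    rw [show s + c + ψ (s + c) = s + ψ (s + c) + c by ring,
      show s + c - ψ (s + c) = s - ψ (s + c) + c by ring] at this
    exact this)
  refine ⟨Real.exp β, c, ?_, fun t => ?_⟩
  · have := key 0
    rw [Real.cosh_zero, mul_one] at this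
    rw [← this]
    exact Real.one_lt_cosh.2 (h.pos _).ne'
  · have := key (t - c)
    simpa using this

/-! ### The parabolic functional equation -/

lemma par_lim {ψ : ℝ → ℝ} (h : DistFun ψ)
    (htop : Tendsto (fun t => ψ t - t) atTop (𝓝 0))
    (hid : ∀ s, ψ (s + ψ s) ^ 2 + ψ (s - ψ s) ^ 2 = 4 * ψ s ^ 2) :
    Tendsto (fun t => ψ t ^ 2 - t ^ 2) atTop (𝓝 (ψ 0 ^ 2)) := by
  set η : ℝ → ℝ := fun t => ψ t ^ 2 - t ^ 2 with hη
  have hηc : Continuous η := (h.cont.pow 2).sub (continuous_id.pow 2)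
  have havg : ∀ s, 2 * η s = η (s + ψ s) + η (s - ψ s) := fun s => by
    have := hid s
    simp only [hη]
    nlinarith
  have hge : ∀ t, t ≤ ψ t := fun t => by simpa using h.ge_top htop t
  rw [Metric.tendsto_atTop]
  intro ε hε
  -- near zero
  obtain ⟨δ, hδ, hδ'⟩ := Metric.continuousAt_iff.1 (hηc.continuousAt (x := 0)) (ε / 2) (half_pos hε)
  obtain ⟨S, hS⟩ := Metric.tendsto_atTop.1 htop (min δ 1) (lt_min hδ one_pos)
  refine ⟨max S 1, fun s hs => ?_⟩
  have hη0 : η 0 = ψ 0 ^ 2 := by simp [hη]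
  rw [Real.dist_eq, ← hη0]
  -- iteration
  have hgap : ∀ t, S ≤ t → 0 ≤ ψ t - t ∧ ψ t - t < min δ 1 := fun t ht => by
    have h1 := hS t ht
    rw [Real.dist_eq, sub_zero] at h1
    exact ⟨by linarith [hge t], (le_abs_self _).trans_lt h1⟩
  have hstep : ∀ t, max S 1 ≤ t → |η t - η 0| ≤ |η (t + ψ t) - η 0| / 2 + ε / 4 := fun t ht => by
    have g := hgap t ((le_max_left _ _).trans ht)
    have h1 : |η (t - ψ t) - η 0| < ε / 2 := by
      have := hδ' (x := t - ψ t) (by
        rw [Real.dist_eq, sub_zero, abs_sub_comm, abs_of_nonneg g.1]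
        exact g.2.trans_le (min_le_left _ _))
      rwa [Real.dist_eq] at this
    have h2 := havg t
    have h3 : η t - η 0 = (η (t + ψ t) - η 0) / 2 + (η (t - ψ t) - η 0) / 2 := by linarith
    rw [h3]
    calc |(η (t + ψ t) - η 0) / 2 + (η (t - ψ t) - η 0) / 2|
        ≤ |(η (t + ψ t) - η 0) / 2| + |(η (t - ψ t) - η 0) / 2| := abs_add_le _ _
      _ = |η (t + ψ t) - η 0| / 2 + |η (t - ψ t) - η 0| / 2 := by
          rw [abs_div, abs_div]; norm_num
      _ ≤ |η (t + ψ t) - η 0| / 2 + ε / 4 := by linarith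
  -- orbit
  set x : ℕ → ℝ := fun n => (fun t => t + ψ t)^[n] s with hx
  have hx0 : x 0 = s := rfl
  have hxs : ∀ n, x (n + 1) = x n + ψ (x n) := fun n => by
    simp only [hx, Function.iterate_succ_apply']
  have hxge : ∀ n, max S 1 ≤ x n := by
    intro n
    induction n with
    | zero => exact hs
    | succ n ih =>
      rw [hxs]
      have := h.pos (x n)
      linarith
  have hxlow : ∀ n : ℕ, (2 : ℝ) ^ n ≤ x n := by
    intro n
    induction n with
    | zero => rw [hx0, pow_zero]; exact (le_max_right _ _).trans hs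
    | succ n ih =>
      rw [hxs, pow_succ]
      have := hge (x n)
      linarith
  have hxup : ∀ n : ℕ, x n + 1 ≤ 2 ^ n * (s + 1) := by
    intro n
    induction n with
    | zero => simp [hx0]
    | succ n ih =>
      rw [hxs, pow_succ]
      have g := (hgap (x n) ((le_max_left _ _).trans (hxge n))).2
      have g2 := min_le_right δ 1
      nlinarith
  have hiter : ∀ n : ℕ, |η s - η 0| ≤ |η (x n) - η 0| / 2 ^ n + ε / 2 := by
    intro n
    have : |η s - η 0| ≤ |η (x n) - η 0| / 2 ^ n + (ε / 2) * (1 - 1 / 2 ^ n) := by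
      induction n with
      | zero => simp [hx0]
      | succ n ih =>
        have h1 := hstep (x n) (hxge n)
        rw [← hxs n] at h1
        calc |η s - η 0| ≤ |η (x n) - η 0| / 2 ^ n + (ε / 2) * (1 - 1 / 2 ^ n) := ih
          _ ≤ (|η (x (n + 1)) - η 0| / 2 + ε / 4) / 2 ^ n + (ε / 2) * (1 - 1 / 2 ^ n) := by gcongr
          _ = |η (x (n + 1)) - η 0| / 2 ^ (n + 1) + (ε / 2) * (1 - 1 / 2 ^ (n + 1)) := by
              rw [pow_succ]; field_simp; ring
    have h2 : (0 : ℝ) < 1 / 2 ^ n := by positivity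
    nlinarith
  -- growth of η
  have hgrow : ∀ τ > 0, ∀ᶠ n : ℕ in atTop, |η (x n) - η 0| / 2 ^ n ≤ τ := by
    intro τ hτ
    -- |η t - η 0| ≤ (ψ t - t) (ψ t + t) + |η 0|
    obtain ⟨S', hS'⟩ := Metric.tendsto_atTop.1 htop (min 1 (τ / (4 * (s + 2))))
      (lt_min one_pos (by
        have : 1 ≤ s := (le_max_right _ _).trans hs
        positivity))
    have hs1 : 1 ≤ s := (le_max_right _ _).trans hs
    have hxtop : Tendsto x atTop atTop :=
      tendsto_atTop_mono hxlow (tendsto_pow_atTop_atTop_of_one_lt (by norm_num))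
    have hpow : Tendsto (fun n : ℕ => |η 0| / 2 ^ n) atTop (𝓝 0) := by
      have := (tendsto_pow_atTop_nhds_zero_of_lt_one (r := (1 / 2 : ℝ)) (by norm_num)
        (by norm_num)).const_mul |η 0|
      rw [mul_zero] at this
      refine this.congr fun n => ?_
      rw [div_pow, one_pow]; ring
    filter_upwards [hxtop.eventually (eventually_ge_atTop S'),
      hpow.eventually (ge_mem_nhds (half_pos hτ))] with n hn hn2
    have h1 := hS' (x n) hn
    rw [Real.dist_eq, sub_zero] at h1
    have h2 : 0 ≤ ψ (x n) - x n := by linarith [hge (x n)]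
    rw [abs_of_nonneg h2] at h1
    have h3 : ψ (x n) - x n < 1 := h1.trans_le (min_le_left _ _)
    have h4 : ψ (x n) - x n < τ / (4 * (s + 2)) := h1.trans_le (min_le_right _ _)
    have h5 := hxup n
    have h6 : (1 : ℝ) ≤ 2 ^ n := one_le_pow₀ (by norm_num)
    have hxn : 0 < x n := by
      have := hxlow n
      linarith
    have h7 : |η (x n)| ≤ τ / (4 * (s + 2)) * (2 * (2 ^ n * (s + 1))) := by
      have e : η (x n) = (ψ (x n) - x n) * (ψ (x n) + x n) := by simp only [hη]; ring
      have hn0 : 0 ≤ ψ (x n) + x n := by linarith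
      rw [e, abs_mul, abs_of_nonneg h2, abs_of_nonneg hn0]
      apply mul_le_mul h4.le _ hn0 (by positivity)
      linarith
    have h8 : |η (x n) - η 0| ≤ |η (x n)| + |η 0| := abs_sub _ _
    calc |η (x n) - η 0| / 2 ^ n ≤ (|η (x n)| + |η 0|) / 2 ^ n := by gcongr
      _ = |η (x n)| / 2 ^ n + |η 0| / 2 ^ n := by rw [add_div]
      _ ≤ (τ / (4 * (s + 2)) * (2 * (2 ^ n * (s + 1)))) / 2 ^ n + τ / 2 := by gcongr
      _ ≤ τ / 2 + τ / 2 := by
          refine add_le_add ?_ le_rfl
          have h2n : (0:ℝ) < 2 ^ n := by positivity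
          rw [div_le_iff₀ h2n, div_mul_eq_mul_div, div_le_iff₀ (by positivity)]
          have : 0 ≤ τ * 2 ^ n := by positivity
          nlinarith
      _ = τ := by ring
  have hfin : ∀ τ > 0, |η s - η 0| ≤ τ + ε / 2 := by
    intro τ hτ
    obtain ⟨n, hn⟩ := (hgrow τ hτ).exists
    linarith [hiter n]
  have := hfin (ε / 4) (by positivity)
  linarith

lemma par1D_aux {ψ : ℝ → ℝ} (h : DistFun ψ) {β : ℝ}
    (htop : Tendsto (fun t => ψ t - t) atTop (𝓝 β))
    (hbot : Tendsto (fun t => ψ t + t) atBot (𝓝 β))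
    (hid : ∀ s, ψ (s + ψ s) ^ 2 + ψ (s - ψ s) ^ 2 = 4 * ψ s ^ 2)
    (t : ℝ) : ψ t ^ 2 = t ^ 2 + ψ 0 ^ 2 := by
  set η : ℝ → ℝ := fun t => ψ t ^ 2 - t ^ 2 with hη
  have hηc : Continuous η := (h.cont.pow 2).sub (continuous_id.pow 2)
  have havg : ∀ s, η s = (1 / 2) * η (s + ψ s) + (1 / 2) * η (s - ψ s) := fun s => by
    have := hid s
    simp only [hη]
    nlinarith
  have g1 := h.ge_top htop
  have g2 := h.ge_bot hbot
  have hβ0 : 0 ≤ β := by
    -- 2T ≤ ψ(T) + ψ(-T)
    have h1 : Tendsto (fun t => ψ (-t) - t) atTop (𝓝 β) := by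
      refine (hbot.comp tendsto_neg_atTop_atBot).congr fun t => ?_
      simp only [Function.comp]
      ring
    have h2 := htop.add h1
    have h3 : 0 ≤ β + β := by
      apply ge_of_tendsto h2
      filter_upwards [eventually_ge_atTop (0 : ℝ)] with t ht
      have := h.tri t (-t)
      rw [show t - -t = 2 * t by ring, abs_of_nonneg (by positivity)] at this
      linarith
    linarith
  rcases hβ0.lt_or_eq with hpos | hzero
  · -- β > 0: contradiction
    exfalso
    have lb : ∀ t, β * (β + 2 * |t|) ≤ η t := fun t => by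
      have h1 : |t| + β ≤ ψ t := by
        rcases abs_cases t with ⟨ha, _⟩ | ⟨ha, _⟩
        · rw [ha]; exact g1 t
        · rw [ha]; exact g2 t
      have h2 : η t = (ψ t - |t|) * (ψ t + |t|) := by
        simp only [hη]
        have := sq_abs t
        nlinarith
      rw [h2]
      have := abs_nonneg t
      apply mul_le_mul <;> nlinarith
    refine maxp (q := fun t => -η t) hηc.neg h.pos (w₁ := fun _ => 1 / 2) (w₂ := fun _ => 1 / 2)
      (fun _ => by norm_num) (fun _ => by norm_num) (fun _ => by norm_num) (fun s => ?_) 0 ?_ ?_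
    · rw [havg s]; ring
    · filter_upwards [eventually_gt_atTop (η 0 / (2 * β)), eventually_ge_atTop (0 : ℝ)] with t ht ht0
      have := lb t
      rw [abs_of_nonneg ht0] at this
      rw [div_lt_iff₀ (by positivity)] at ht
      have : 0 < β * β := by positivity
      simp only [neg_lt_neg_iff]
      nlinarith
    · filter_upwards [eventually_lt_atBot (-(η 0 / (2 * β))), eventually_le_atBot (0 : ℝ)] with t ht ht0
      have := lb t
      rw [abs_of_nonpos ht0] at this
      have ht' : η 0 / (2 * β) < -t := by linarith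
      rw [div_lt_iff₀ (by positivity)] at ht'
      have : 0 < β * β := by positivity
      simp only [neg_lt_neg_iff]
      nlinarith
  · subst hzero
    have ltop : Tendsto η atTop (𝓝 (ψ 0 ^ 2)) := par_lim h htop hid
    have lbot : Tendsto η atBot (𝓝 (ψ 0 ^ 2)) := by
      have h1 : Tendsto (fun t => ψ (-t) - t) atTop (𝓝 0) := by
        refine (hbot.comp tendsto_neg_atTop_atBot).congr fun t => ?_
        simp only [Function.comp]
        ring
      have h2 := par_lim h.neg h1 (fun s => by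
        have := hid (-s)
        rw [show -(s + ψ (-s)) = -s - ψ (-s) by ring, show -(s - ψ (-s)) = -s + ψ (-s) by ring]
        linarith)
      have h3 := h2.comp tendsto_neg_atBot_atTop
      simp only [neg_zero] at h3
      refine h3.congr fun t => ?_
      simp [hη, Function.comp]
    have key : η t = ψ 0 ^ 2 := by
      rcases lt_trichotomy (η t) (ψ 0 ^ 2) with hlt | heq | hgt
      · exfalso
        refine maxp (q := fun t => -η t) hηc.neg h.pos (w₁ := fun _ => 1 / 2)
          (w₂ := fun _ => 1 / 2) (fun _ => by norm_num) (fun _ => by norm_num)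
          (fun _ => by norm_num) (fun s => ?_) t ?_ ?_
        · rw [havg s]; ring
        · exact (ltop.eventually (lt_mem_nhds hlt)).mono fun s hs => neg_lt_neg hs
        · exact (lbot.eventually (lt_mem_nhds hlt)).mono fun s hs => neg_lt_neg hs
      · exact heq
      · exfalso
        exact maxp hηc h.pos (w₁ := fun _ => 1 / 2)
          (w₂ := fun _ => 1 / 2) (fun _ => by norm_num) (fun _ => by norm_num)
          (fun _ => by norm_num) havg t (ltop.eventually (gt_mem_nhds hgt))
          (lbot.eventually (gt_mem_nhds hgt))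
    simp only [hη] at key
    linarith

theorem par1D {ψ : ℝ → ℝ} (h : DistFun ψ)
    (hid : ∀ s, ψ (s + ψ s) ^ 2 + ψ (s - ψ s) ^ 2 = 4 * ψ s ^ 2) :
    ∃ C c : ℝ, 0 < C ∧ ∀ t, ψ t ^ 2 = (t - c) ^ 2 + C := by
  obtain ⟨c, β, h1, h2⟩ := h.exists_shift
  have key := par1D_aux (h.shift c) h1 h2 (fun s => by
    have := hid (s + c)
    rw [show s + c + ψ (s + c) = s + ψ (s + c) + c by ring,
      show s + c - ψ (s + c) = s - ψ (s + c) + c by ring] at this
    exact this)
  refine ⟨ψ (0 + c) ^ 2, c, ?_, fun t => ?_⟩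
  · have := h.pos (0 + c)
    positivity
  · have := key (t - c)
    simpa using this

end Pool.Agent.ProjMetric
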