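import Mathlib
import Pool.Agent.ProjMetric93.Plane
import Pool.Agent.ProjMetric93.OneDim

open Set

namespace Pool.Agent.ProjMetric

variable {M : Set P2}

/-- classes of functions determined, on each line, by two values -/
structure LineClass (o : M) (F : (M → ℝ) → Prop) : Prop where
  lin2 : ∀ f g, F f → F g → ∀ c d : ℝ, F (fun X => c * f X + d * g X)
  zero : ∀ f, F f → ∀ u ∈ KM M, ∀ v ∈ KM M, ∀ w ∈ KM M, cr u v ≠ 0 → det3 u v w = 0 →
    f (pt o u) = 0 → f (pt o v) = 0 → f (pt o w) = 0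

lemma LineClass.lin3 {o : M} {F : (M → ℝ) → Prop} (hF : LineClass o F) {f g h : M → ℝ}
    (hf : F f) (hg : F g) (hh : F h) (c d e : ℝ) :
    F (fun X => c * f X + d * g X + e * h X) := by
  have h1 := hF.lin2 _ _ hf hg c d
  have h2 := hF.lin2 _ _ h1 hh 1 e
  simpa using h2

/-- a function of the class vanishing at three non-collinear points vanishes -/
lemma LineClass.eq_zero {k : Kind} (hk : k ≠ .elliptic) (hM : k.IsCarrier M) {o : M}
    {F : (M → ℝ) → Prop} (hF : LineClass o F) {f : M → ℝ} (hf : F f) {a b c : V3}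
    (ha : a ∈ KP M) (hb : b ∈ KP M) (hc : c ∈ KP M) (habc : det3 a b c ≠ 0)
    (fa : f (pt o a) = 0) (fb : f (pt o b) = 0) (fc : f (pt o c) = 0) (X : M) : f X = 0 := by
  obtain ⟨v, hv, rfl⟩ := exists_rep_KP hk hM o X
  refine zero_of_three (cone_KP hk hM) ha hb hc habc (Z := fun v => f (pt o v) = 0) ?_ ?_ fa fb fc
    v hv
  · intro r hr u hu hz
    rw [pt_smul o hr.ne' hu.1]; exact hz
  · intro u hu v hv w hw h1 h2 h3 h4
    exact hF.zero f hf u hu.1 v hv.1 w hw.1 h1 h2 h3 h4

/-- an embedding by functions of the class is a projective map -/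
theorem LineClass.exists_linear {k : Kind} (hk : k ≠ .elliptic) (hM : k.IsCarrier M) {o : M}
    {F : (M → ℝ) → Prop} (hF : LineClass o F) {T : M → V3} (hT : ∀ i, F (fun X => T X i))
    {a b c : V3} (ha : a ∈ KP M) (hb : b ∈ KP M) (hc : c ∈ KP M) (habc : det3 a b c ≠ 0)
    (hTabc : det3 (T (pt o a)) (T (pt o b)) (T (pt o c)) ≠ 0) :
    ∃ G : V3 ≃ₗ[ℝ] V3, ∀ v ∈ KP M, ∃ r : ℝ, r ≠ 0 ∧ T (pt o v) = r • G v := by
  have hdt : ∀ n : V3, F (fun X => dt n (T X)) := fun n => by
    have := hF.lin3 (hT 0) (hT 1) (hT 2) (n 0) (n 1) (n 2)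
    exact this
  refine FT (cone_KP hk hM) ha hb hc habc (T := fun v => T (pt o v)) ?_
  intro u hu v hv w hw
  constructor
  · intro h
    by_cases huv : cr u v = 0
    · have : pt o u = pt o v := (pt_eq_pt o hu.1 hv.1).2 huv
      simp only [this]
      exact det3_self_left _ _
    · have h1 := hF.zero _ (hdt (cr (T (pt o u)) (T (pt o v)))) u hu.1 v hv.1 w hw.1 huv h
        (by simp only [dt_def, cr_apply0, cr_apply1, cr_apply2]; ring)
        (by simp only [dt_def, cr_apply0, cr_apply1, cr_apply2]; ring)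
      rw [← h1]
      simp only [det3_def, dt_def, cr_apply0, cr_apply1, cr_apply2]; ring
  · intro h
    by_contra hne
    obtain ⟨n, hn, n1, n2, n3⟩ := exists_normal h
    have hz := fun X => hF.eq_zero hk hM (hdt n) hu hv hw hne n1 n2 n3 X
    have h1 := hz (pt o a)
    have h2 := hz (pt o b)
    have h3 := hz (pt o c)
    -- n is orthogonal to three independent vectors
    set L := linOf _ _ _ hTabc with hL
    have : n = L (L.symm n) := by simp
    have h4 : dt n n = 0 := by
      conv_lhs => rw [this]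
      rw [hL, linOf_apply]
      set z := (linOf _ _ _ hTabc).symm n
      have e : dt (z 0 • T (pt o a) + z 1 • T (pt o b) + z 2 • T (pt o c)) n =
          z 0 * dt n (T (pt o a)) + z 1 * dt n (T (pt o b)) + z 2 * dt n (T (pt o c)) := by
        simp only [dt_def, Pi.add_apply, Pi.smul_apply, smul_eq_mul]; ring
      rw [linOf_apply] at this
      have e2 : dt (z 0 • T (pt o a) + z 1 • T (pt o b) + z 2 • T (pt o c))
          (z 0 • T (pt o a) + z 1 • T (pt o b) + z 2 • T (pt o c)) = dt (z 0 • T (pt o a) + z 1 • T (pt o b) + z 2 • T (pt o c)) n := by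
        rw [← this]
      rw [e2, e, h1, h2, h3]; ring
    exact hn (dt_self_eq_zero.1 h4)

/-- a line of `M` with an arc length parametrization -/
structure GeoLine [MetricSpace M] (o : M) (n : V3) (g : ℝ → M) : Prop where
  hn : n ≠ 0
  iso : Isometry g
  mem : ∀ w ∈ KM M, (pt o w ∈ range g ↔ dt n w = 0)

variable [MetricSpace M]

lemma exists_GeoLine {k : Kind} (hk : k ≠ .elliptic) (hP : IsProjectiveMetricPlane k M) (o : M)
    {n : V3} (hn : n ≠ 0) {v : V3} (hv : v ∈ KM M) (hnv : dt n v = 0) :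
    ∃ g : ℝ → M, GeoLine o n g := by
  obtain ⟨g, h1, h2⟩ := exists_geod hk hP o hn hv hnv
  exact ⟨g, hn, h1, h2⟩

namespace GeoLine

variable {o : M} {n : V3} {g : ℝ → M}

lemma dist_eq (h : GeoLine o n g) (s t : ℝ) : dist (g s) (g t) = |s - t| := by
  rw [h.iso.dist_eq, Real.dist_eq]

lemma rep (h : GeoLine o n g) (t : ℝ) : ∃ v ∈ KM M, pt o v = g t ∧ dt n v = 0 := by
  obtain ⟨v, hv, hv2⟩ := exists_rep o (g t)
  exact ⟨v, hv, hv2, (h.mem v hv).1 (by rw [hv2]; exact ⟨t, rfl⟩)⟩

lemma coll (h : GeoLine o n g) (s t u : ℝ) : Coll (g s) (g t) (g u) := by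
  obtain ⟨v1, h1, e1, d1⟩ := h.rep s
  obtain ⟨v2, h2, e2, d2⟩ := h.rep t
  obtain ⟨v3, h3, e3, d3⟩ := h.rep u
  rw [← e1, ← e2, ← e3]
  refine ⟨lineOf n, isLine_lineOf h.hn, ?_, ?_, ?_⟩
  · rw [pt_eq o h1, mk_mem_lineOf]; exact d1
  · rw [pt_eq o h2, mk_mem_lineOf]; exact d2
  · rw [pt_eq o h3, mk_mem_lineOf]; exact d3

lemma inj (h : GeoLine o n g) {s t : ℝ} (hst : s ≠ t) : g s ≠ g t := fun he => hst (h.iso.injective he)

lemma not_coll (h : GeoLine o n g) {s t : ℝ} (hst : s ≠ t) {P : M} (hP : P ∉ range g) :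
    ¬ Coll (g s) (g t) P := by
  obtain ⟨v1, h1, e1, d1⟩ := h.rep s
  obtain ⟨v2, h2, e2, d2⟩ := h.rep t
  obtain ⟨w, hw, ew⟩ := exists_rep o P
  have hne := h.inj hst
  rw [← e1, ← e2] at hne
  rw [← e1, ← e2, ← ew, coll_iff o h1 h2 hw]
  intro hdet
  apply hP
  have hcr : cr v1 v2 ≠ 0 := fun hc => hne ((pt_eq_pt o h1 h2).2 hc)
  obtain ⟨a, b, hab⟩ := mem_plane hcr hdet
  rw [← ew, h.mem w hw, hab]
  have : dt n (a • v1 + b • v2) = a * dt n v1 + b * dt n v2 := by
    simp only [dt_def, Pi.add_apply, Pi.smul_apply, smul_eq_mul]; ring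
  rw [this, d1, d2]; ring

lemma distFun (h : GeoLine o n g) {P : M} (hP : P ∉ range g) : DistFun (fun t => dist P (g t)) := by
  refine ⟨fun t => ?_, fun s t => ?_, fun s t => ?_⟩
  · rw [dist_pos]; rintro rfl; exact hP ⟨t, rfl⟩
  · rw [← h.dist_eq s t]
    have := abs_dist_sub_le (g s) (g t) P
    simpa [dist_comm] using this
  · rw [← h.dist_eq s t]
    calc dist (g s) (g t) ≤ dist (g s) P + dist P (g t) := dist_triangle _ _ _
      _ = dist P (g s) + dist P (g t) := by rw [dist_comm (g s)]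

end GeoLine

/-- The circle identity along a line (parabolic type). -/
lemma dist_par (hC : SatisfiesCircleIdentity .parabolic M) {o : M} {n : V3} {g : ℝ → M}
    (h : GeoLine o n g) (P : M) :
    ∃ C c : ℝ, 0 ≤ C ∧ (P ∉ range g → 0 < C) ∧ ∀ t, dist P (g t) ^ 2 = (t - c) ^ 2 + C := by
  by_cases hP : P ∈ range g
  · obtain ⟨c, rfl⟩ := hP
    refine ⟨0, c, le_rfl, fun hc => absurd ⟨c, rfl⟩ hc, fun t => ?_⟩
    rw [h.dist_eq, sq_abs]; ring
  · obtain ⟨C, c, h1, h2⟩ := par1D (h.distFun hP) (fun s => by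
      set r := dist P (g s) with hr
      have hr0 : 0 < r := (h.distFun hP).pos s
      have := hC (g s) (g (s - r)) (g (s + r)) P r hr0
        (by rw [h.dist_eq]; rw [show s - (s - r) = r by ring]; exact abs_of_pos hr0)
        (by rw [h.dist_eq]; rw [show s - (s + r) = -r by ring, abs_neg]; exact abs_of_pos hr0)
        (by rw [dist_comm]) (h.inj (by intro he; linarith)) (h.coll _ _ _)
        (h.not_coll (by intro he; linarith) hP)
      simp only [Kind.size] at this
      rw [dist_comm (g (s - r)) P, dist_comm (g (s + r)) P] at this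
      nlinarith)
    exact ⟨C, c, h1.le, fun _ => h1, h2⟩

/-- The circle identity along a line (hyperbolic type). -/
lemma dist_hyp (hC : SatisfiesCircleIdentity .hyperbolic M) {o : M} {n : V3} {g : ℝ → M}
    (h : GeoLine o n g) (P : M) :
    ∃ C c : ℝ, 1 ≤ C ∧ (P ∉ range g → 1 < C) ∧
      ∀ t, Real.cosh (dist P (g t)) = C * Real.cosh (t - c) := by
  by_cases hP : P ∈ range g
  · obtain ⟨c, rfl⟩ := hP
    refine ⟨1, c, le_rfl, fun hc => absurd ⟨c, rfl⟩ hc, fun t => ?_⟩
    rw [h.dist_eq, Real.cosh_abs, one_mul, ← Real.cosh_neg]; ring_nf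
  · obtain ⟨C, c, h1, h2⟩ := hyp1D (h.distFun hP) (fun s => by
      set r := dist P (g s) with hr
      have hr0 : 0 < r := (h.distFun hP).pos s
      have := hC (g s) (g (s - r)) (g (s + r)) P r hr0
        (by rw [h.dist_eq]; rw [show s - (s - r) = r by ring]; exact abs_of_pos hr0)
        (by rw [h.dist_eq]; rw [show s - (s + r) = -r by ring, abs_neg]; exact abs_of_pos hr0)
        (by rw [dist_comm]) (h.inj (by intro he; linarith)) (h.coll _ _ _)
        (h.not_coll (by intro he; linarith) hP)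
      simp only [Kind.size] at this
      rw [dist_comm (g (s - r)) P, dist_comm (g (s + r)) P] at this
      have half : ∀ x : ℝ, Real.sinh (x / 2) ^ 2 = (Real.cosh x - 1) / 2 := fun x => by
        have e1 := Real.cosh_two_mul (x / 2)
        have e2 := Real.cosh_sq (x / 2)
        rw [show 2 * (x / 2) = x by ring] at e1
        linarith
      rw [half, half, Real.sinh_sq] at this
      linarith)
    exact ⟨C, c, h1.le, fun _ => h1, h2⟩

end Pool.Agent.ProjMetric
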