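import Mathlib
import Pool.Agent.ProjMetric93.LineCls

open Set

namespace Pool.Agent.ProjMetric

variable {M : Set P2} [MetricSpace M]

/-- functions of hyperbolic type along lines -/
def HypF (o : M) (f : M → ℝ) : Prop :=
  ∀ n g, GeoLine o n g → ∃ a b : ℝ, ∀ t, f (g t) = a * Real.cosh t + b * Real.sinh t

lemma hyp_zero {a b s t : ℝ} (hst : s ≠ t) (h1 : a * Real.cosh s + b * Real.sinh s = 0)
    (h2 : a * Real.cosh t + b * Real.sinh t = 0) : a = 0 ∧ b = 0 := by
  have hd : Real.sinh (s - t) ≠ 0 := by
    intro h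
    rw [Real.sinh_eq_zero] at h
    exact hst (sub_eq_zero.1 h)
  rw [Real.sinh_sub] at hd
  constructor
  · have : a * (Real.sinh s * Real.cosh t - Real.cosh s * Real.sinh t) = 0 := by
      linear_combination Real.sinh s * h2 - Real.sinh t * h1
    exact (mul_eq_zero.1 this).resolve_right hd
  · have : b * (Real.sinh s * Real.cosh t - Real.cosh s * Real.sinh t) = 0 := by
      linear_combination Real.cosh t * h1 - Real.cosh s * h2
    exact (mul_eq_zero.1 this).resolve_right hd

lemma hypF_class (hP : IsProjectiveMetricPlane .hyperbolic M) (o : M) : LineClass o (HypF o) := by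
  refine ⟨?_, ?_⟩
  · intro f g hf hg c d n γ hγ
    obtain ⟨a1, b1, h1⟩ := hf n γ hγ
    obtain ⟨a2, b2, h2⟩ := hg n γ hγ
    refine ⟨c * a1 + d * a2, c * b1 + d * b2, fun t => ?_⟩
    simp only [h1, h2]; ring
  · intro f hf u hu v hv w hw huv hdet fu fv
    have hn : cr u v ≠ 0 := huv
    have e1 : dt (cr u v) u = 0 := by simp only [dt_def, cr_apply0, cr_apply1, cr_apply2]; ring
    have e2 : dt (cr u v) v = 0 := by simp only [dt_def, cr_apply0, cr_apply1, cr_apply2]; ring
    have e3 : dt (cr u v) w = 0 := by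
      rw [← hdet]; simp only [det3_def, dt_def, cr_apply0, cr_apply1, cr_apply2]; ring
    obtain ⟨g, hg⟩ := exists_GeoLine (by simp) hP o hn hu e1
    obtain ⟨s, hs⟩ := (hg.mem u hu).2 e1
    obtain ⟨t, ht⟩ := (hg.mem v hv).2 e2
    obtain ⟨r, hr⟩ := (hg.mem w hw).2 e3
    obtain ⟨a, b, hab⟩ := hf _ _ hg
    rw [← hs, hab] at fu
    rw [← ht, hab] at fv
    rw [← hr, hab]
    have hst : s ≠ t := by
      rintro rfl
      exact huv ((pt_eq_pt o hu hv).1 (hs.symm.trans ht))
    obtain ⟨h1, h2⟩ := hyp_zero hst fu fv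
    rw [h1, h2]; ring

lemma hypF_dist (hC : SatisfiesCircleIdentity .hyperbolic M) (o P : M) :
    HypF o (fun X => Real.cosh (dist X P)) := by
  intro n g hg
  obtain ⟨C, c, -, -, h1⟩ := dist_hyp hC hg P
  refine ⟨C * Real.cosh c, -(C * Real.sinh c), fun t => ?_⟩
  simp only
  rw [dist_comm _ P, h1, Real.cosh_sub]; ring

/-- strict triangle inequality -/
lemma hyp_strict (hP : IsProjectiveMetricPlane .hyperbolic M)
    (hC : SatisfiesCircleIdentity .hyperbolic M) (o : M) {u v w : V3} (hu : u ∈ KM M)
    (hv : v ∈ KM M) (hw : w ∈ KM M) (h : det3 u v w ≠ 0) :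
    dist (pt o u) (pt o v) < dist (pt o w) (pt o u) + dist (pt o w) (pt o v) := by
  have huv := cr_ne_of_det3 h
  have e1 : dt (cr u v) u = 0 := by simp only [dt_def, cr_apply0, cr_apply1, cr_apply2]; ring
  have e2 : dt (cr u v) v = 0 := by simp only [dt_def, cr_apply0, cr_apply1, cr_apply2]; ring
  obtain ⟨g, hg⟩ := exists_GeoLine (by simp) hP o huv hu e1
  obtain ⟨s, hs⟩ := (hg.mem u hu).2 e1
  obtain ⟨t, ht⟩ := (hg.mem v hv).2 e2
  have hwr : pt o w ∉ range g := by
    rw [hg.mem w hw]
    intro h0; apply h; rw [← h0]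
    simp only [det3_def, dt_def, cr_apply0, cr_apply1, cr_apply2]; ring
  obtain ⟨C, c, -, hpos, hd⟩ := dist_hyp hC hg (pt o w)
  have hC0 := hpos hwr
  rw [← hs, ← ht, hg.dist_eq]
  have k : ∀ t, |t - c| < dist (pt o w) (g t) := by
    intro t
    rw [← abs_of_nonneg (dist_nonneg (x := pt o w) (y := g t)), ← Real.cosh_lt_cosh, hd]
    have := Real.cosh_pos (t - c)
    nlinarith
  have k3 : |s - t| ≤ |s - c| + |t - c| := by
    have := abs_sub_le s c t
    rwa [abs_sub_comm c t] at this
  linarith [k s, k t]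

/-- Hyperbolic type: the plane is a Beltrami-Cayley-Klein model. -/
theorem hyp_main (hP : IsProjectiveMetricPlane .hyperbolic M)
    (hC : SatisfiesCircleIdentity .hyperbolic M) : IsClassicalModel .hyperbolic M := by
  have hk : Kind.hyperbolic ≠ .elliptic := by simp
  have hM := hP.carrier
  obtain ⟨a, ha, b, hb, c, hc, habc⟩ := exists_basis_KP hk hM
  have o : M := ⟨_, ha.1.choose_spec⟩
  set A := pt o a with hA
  set B := pt o b with hB
  set C := pt o c with hCd
  have hcls := hypF_class hP o
  -- A is the origin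
  have sAB := hyp_strict hP hC o ha.1 hb.1 hc.1 habc
  have sBC := hyp_strict hP hC o hb.1 hc.1 ha.1 (by rw [det3_rot]; exact habc)
  have sCA := hyp_strict hP hC o hc.1 ha.1 hb.1 (by rw [det3_rot, det3_rot]; exact habc)
  rw [← hA, ← hB, ← hCd] at sAB sBC sCA
  set α := dist A B with hα
  set β := dist A C with hβ
  set γ := dist B C with hγ
  have dCA : dist C A = β := dist_comm _ _
  have dBA : dist B A = α := dist_comm _ _
  have dCB : dist C B = γ := dist_comm _ _
  have sAB : α < β + γ := by linarith
  have sBC : γ < α + β := by linarith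
  have sCA : β < γ + α := by linarith
  have hα0 : 0 < α := by
    have h := cr_ne_of_det3 habc
    rw [hα, dist_pos]
    exact fun he => h ((pt_eq_pt o ha.1 hb.1).1 he)
  have hγ0 : 0 ≤ γ := dist_nonneg
  have hβ0 : 0 < β := by linarith
  have shα : 0 < Real.sinh α := Real.sinh_pos_iff.2 hα0
  have shβ : 0 < Real.sinh β := Real.sinh_pos_iff.2 hβ0
  have cq : ∀ x : ℝ, Real.cosh x ^ 2 = 1 + Real.sinh x ^ 2 := fun x => by
    have := Real.cosh_sq x; linarith
  set κ := (Real.cosh α * Real.cosh β - Real.cosh γ) / (Real.sinh α * Real.sinh β) with hκ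
  have hκe : κ * (Real.sinh α * Real.sinh β) = Real.cosh α * Real.cosh β - Real.cosh γ := by
    rw [hκ]; field_simp
  have hκ1 : κ < 1 := by
    rw [hκ, div_lt_one (by positivity)]
    have : Real.cosh (α - β) < Real.cosh γ := by
      rw [Real.cosh_lt_cosh, abs_of_nonneg hγ0, abs_lt]
      constructor <;> linarith
    rw [Real.cosh_sub] at this
    linarith
  have hκ2 : -1 < κ := by
    rw [hκ, lt_div_iff₀ (by positivity)]
    have : Real.cosh γ < Real.cosh (α + β) := by
      rw [Real.cosh_lt_cosh, abs_of_nonneg hγ0, abs_of_pos (by positivity)]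
      exact sBC
    rw [Real.cosh_add] at this
    linarith
  have hs0 : 0 < 1 - κ ^ 2 := by nlinarith
  set σ := Real.sqrt (1 - κ ^ 2) with hσ
  have hσ0 : 0 < σ := Real.sqrt_pos.2 hs0
  have hσ2 : σ ^ 2 = 1 - κ ^ 2 := Real.sq_sqrt hs0.le
  -- coordinates
  set tz : M → ℝ := fun X => Real.cosh (dist X A) with htz
  set tx : M → ℝ := fun X => (tz X * Real.cosh α - Real.cosh (dist X B)) / Real.sinh α with htx
  set ty : M → ℝ := fun X =>
    ((tz X * Real.cosh β - Real.cosh (dist X C)) / Real.sinh β - κ * tx X) / σ with hty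
  have Ftz : HypF o tz := hypF_dist hC o A
  have Ftx : HypF o tx := by
    have := hcls.lin2 _ _ Ftz (hypF_dist hC o B) (Real.cosh α / Real.sinh α) (-1 / Real.sinh α)
    convert this using 2 with X
    simp only [htx]; ring
  have Fty : HypF o ty := by
    have := hcls.lin3 Ftz (hypF_dist hC o C) Ftx (Real.cosh β / Real.sinh β / σ)
      (-1 / Real.sinh β / σ) (-κ / σ)
    convert this using 2 with X
    simp only [hty]; ring
  have zA : tz A = 1 := by simp only [htz, dist_self, Real.cosh_zero]
  have zB : tz B = Real.cosh α := by simp only [htz]; rw [dBA]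
  have zC : tz C = Real.cosh β := by simp only [htz]; rw [dCA]
  have xA : tx A = 0 := by
    simp only [htx, zA]; rw [← hα]; ring
  have xB : tx B = Real.sinh α := by
    simp only [htx, zB, dist_self, Real.cosh_zero]
    rw [div_eq_iff shα.ne']
    have := cq α
    linarith
  have xC : tx C = Real.sinh β * κ := by
    simp only [htx, zC]; rw [dCB, div_eq_iff shα.ne']
    linarith
  have yA : ty A = 0 := by
    simp only [hty, zA, xA]; rw [← hβ]; ring
  have yB : ty B = 0 := by
    simp only [hty, zB, xB]; rw [← hγ]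
    rw [div_eq_zero_iff]; left
    rw [sub_eq_zero, div_eq_iff shβ.ne']
    linarith
  have yC : ty C = Real.sinh β * σ := by
    simp only [hty, zC, xC, dist_self, Real.cosh_zero]
    rw [div_eq_iff hσ0.ne']
    have e1 : (Real.cosh β * Real.cosh β - 1) / Real.sinh β = Real.sinh β := by
      rw [div_eq_iff shβ.ne']; have := cq β; linarith
    rw [e1]
    have : Real.sinh β * σ * σ = Real.sinh β * σ ^ 2 := by ring
    rw [this, hσ2]; ring
  -- the metric
  have hABC : ∀ f, HypF o f → f A = 0 → f B = 0 → f C = 0 → ∀ X, f X = 0 := fun f hf h1 h2 h3 X =>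
    hcls.eq_zero hk hM hf ha hb hc habc h1 h2 h3 X
  have metric : ∀ X Y : M, Real.cosh (dist X Y) = tz X * tz Y - tx X * tx Y - ty X * ty Y := by
    intro X Y
    have hf : HypF o (fun X => Real.cosh (dist X Y) - (tz X * tz Y - tx X * tx Y - ty X * ty Y)) := by
      have h1 := hcls.lin3 Ftz Ftx Fty (-tz Y) (tx Y) (ty Y)
      have h2 := hcls.lin2 _ _ (hypF_dist hC o Y) h1 1 1
      convert h2 using 2 with X
      ring
    have := hABC _ hf ?_ ?_ ?_ X
    · linarith
    · simp only [zA, xA, yA]; rw [dist_comm A Y]; simp only [htz]; ring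
    · simp only [zB, xB, yB]
      rw [dist_comm B Y]
      have e : Real.sinh α * tx Y = tz Y * Real.cosh α - Real.cosh (dist Y B) := by
        simp only [htx]; field_simp
      linarith
    · simp only [zC, xC, yC]
      rw [dist_comm C Y]
      have e : Real.sinh β * σ * ty Y =
          tz Y * Real.cosh β - Real.cosh (dist Y C) - Real.sinh β * κ * tx Y := by
        simp only [hty]; field_simp
      linarith
  have norm1 : ∀ X : M, tz X ^ 2 - tx X ^ 2 - ty X ^ 2 = 1 := by
    intro X
    have := metric X X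
    rw [dist_self, Real.cosh_zero] at this
    linarith
  -- the projective map
  set T : M → V3 := fun X => ![tx X, ty X, tz X] with hT
  obtain ⟨G, hG⟩ := hcls.exists_linear hk hM (T := T) (by
      intro i
      fin_cases i
      · exact Ftx
      · exact Fty
      · exact Ftz) ha hb hc habc (by
      rw [← hA, ← hB, ← hCd]
      simp only [hT, det3_def, Matrix.cons_val, xA, xB, xC, yA, yB, yC, zA, zB, zC]
      have hpos : 0 < Real.sinh α * (Real.sinh β * σ) := by positivity
      intro h
      have h' : Real.sinh α * (Real.sinh β * σ) = 0 := by linear_combination h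
      exact hpos.ne' h')
  -- every representing vector
  have hGK : ∀ v ∈ KM M, ∃ r : ℝ, r ≠ 0 ∧ T (pt o v) = r • G v := by
    intro v hv
    obtain ⟨D, -, -, -, hD⟩ := carrier_affine hk hM
    rcases lt_or_gt_of_ne ((hD v).1 hv).1 with h | h
    · have h1 : (-1 : ℝ) • v ∈ KP M := ⟨KM_smul (by norm_num) hv, by simp; exact h⟩
      obtain ⟨r, hr, hr2⟩ := hG _ h1
      rw [pt_smul o (by norm_num) hv, map_smul, smul_smul] at hr2
      exact ⟨r * -1, mul_ne_zero hr (by norm_num), hr2⟩
    · exact hG v ⟨hv, h⟩
  have hq : ∀ v ∈ KM M, ∀ r : ℝ, T (pt o v) = r • G v →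
      r ^ 2 * (G v 2 ^ 2 - G v 0 ^ 2 - G v 1 ^ 2) = 1 := by
    intro v hv r hr
    have e0 := congrFun hr 0
    have e1 := congrFun hr 1
    have e2 := congrFun hr 2
    simp only [hT, Matrix.cons_val, Pi.smul_apply, smul_eq_mul] at e0 e1 e2
    have := norm1 (pt o v)
    rw [e0, e1, e2] at this
    linarith
  have hqpos : ∀ v ∈ KM M, 0 < G v 2 ^ 2 - G v 0 ^ 2 - G v 1 ^ 2 := by
    intro v hv
    obtain ⟨r, hr, hr2⟩ := hGK v hv
    have h1 := hq v hv r hr2
    have h2 : 0 < r ^ 2 := by positivity
    by_contra h3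
    push Not at h3
    have h4 := mul_nonpos_of_nonneg_of_nonpos h2.le h3
    linarith
  refine ⟨G, fun v hv => ?_, fun u v hu hv hu' hv' => ?_⟩
  · simp only [Kind.modelCarrier]
    constructor
    · intro h
      have := hqpos v ⟨hv, h⟩
      linarith
    · intro h
      -- the line through `a` and `v`
      by_cases hav : cr a v = 0
      · have : Projectivization.mk ℝ a (KM_ne ha.1) = Projectivization.mk ℝ v hv :=
          (mk_eq_mk_cr _ _).2 hav
        rw [← this]; exact ha.1.choose_spec
      · have e1 : dt (cr a v) a = 0 := by simp only [dt_def, cr_apply0, cr_apply1, cr_apply2]; ring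
        have e2 : dt (cr a v) v = 0 := by simp only [dt_def, cr_apply0, cr_apply1, cr_apply2]; ring
        obtain ⟨g, hg⟩ := exists_GeoLine hk hP o hav ha.1 e1
        obtain ⟨x1, x2, hx⟩ := Ftx _ _ hg
        obtain ⟨y1, y2, hy⟩ := Fty _ _ hg
        obtain ⟨z1, z2, hz⟩ := Ftz _ _ hg
        -- T (g t) = cosh t • U + sinh t • W
        set U : V3 := ![x1, y1, z1] with hU
        set W : V3 := ![x2, y2, z2] with hW
        have hTg : ∀ t, T (g t) = Real.cosh t • U + Real.sinh t • W := by
          intro t
          apply v3_ext <;> simp only [hT, hU, hW, Matrix.cons_val, Pi.add_apply, Pi.smul_apply,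
            smul_eq_mul]
          · rw [hx]; ring
          · rw [hy]; ring
          · rw [hz]; ring
        have hnorm : ∀ t, (z1 * Real.cosh t + z2 * Real.sinh t) ^ 2 -
            (x1 * Real.cosh t + x2 * Real.sinh t) ^ 2 -
            (y1 * Real.cosh t + y2 * Real.sinh t) ^ 2 = 1 := by
          intro t
          rw [← hx, ← hy, ← hz]; exact norm1 _
        have n0 := hnorm 0
        simp only [Real.cosh_zero, Real.sinh_zero, mul_one, mul_zero, add_zero] at n0
        have n1 := hnorm 1
        have n2 := hnorm (-1)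
        rw [Real.cosh_neg, Real.sinh_neg] at n2
        have c1 := cq 1
        have s1 : 0 < Real.sinh 1 := Real.sinh_pos_iff.2 one_pos
        have k1 := Real.cosh_pos 1
        -- mixed and second terms
        have q12 : z1 * z2 - x1 * x2 - y1 * y2 = 0 := by
          have : 4 * Real.cosh 1 * Real.sinh 1 * (z1 * z2 - x1 * x2 - y1 * y2) = 0 := by
            linear_combination n1 - n2
          rcases mul_eq_zero.1 this with h | h
          · exfalso
            have : 0 < 4 * Real.cosh 1 * Real.sinh 1 := by positivity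
            linarith
          · exact h
        have q22 : z2 ^ 2 - x2 ^ 2 - y2 ^ 2 = -1 := by
          have : Real.sinh 1 ^ 2 * (z2 ^ 2 - x2 ^ 2 - y2 ^ 2 + 1) = 0 := by
            linear_combination (1 / 2) * n1 + (1 / 2) * n2 - Real.cosh 1 ^ 2 * n0 - c1
          rcases mul_eq_zero.1 this with h | h
          · exfalso
            have : 0 < Real.sinh 1 ^ 2 := by positivity
            linarith
          · linarith
        -- representatives
        have hrep : ∀ t, ∃ w ∈ KM M, pt o w = g t ∧ dt (cr a v) w = 0 := fun t => hg.rep t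
        obtain ⟨w0, hw0, hw0', hw0''⟩ := hrep 0
        obtain ⟨w1, hw1, hw1', hw1''⟩ := hrep 1
        have hcr01 : cr w0 w1 ≠ 0 := by
          intro h0
          have := (pt_eq_pt o hw0 hw1).2 h0
          rw [hw0', hw1'] at this
          exact hg.inj zero_ne_one this
        -- v is a combination of w0 and w1
        have hdet : det3 w0 w1 v = 0 := by
          -- all three orthogonal to cr a v
          by_contra hne
          set z := (linOf _ _ _ hne).symm (cr a v) with hz'
          have e : cr a v = z 0 • w0 + z 1 • w1 + z 2 • v := by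
            have : linOf _ _ _ hne z = cr a v := by simp [hz']
            rw [← this, linOf_apply]
          have : dt (cr a v) (cr a v) = 0 := by
            have e' : dt (cr a v) (z 0 • w0 + z 1 • w1 + z 2 • v) =
                z 0 * dt (cr a v) w0 + z 1 * dt (cr a v) w1 + z 2 * dt (cr a v) v := by
              simp only [dt_def, Pi.add_apply, Pi.smul_apply, smul_eq_mul]; ring
            rw [← e, hw0'', hw1'', e2] at e'
            rw [e']; ring
          exact hav (dt_self_eq_zero.1 this)
        obtain ⟨p0, p1, hp⟩ := mem_plane hcr01 hdet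
        obtain ⟨r0, hr0, hr0'⟩ := hGK w0 hw0
        obtain ⟨r1, hr1, hr1'⟩ := hGK w1 hw1
        rw [hw0', hTg, Real.cosh_zero, Real.sinh_zero, one_smul, zero_smul, add_zero] at hr0'
        rw [hw1', hTg] at hr1'
        -- G v = p U + q W
        obtain ⟨p, q, hpq⟩ : ∃ p q : ℝ, G v = p • U + q • W := by
          refine ⟨p0 / r0 + p1 / r1 * Real.cosh 1, p1 / r1 * Real.sinh 1, ?_⟩
          have g0 : G w0 = (1 / r0) • U := by rw [hr0', smul_smul]; field_simp; simp
          have g1 : G w1 = (1 / r1) • (Real.cosh 1 • U + Real.sinh 1 • W) := by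
            rw [hr1', smul_smul]; field_simp; simp
          rw [hp, map_add, map_smul, map_smul, g0, g1]
          apply v3_ext <;> simp only [Pi.add_apply, Pi.smul_apply, smul_eq_mul] <;> ring
        have hqv : G v 2 ^ 2 - G v 0 ^ 2 - G v 1 ^ 2 = p ^ 2 - q ^ 2 := by
          rw [hpq]
          simp only [hU, hW, Matrix.cons_val, Pi.add_apply, Pi.smul_apply, smul_eq_mul]
          linear_combination p ^ 2 * n0 + 2 * p * q * q12 + q ^ 2 * q22
        have hpos : 0 < p ^ 2 - q ^ 2 := by rw [← hqv]; linarith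
        set d := Real.sqrt (p ^ 2 - q ^ 2) with hd
        have hd0 : 0 < d := Real.sqrt_pos.2 hpos
        have hd2 : d ^ 2 = p ^ 2 - q ^ 2 := Real.sq_sqrt hpos.le
        -- there are r ≠ 0 and t with G v = r • T (g t)
        have hex : ∃ r t : ℝ, r ≠ 0 ∧ G v = r • T (g t) := by
          rcases le_or_gt 0 p with hp0 | hp0
          · refine ⟨d, Real.arsinh (q / d), hd0.ne', ?_⟩
            have e1 : Real.sinh (Real.arsinh (q / d)) = q / d := Real.sinh_arsinh _
            have e2 : Real.cosh (Real.arsinh (q / d)) = p / d := by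
              rw [Real.cosh_arsinh]
              rw [show 1 + (q / d) ^ 2 = (p / d) ^ 2 by
                rw [div_pow, div_pow, hd2]; field_simp; ring]
              exact Real.sqrt_sq (by positivity)
            rw [hTg, e1, e2, hpq]
            apply v3_ext <;> simp only [Pi.add_apply, Pi.smul_apply, smul_eq_mul] <;> field_simp
          · refine ⟨-d, Real.arsinh (-(q / d)), neg_ne_zero.2 hd0.ne', ?_⟩
            have e1 : Real.sinh (Real.arsinh (-(q / d))) = -(q / d) := Real.sinh_arsinh _
            have e2 : Real.cosh (Real.arsinh (-(q / d))) = -p / d := by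
              rw [Real.cosh_arsinh]
              rw [show 1 + (-(q / d)) ^ 2 = (-p / d) ^ 2 by
                rw [neg_sq, div_pow, div_pow, hd2]; field_simp; ring]
              exact Real.sqrt_sq (div_nonneg (by linarith) hd0.le)
            rw [hTg, e1, e2, hpq]
            apply v3_ext <;> simp only [Pi.add_apply, Pi.smul_apply, smul_eq_mul] <;> field_simp <;> ring
        obtain ⟨r, t, hr, hrt⟩ := hex
        obtain ⟨w, hw, hw', -⟩ := hrep t
        obtain ⟨r', hr', hr''⟩ := hGK w hw
        rw [hw'] at hr''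
        rw [hr'', smul_smul, ← map_smul] at hrt
        have hvw := G.injective hrt
        have hvK : v ∈ KM M := by rw [hvw]; exact KM_smul (mul_ne_zero hr hr') hw
        exact hvK.choose_spec
  · have hu1 : u ∈ KM M := ⟨hu, hu'⟩
    have hv1 : v ∈ KM M := ⟨hv, hv'⟩
    have e1 : (⟨Projectivization.mk ℝ u hu, hu'⟩ : M) = pt o u := Subtype.ext (pt_eq o hu1).symm
    have e2 : (⟨Projectivization.mk ℝ v hv, hv'⟩ : M) = pt o v := Subtype.ext (pt_eq o hv1).symm
    rw [e1, e2]
    simp only [Kind.modelDist]
    obtain ⟨r, hr, hr2⟩ := hGK u hu1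
    obtain ⟨s, hs, hs2⟩ := hGK v hv1
    have qu := hq u hu1 r hr2
    have qv := hq v hv1 s hs2
    have pu := hqpos u hu1
    have pv := hqpos v hv1
    have hm := metric (pt o u) (pt o v)
    have a0 := congrFun hr2 0
    have a1 := congrFun hr2 1
    have a2 := congrFun hr2 2
    have b0 := congrFun hs2 0
    have b1 := congrFun hs2 1
    have b2 := congrFun hs2 2
    simp only [hT, Matrix.cons_val, Pi.smul_apply, smul_eq_mul] at a0 a1 a2 b0 b1 b2
    rw [a0, a1, a2, b0, b1, b2] at hm
    set Qu := G u 2 ^ 2 - G u 0 ^ 2 - G u 1 ^ 2 with hQu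
    set Qv := G v 2 ^ 2 - G v 0 ^ 2 - G v 1 ^ 2 with hQv
    set Bq := G u 2 * G v 2 - G u 0 * G v 0 - G u 1 * G v 1 with hBq
    have hm' : Real.cosh (dist (pt o u) (pt o v)) = r * s * Bq := by rw [hm, hBq]; ring
    have su : Real.sqrt Qu = 1 / |r| := by
      have hr0 : 0 < |r| := abs_pos.2 hr
      rw [Real.sqrt_eq_iff_mul_self_eq pu.le (by positivity)]
      have : |r| ^ 2 * Qu = 1 := by rw [sq_abs]; exact qu
      field_simp
      linarith
    have sv : Real.sqrt Qv = 1 / |s| := by
      have hr0 : 0 < |s| := abs_pos.2 hs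
      rw [Real.sqrt_eq_iff_mul_self_eq pv.le (by positivity)]
      have : |s| ^ 2 * Qv = 1 := by rw [sq_abs]; exact qv
      field_simp
      linarith
    have hfin : |Bq| / (Real.sqrt Qu * Real.sqrt Qv) = Real.cosh (dist (pt o u) (pt o v)) := by
      rw [su, sv, hm']
      have hr0 : 0 < |r| := abs_pos.2 hr
      have hs0 : 0 < |s| := abs_pos.2 hs
      have h1 : |Bq| / (1 / |r| * (1 / |s|)) = |r * s * Bq| := by
        rw [abs_mul, abs_mul]; field_simp
      rw [h1, ← hm']
      exact abs_of_pos (Real.cosh_pos _)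
    rw [hfin, Real.arcosh_cosh dist_nonneg]

end Pool.Agent.ProjMetric
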