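import Mathlib
import Pool.Agent.ProjMetric93.LineCls

open Set

namespace Pool.Agent.ProjMetric

variable {M : Set P2} [MetricSpace M]

/-- functions affine along lines -/
def ParF (o : M) (f : M → ℝ) : Prop :=
  ∀ n g, GeoLine o n g → ∃ a b : ℝ, ∀ t, f (g t) = a * t + b

lemma parF_class (hP : IsProjectiveMetricPlane .parabolic M) (o : M) : LineClass o (ParF o) := by
  refine ⟨?_, ?_⟩
  · intro f g hf hg c d n γ hγ
    obtain ⟨a1, b1, h1⟩ := hf n γ hγ
    obtain ⟨a2, b2, h2⟩ := hg n γ hγ
    refine ⟨c * a1 + d * a2, c * b1 + d * b2, fun t => ?_⟩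
    simp only [h1, h2]; ring
  · intro f hf u hu v hv w hw huv hdet fu fv
    have hn : cr u v ≠ 0 := huv
    have e1 : dt (cr u v) u = 0 := by simp only [dt_def, cr_apply0, cr_apply1, cr_apply2]; ring
    have e2 : dt (cr u v) v = 0 := by simp only [dt_def, cr_apply0, cr_apply1, cr_apply2]; ring
    have e3 : dt (cr u v) w = 0 := by
      rw [← hdet]; simp only [det3_def, dt_def, cr_apply0, cr_apply1, cr_apply2]; ring
    obtain ⟨g, hg⟩ := exists_GeoLine (by simp) hP o hn hu e1
    obtain ⟨s, hs⟩ := (hg.mem u hu).2 e1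
    obtain ⟨t, ht⟩ := (hg.mem v hv).2 e2
    obtain ⟨r, hr⟩ := (hg.mem w hw).2 e3
    obtain ⟨a, b, hab⟩ := hf _ _ hg
    rw [← hs, hab] at fu
    rw [← ht, hab] at fv
    rw [← hr, hab]
    have hst : s ≠ t := by
      rintro rfl
      exact huv ((pt_eq_pt o hu hv).1 (hs.symm.trans ht))
    have ha : a = 0 := by
      have : a * (s - t) = 0 := by linarith
      rcases mul_eq_zero.1 this with h | h
      · exact h
      · exact absurd (sub_eq_zero.1 h) hst
    rw [ha] at fu ⊢
    linarith

lemma parF_diff (hC : SatisfiesCircleIdentity .parabolic M) (o P Q : M) :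
    ParF o (fun X => dist X P ^ 2 - dist X Q ^ 2) := by
  intro n g hg
  obtain ⟨C1, c1, -, -, h1⟩ := dist_par hC hg P
  obtain ⟨C2, c2, -, -, h2⟩ := dist_par hC hg Q
  refine ⟨2 * (c2 - c1), c1 ^ 2 + C1 - (c2 ^ 2 + C2), fun t => ?_⟩
  simp only
  rw [dist_comm _ P, dist_comm _ Q, h1, h2]; ring

lemma parF_const (o : M) (c : ℝ) : ParF o (fun _ => c) := fun n g _ => ⟨0, c, fun t => by ring⟩

/-- strict triangle inequality -/
lemma par_strict (hP : IsProjectiveMetricPlane .parabolic M)
    (hC : SatisfiesCircleIdentity .parabolic M) (o : M) {u v w : V3} (hu : u ∈ KM M)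
    (hv : v ∈ KM M) (hw : w ∈ KM M) (h : det3 u v w ≠ 0) :
    dist (pt o u) (pt o v) < dist (pt o w) (pt o u) + dist (pt o w) (pt o v) := by
  have huv := cr_ne_of_det3 h
  have e1 : dt (cr u v) u = 0 := by simp only [dt_def, cr_apply0, cr_apply1, cr_apply2]; ring
  have e2 : dt (cr u v) v = 0 := by simp only [dt_def, cr_apply0, cr_apply1, cr_apply2]; ring
  obtain ⟨g, hg⟩ := exists_GeoLine (by simp) hP o huv hu e1
  obtain ⟨s, hs⟩ := (hg.mem u hu).2 e1
  obtain ⟨t, ht⟩ := (hg.mem v hv).2 e2
  have hwr : pt o w ∉ range g := by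
    rw [hg.mem w hw]
    intro h0; apply h; rw [← h0]
    simp only [det3_def, dt_def, cr_apply0, cr_apply1, cr_apply2]; ring
  obtain ⟨C, c, -, hpos, hd⟩ := dist_par hC hg (pt o w)
  have hC0 := hpos hwr
  rw [← hs, ← ht, hg.dist_eq]
  have k1 : |s - c| < dist (pt o w) (g s) := by
    apply abs_lt_of_sq_lt_sq _ dist_nonneg
    rw [hd]; linarith
  have k2 : |t - c| < dist (pt o w) (g t) := by
    apply abs_lt_of_sq_lt_sq _ dist_nonneg
    rw [hd]; linarith
  have k3 : |s - t| ≤ |s - c| + |t - c| := by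
    have := abs_sub_le s c t
    rwa [abs_sub_comm c t] at this
  linarith

/-- Parabolic type: the plane is Euclidean. -/
theorem par_main (hP : IsProjectiveMetricPlane .parabolic M)
    (hC : SatisfiesCircleIdentity .parabolic M) : IsClassicalModel .parabolic M := by
  have hk : Kind.parabolic ≠ .elliptic := by simp
  have hM := hP.carrier
  obtain ⟨a, ha, b, hb, c, hc, habc⟩ := exists_basis_KP hk hM
  have o : M := ⟨_, ha.1.choose_spec⟩
  set A := pt o a with hA
  set B := pt o b with hB
  set C := pt o c with hCd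
  have hcls := parF_class hP o
  -- A is the origin
  have sAB := par_strict hP hC o ha.1 hb.1 hc.1 habc
  have sBC := par_strict hP hC o hb.1 hc.1 ha.1 (by rw [det3_rot]; exact habc)
  have sCA := par_strict hP hC o hc.1 ha.1 hb.1 (by rw [det3_rot, det3_rot]; exact habc)
  rw [← hA, ← hB, ← hCd] at sAB sBC sCA
  set α := dist A B with hα
  set β := dist A C with hβ
  set γ := dist B C with hγ
  have dCA : dist C A = β := dist_comm _ _
  have dBA : dist B A = α := dist_comm _ _
  have dCB : dist C B = γ := dist_comm _ _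
  have sAB : α < β + γ := by linarith
  have sBC : γ < α + β := by linarith
  have sCA : β < γ + α := by linarith
  have hα0 : 0 < α := by
    have h := cr_ne_of_det3 habc
    rw [hα, dist_pos]
    exact fun he => h ((pt_eq_pt o ha.1 hb.1).1 he)
  have hβ0 : 0 < β := by linarith [dist_nonneg (x := B) (y := C)]
  set κ := (α ^ 2 + β ^ 2 - γ ^ 2) / (2 * α * β) with hκ
  have hκe : κ * (2 * α * β) = α ^ 2 + β ^ 2 - γ ^ 2 := by
    rw [hκ]; field_simp
  have hκ1 : κ < 1 := by
    rw [hκ, div_lt_one (by positivity)]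
    nlinarith
  have hκ2 : -1 < κ := by
    rw [hκ, lt_div_iff₀ (by positivity)]
    nlinarith
  have hs0 : 0 < 1 - κ ^ 2 := by nlinarith
  set σ := Real.sqrt (1 - κ ^ 2) with hσ
  have hσ0 : 0 < σ := Real.sqrt_pos.2 hs0
  have hσ2 : σ ^ 2 = 1 - κ ^ 2 := Real.sq_sqrt hs0.le
  -- coordinates
  set tx : M → ℝ := fun X => (dist X A ^ 2 + α ^ 2 - dist X B ^ 2) / (2 * α) with htx
  set ty : M → ℝ := fun X =>
    (dist X A ^ 2 - dist X C ^ 2 + β ^ 2 - 2 * β * κ * tx X) / (2 * β * σ) with hty
  have Ftx : ParF o tx := by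
    have := hcls.lin2 _ _ (parF_diff hC o A B) (parF_const o (α ^ 2)) (1 / (2 * α)) (1 / (2 * α))
    convert this using 2 with X
    simp only [htx]; ring
  have Fty : ParF o ty := by
    have := hcls.lin3 (parF_diff hC o A C) (parF_const o (β ^ 2)) Ftx (1 / (2 * β * σ))
      (1 / (2 * β * σ)) (-(2 * β * κ) / (2 * β * σ))
    convert this using 2 with X
    simp only [hty]; ring
  have xA : tx A = 0 := by
    simp only [htx, dist_self]; rw [← hα]; ring
  have xB : tx B = α := by
    simp only [htx, dist_self]; rw [dist_comm B A, ← hα]; field_simp; ring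
  have xC : tx C = β * κ := by
    simp only [htx]; rw [dist_comm C A, dist_comm C B, ← hβ, ← hγ, hκ]; field_simp; ring
  have yA : ty A = 0 := by
    simp only [hty, xA, dist_self]; rw [← hβ]; ring
  have yB : ty B = 0 := by
    simp only [hty, xB]; rw [dist_comm B A, ← hα, ← hγ]
    rw [div_eq_zero_iff]; left; linarith
  have yC : ty C = β * σ := by
    simp only [hty, xC, dist_self]; rw [dist_comm C A, ← hβ]
    rw [div_eq_iff (by positivity)]
    have : (β * σ) * (2 * β * σ) = 2 * β ^ 2 * σ ^ 2 := by ring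
    rw [this, hσ2]; ring
  -- the metric
  have hABC : ∀ f, ParF o f → f A = 0 → f B = 0 → f C = 0 → ∀ X, f X = 0 := fun f hf h1 h2 h3 X =>
    hcls.eq_zero hk hM hf ha hb hc habc h1 h2 h3 X
  have step1 : ∀ X Y : M, dist X Y ^ 2 = dist X A ^ 2 + dist Y A ^ 2 - 2 * (tx X * tx Y + ty X * ty Y) := by
    intro X Y
    have hf : ParF o (fun X => dist X Y ^ 2 - dist X A ^ 2 + 2 * (tx X * tx Y + ty X * ty Y)
        - dist Y A ^ 2) := by
      have h1 := hcls.lin3 Ftx Fty (parF_const o (dist Y A ^ 2)) (2 * tx Y) (2 * ty Y) (-1)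
      have h2 := hcls.lin2 _ _ (parF_diff hC o Y A) h1 1 1
      convert h2 using 2 with X
      ring
    have := hABC _ hf ?_ ?_ ?_ X
    · linarith
    · simp only [xA, yA, dist_self]; rw [dist_comm A Y]; ring
    · simp only [xB, yB]
      rw [dist_comm B A, ← hα, dist_comm B Y]
      simp only [htx]; field_simp; ring
    · simp only [xC, yC]
      rw [dist_comm C A, ← hβ, dist_comm C Y]
      have e : 2 * (β * σ) * ty Y = dist Y A ^ 2 - dist Y C ^ 2 + β ^ 2 - 2 * β * κ * tx Y := by
        simp only [hty]; field_simp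
      linarith
  have step2 : ∀ X : M, dist X A ^ 2 = tx X ^ 2 + ty X ^ 2 := by
    intro X
    have := step1 X X
    rw [dist_self] at this
    linarith
  have metric : ∀ X Y : M, dist X Y ^ 2 = (tx X - tx Y) ^ 2 + (ty X - ty Y) ^ 2 := by
    intro X Y
    rw [step1, step2 X, step2 Y]; ring
  -- the projective map
  set T : M → V3 := fun X => ![tx X, ty X, 1] with hT
  obtain ⟨G, hG⟩ := hcls.exists_linear hk hM (T := T) (by
      intro i
      fin_cases i
      · exact Ftx
      · exact Fty
      · exact parF_const o 1) ha hb hc habc (by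
      rw [← hA, ← hB, ← hCd]
      simp only [hT, det3_def, Matrix.cons_val, xA, xB, xC, yA, yB, yC]
      have hpos : 0 < α * β * σ := by positivity
      intro h
      have h' : α * β * σ = 0 := by linear_combination h
      exact hpos.ne' h')
  obtain ⟨D, -, -, -, hD⟩ := carrier_affine hk hM
  have hKM : ∀ v : V3, v ∈ KM M ↔ v 2 ≠ 0 := by
    intro v
    have h1 : M = range aff := hM
    constructor
    · intro h; exact ((hD v).1 h).1
    · intro h2
      have hv : v ≠ 0 := by rintro rfl; exact h2 rfl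
      refine ⟨hv, ?_⟩
      rw [h1]
      refine ⟨(v 0 / v 2, v 1 / v 2), ?_⟩
      rw [aff, Projectivization.mk_eq_mk_iff']
      refine ⟨1 / v 2, ?_⟩
      apply v3_ext
      · simp only [Pi.smul_apply, smul_eq_mul, Matrix.cons_val]; ring
      · simp only [Pi.smul_apply, smul_eq_mul, Matrix.cons_val]; ring
      · simp only [Pi.smul_apply, smul_eq_mul, Matrix.cons_val]; field_simp
  -- the third coordinate of G v does not vanish on the upper half space
  have hG2 : ∀ v : V3, 0 < v 2 → G v 2 ≠ 0 := by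
    intro v hv h0
    obtain ⟨r, hr, hr2⟩ := hG v ⟨(hKM v).2 hv.ne', hv⟩
    have := congrFun hr2 2
    simp only [hT, Matrix.cons_val, Pi.smul_apply, smul_eq_mul, h0, mul_zero] at this
    exact one_ne_zero this
  have hlin : ∀ v : V3, G v 2 = v 0 * G E1 2 + v 1 * G E2 2 + v 2 * G E3 2 := by
    intro v
    have e : v = v 0 • E1 + v 1 • E2 + v 2 • E3 := by
      apply v3_ext <;> simp [E1, E2, E3]
    conv_lhs => rw [e]
    simp only [map_add, map_smul, Pi.add_apply, Pi.smul_apply, smul_eq_mul]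
  have g1 : G E1 2 = 0 := by
    by_contra h
    have := hG2 ![-(G E3 2) / G E1 2, 0, 1] (by simp)
    apply this
    rw [hlin]; simp only [Matrix.cons_val]; field_simp; ring
  have g2 : G E2 2 = 0 := by
    by_contra h
    have := hG2 ![0, -(G E3 2) / G E2 2, 1] (by simp)
    apply this
    rw [hlin]; simp only [Matrix.cons_val]; field_simp; ring
  have g3 : G E3 2 ≠ 0 := hG2 E3 (by simp [E3])
  have hGv : ∀ v : V3, G v 2 = v 2 * G E3 2 := by
    intro v; rw [hlin, g1, g2]; ring
  have hcoord : ∀ v ∈ KM M, tx (pt o v) = G v 0 / G v 2 ∧ ty (pt o v) = G v 1 / G v 2 := by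
    have aux : ∀ v ∈ KP M, tx (pt o v) = G v 0 / G v 2 ∧ ty (pt o v) = G v 1 / G v 2 := by
      intro v hv
      obtain ⟨r, hr, hr2⟩ := hG v hv
      have e0 := congrFun hr2 0
      have e1 := congrFun hr2 1
      have e2 := congrFun hr2 2
      simp only [hT, Matrix.cons_val, Pi.smul_apply, smul_eq_mul] at e0 e1 e2
      have h2 := hG2 v hv.2
      have hr' : r = 1 / G v 2 := by field_simp; linarith
      rw [e0, e1, hr']
      constructor <;> ring
    intro v hv
    rcases lt_or_gt_of_ne ((hKM v).1 hv) with h | h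
    · have h1 : (-1 : ℝ) • v ∈ KP M := ⟨KM_smul (by norm_num) hv, by simp; exact h⟩
      have := aux _ h1
      rw [pt_smul o (by norm_num) hv] at this
      simp only [map_smul, Pi.smul_apply, smul_eq_mul] at this
      rw [this.1, this.2]
      constructor
      · rw [mul_div_mul_left _ _ (by norm_num)]
      · rw [mul_div_mul_left _ _ (by norm_num)]
    · exact aux v ⟨hv, h⟩
  refine ⟨G, fun v hv => ?_, fun u v hu hv hu' hv' => ?_⟩
  · simp only [Kind.modelCarrier]
    rw [hGv]
    have : Projectivization.mk ℝ v hv ∈ M ↔ v ∈ KM M := ⟨fun h => ⟨hv, h⟩, fun h => h.choose_spec⟩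
    rw [this, hKM]
    constructor
    · intro h; exact mul_ne_zero h g3
    · intro h h0; rw [h0, zero_mul] at h; exact h rfl
  · have hu1 : u ∈ KM M := ⟨hu, hu'⟩
    have hv1 : v ∈ KM M := ⟨hv, hv'⟩
    have e1 : (⟨Projectivization.mk ℝ u hu, hu'⟩ : M) = pt o u := Subtype.ext (pt_eq o hu1).symm
    have e2 : (⟨Projectivization.mk ℝ v hv, hv'⟩ : M) = pt o v := Subtype.ext (pt_eq o hv1).symm
    rw [e1, e2]
    simp only [Kind.modelDist]
    rw [← (hcoord u hu1).1, ← (hcoord u hu1).2, ← (hcoord v hv1).1, ← (hcoord v hv1).2, ← metric,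
      Real.sqrt_sq dist_nonneg]

end Pool.Agent.ProjMetric
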