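import Mathlib
import Pool.Agent.ProjMetric93.EllC
import Pool.Agent.ProjMetric93.Par
import Pool.Agent.ProjMetric93.Hyp

open Set Real

namespace Pool.Agent.ProjMetric

variable {M : Set P2} [MetricSpace M]

omit [MetricSpace M] in
lemma ell_KM (hM : M = Set.univ) (v : V3) : v ∈ KM M ↔ v ≠ 0 := by
  constructor
  · exact KM_ne
  · intro h; refine ⟨h, ?_⟩; rw [hM]; exact Set.mem_univ _

lemma ell_ellD (hP : IsProjectiveMetricPlane .elliptic M) (o : M) :
    EllD (fun u v => dist (pt o u) (pt o v)) := by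
  have hM : M = Set.univ := hP.carrier
  have hK := ell_KM hM
  refine ⟨?_, ?_, ?_, ?_, ?_, ?_, ?_⟩
  · intro u v _ _; exact dist_comm _ _
  · intro u v hu hv
    rw [dist_eq_zero, pt_eq_pt o ((hK u).2 hu) ((hK v).2 hv)]
  · intro u v w _ _ _; exact dist_triangle _ _ _
  · intro c u v hc _ hv
    rw [pt_smul o hc ((hK v).2 hv)]
  · intro u hu
    rw [continuousOn_iff_continuous_domRestrict]
    have hmem : ∀ v : {v : V3 // v ≠ 0}, Projectivization.mk' ℝ v ∈ M := fun v => by
      rw [hM]; exact Set.mem_univ _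
    have h1 := hP.continuous_dist.comp
      (g := fun p => dist (⟨Projectivization.mk' ℝ p.1.1, p.1.2⟩ : M)
        ⟨Projectivization.mk' ℝ p.2.1, p.2.2⟩)
      (f := fun v : {v : V3 // v ≠ 0} =>
        ((⟨⟨u, hu⟩, hmem _⟩ : {v : {v : V3 // v ≠ 0} // Projectivization.mk' ℝ v ∈ M}),
          (⟨v, hmem v⟩ : {v : {v : V3 // v ≠ 0} // Projectivization.mk' ℝ v ∈ M})))
      (by
        refine Continuous.prodMk continuous_const ?_
        exact Continuous.subtype_mk continuous_id _)
    refine h1.congr fun v => ?_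
    simp only [Function.comp, Set.domRestrict]
    have e1 : (⟨Projectivization.mk' ℝ ⟨u, hu⟩, hmem ⟨u, hu⟩⟩ : M) = pt o u :=
      Subtype.ext (pt_eq o ((hK u).2 hu)).symm
    have e2 : (⟨Projectivization.mk' ℝ v, hmem v⟩ : M) = pt o v.1 :=
      Subtype.ext (pt_eq o ((hK v.1).2 v.2)).symm
    rw [e1, e2]
  · intro u v huv
    obtain ⟨hu, hv⟩ := EllD.ne_of_cr huv
    have e1 : dt (cr u v) u = 0 := by simp only [dt_def, cr_apply0, cr_apply1, cr_apply2]; ring
    have h1 := (hP.geodesic_iff {X : M | X.1 ∈ lineOf (cr u v)}).2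
      ⟨⟨pt o u, by
        simp only [Set.mem_ofPred_eq]; rw [pt_eq o ((hK u).2 hu), mk_mem_lineOf]; exact e1⟩,
        lineOf (cr u v), isLine_lineOf huv, rfl⟩
    obtain ⟨g, hg, hr⟩ : ∃ g : AddCircle π → M, Isometry g ∧
      range g = {X : M | X.1 ∈ lineOf (cr u v)} := h1
    have hdet : ∀ w, det3 u v w = dt (cr u v) w := by
      intro w; simp only [det3_def, dt_def, cr_apply0, cr_apply1, cr_apply2]; ring
    have hmem : ∀ w, w ≠ 0 → (pt o w ∈ range g ↔ det3 u v w = 0) := by
      intro w hw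
      rw [hr, hdet]
      simp only [Set.mem_ofPred_eq]
      rw [pt_eq o ((hK w).2 hw), mk_mem_lineOf]
    classical
    refine ⟨fun w => if h : pt o w ∈ range g then h.choose else 0, ?_, ?_⟩
    · intro w w' hw hw' d1 d2
      have m1 := (hmem w hw).2 d1
      have m2 := (hmem w' hw').2 d2
      simp only [dif_pos m1, dif_pos m2]
      have c1 := m1.choose_spec
      have c2 := m2.choose_spec
      rw [← dist_eq_norm, ← hg.dist_eq, c1, c2]
    · intro τ
      obtain ⟨w, hw, hw2⟩ := exists_rep o (g τ)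
      have m1 : pt o w ∈ range g := ⟨τ, hw2.symm⟩
      refine ⟨w, KM_ne hw, (hmem w (KM_ne hw)).1 m1, ?_⟩
      simp only [dif_pos m1]
      apply hg.injective
      rw [m1.choose_spec, hw2]
  · intro a x y z r ha hx hy hz hr hr2 h1 h2 h3 c1 c2 c3 h0
    refine hP.strictly_convex_circles (pt o a) (pt o x) (pt o y) (pt o z) r ⟨hr, hr2⟩ h1 h2 h3
      ?_ ?_ ?_ ?_
    · rw [ne_eq, pt_eq_pt o ((hK x).2 hx) ((hK y).2 hy)]; exact c1
    · rw [ne_eq, pt_eq_pt o ((hK y).2 hy) ((hK z).2 hz)]; exact c2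
    · rw [ne_eq, pt_eq_pt o ((hK x).2 hx) ((hK z).2 hz)]; exact c3
    · rw [coll_iff o ((hK x).2 hx) ((hK y).2 hy) ((hK z).2 hz)]; exact h0

/-- Elliptic type: a projective-metric plane with strictly convex circles is elliptic. -/
theorem ell_main (hP : IsProjectiveMetricPlane .elliptic M) : IsClassicalModel .elliptic M := by
  have hM : M = Set.univ := hP.carrier
  have hK := ell_KM hM
  have hE1 : E1 ≠ 0 := by intro h0; have := congrFun h0 0; simp [E1] at this
  have o : M := ⟨Projectivization.mk ℝ E1 hE1, by rw [hM]; exact Set.mem_univ _⟩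
  have hD := ell_ellD hP o
  obtain ⟨P, hPp⟩ := hD.normal_form
  have hN : EllN (fun u v => dist (pt o (P u)) (pt o (P v))) :=
    { hD.comp P with perp := hPp }
  refine ⟨P.symm, fun v hv => ?_, fun u v hu hv hu' hv' => ?_⟩
  · simp only [Kind.modelCarrier]
    constructor
    · intro _ h0; exact hv (P.symm.map_eq_zero_iff.1 h0)
    · intro _; rw [hM]; exact Set.mem_univ _
  · have hu1 : u ∈ KM M := ⟨hu, hu'⟩
    have hv1 : v ∈ KM M := ⟨hv, hv'⟩
    have e1 : (⟨Projectivization.mk ℝ u hu, hu'⟩ : M) = pt o u := Subtype.ext (pt_eq o hu1).symm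
    have e2 : (⟨Projectivization.mk ℝ v hv, hv'⟩ : M) = pt o v := Subtype.ext (pt_eq o hv1).symm
    rw [e1, e2]
    have hu2 : P.symm u ≠ 0 := fun h0 => hu (P.symm.map_eq_zero_iff.1 h0)
    have hv2 : P.symm v ≠ 0 := fun h0 => hv (P.symm.map_eq_zero_iff.1 h0)
    have := hN.eq_arccos hu2 hv2
    simp only [LinearEquiv.apply_symm_apply] at this
    rw [this]
    simp only [Kind.modelDist, dt_def]
    congr 2
    rw [sq, sq, sq, sq, sq, sq]

/-- Every projective-metric plane with strictly convex circles satisfying the circle identity is a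
model of a classical geometry. -/
theorem main (k : Kind) (M : Set P2) [MetricSpace M] (hP : IsProjectiveMetricPlane k M)
    (hC : SatisfiesCircleIdentity k M) : IsClassicalModel k M := by
  cases k with
  | elliptic => exact ell_main hP
  | parabolic => exact par_main hP hC
  | hyperbolic => exact hyp_main hP hC

end Pool.Agent.ProjMetric
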