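import Mathlib
import Pool.Agent.ProjMetric93.Main

open Pool.Agent.ProjMetric

/-- Every projective-metric plane (of elliptic, parabolic or hyperbolic type, with strictly convex
circles) that satisfies the circle identity for every circle is a model of a classical geometry. -/
theorem Pool.Agent.ProjMetric93.circleIdentity_main :
    ∀ (k : Kind) (M : Set P2) [MetricSpace M], IsProjectiveMetricPlane k M →
      SatisfiesCircleIdentity k M → IsClassicalModel k M :=
  fun k M _ hP hC => main k M hP hC
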